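import Mathlib.Analysis.SpecialFunctions.Complex.CircleAddChar
import Mathlib.Probability.Independence.Basic
import Mathlib.Order.CompletePartialOrder
import Mathlib.Probability.ProductMeasure

-- ======== part 0: formerly Pool.Agent.MP_154433_an.sg.Defs
section MrgPart0

/-! Definitions for the sparse generalised von Neumann theorem (note 154433_sparseGvN_h92). -/

set_option autoImplicit false
set_option warn.classDefReducibility false

open MeasureTheory ProbabilityTheory Filter Topology Function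

noncomputable section

namespace Pool.Agent.MP_154433_an.SG

/-! ### bounded functions measurable for a sub-sigma-algebra, up to null sets -/

def ABM {X 𝕜 : Type} [RCLike 𝕜] (m : MeasurableSpace X) {_m0 : MeasurableSpace X}
    (μ : Measure X) (g : X → 𝕜) : Prop :=
  AEStronglyMeasurable[m] g μ ∧ ∃ C : ℝ, ∀ᵐ x ∂μ, ‖g x‖ ≤ C

def Orth {X 𝕜 : Type} [RCLike 𝕜] (m : MeasurableSpace X) {_m0 : MeasurableSpace X}
    (μ : Measure X) (g : X → 𝕜) : Prop :=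
  ∀ ψ : X → 𝕜, ABM m μ ψ → ∫ x, g x * ψ x ∂μ = 0

/-! ### the finite level -/

structure Fam where
  G : ℕ → Type
  [grp : ∀ N, AddCommGroup (G N)]
  [fin : ∀ N, Fintype (G N)]
  [ms : ∀ N, MeasurableSpace (G N)]
  [dms : ∀ N, DiscreteMeasurableSpace (G N)]
  ν : ∀ N, Measure (G N)
  [prob : ∀ N, IsProbabilityMeasure (ν N)]

attribute [instance] Fam.grp Fam.fin Fam.ms Fam.dms Fam.prob

namespace Fam

variable (Φ : Fam)

def unif (N : ℕ) : Measure (Φ.G N) := uniformOn Set.univ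

instance (N : ℕ) : IsProbabilityMeasure (Φ.unif N) := by unfold unif; infer_instance

abbrev Om (N : ℕ) : Type := ℕ → Φ.G N

/-- odd indices are sparse, even indices (among them `0`, the point `x`) are uniform -/
def law (N j : ℕ) : Measure (Φ.G N) := if Odd j then Φ.ν N else Φ.unif N

instance (N j : ℕ) : IsProbabilityMeasure (Φ.law N j) := by
  unfold law; split_ifs <;> infer_instance

def PP (N : ℕ) : Measure (Φ.Om N) := Measure.infinitePi (Φ.law N)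

instance (N : ℕ) : IsProbabilityMeasure (Φ.PP N) := by unfold PP; infer_instance

/-- the hypotheses on the sparse measures, along a filter -/
structure Hyp (l : Filter ℕ) (r : ℕ) : Prop where
  rpos : 1 ≤ r
  inv : ∀ d : ℤ, d ≠ 0 → ∀ᶠ N in l, Bijective fun v : Φ.G N => d • v
  tv : ∀ ε : ℝ, 0 < ε → ∀ᶠ N in l, ∀ g : Φ.G N → ℝ, (∀ v, |g v| ≤ 1) →
    |∫ s, g (∑ i, s i) ∂(Measure.pi fun _ : Fin r => Φ.ν N) - ∫ v, g v ∂Φ.unif N| ≤ ε
  mix : ∀ ε : ℝ, 0 < ε → ∀ᶠ N in l, ∀ g g' : Φ.G N → ℝ, (∀ v, |g v| ≤ 1) → (∀ v, |g' v| ≤ 1) →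
    |∫ x, ∫ t, g x * g' (x + t) ∂Φ.ν N ∂Φ.unif N -
      (∫ v, g v ∂Φ.unif N) * ∫ v, g' v ∂Φ.unif N| ≤ ε
  enn : ∀ k : ℕ, ∃ (d : ℕ) (δ : ∀ N, Φ.G N → Fin d → Φ.G N), (∀ N n, ∑ i, δ N n i = n) ∧
    ∀ ε : ℝ, 0 < ε → ∀ᶠ N in l, ∀ u : Finset (Fin d) → (Fin d → Φ.G N) → ℝ,
      (∀ J y, |u J y| ≤ 1) → (∀ J, DependsOn (u J) (J : Set (Fin d))) →
      |∫ n, ∏ J ∈ Finset.univ.filter (fun J : Finset (Fin d) => J.card ≤ k), u J (δ N n) ∂Φ.ν N -
        ∫ n, ∏ J ∈ Finset.univ.filter (fun J : Finset (Fin d) => J.card ≤ k), u J (δ N n)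
          ∂Φ.unif N| ≤ ε

/-- bounded families that depend on one finite set of indices -/
def Alg : Subalgebra ℝ (∀ N, Φ.Om N → ℝ) where
  carrier := {F | (∃ T : Finset ℕ, ∀ N, DependsOn (F N) (T : Set ℕ)) ∧
    ∃ C : ℝ, ∀ N ω, |F N ω| ≤ C}
  mul_mem' := by
    rintro F F' ⟨⟨T, hT⟩, C, hC⟩ ⟨⟨T', hT'⟩, C', hC'⟩
    refine ⟨⟨T ∪ T', fun N x y h => ?_⟩, C * C', fun N ω => ?_⟩
    · simp only [Pi.mul_apply]
      rw [hT N fun i hi => h i (by simp [Finset.mem_coe.1 hi]),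
        hT' N fun i hi => h i (by simp [Finset.mem_coe.1 hi])]
    · simp only [Pi.mul_apply, abs_mul]
      exact mul_le_mul (hC N ω) (hC' N ω) (abs_nonneg _) ((abs_nonneg _).trans (hC N ω))
  add_mem' := by
    rintro F F' ⟨⟨T, hT⟩, C, hC⟩ ⟨⟨T', hT'⟩, C', hC'⟩
    refine ⟨⟨T ∪ T', fun N x y h => ?_⟩, C + C', fun N ω => ?_⟩
    · simp only [Pi.add_apply]
      rw [hT N fun i hi => h i (by simp [Finset.mem_coe.1 hi]),
        hT' N fun i hi => h i (by simp [Finset.mem_coe.1 hi])]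
    · exact (abs_add_le _ _).trans (add_le_add (hC N ω) (hC' N ω))
  algebraMap_mem' := fun a => ⟨⟨∅, fun _ _ _ _ => rfl⟩, |a|, fun _ _ => le_rfl⟩

/-- points of the limit space: bounded characters of the algebra -/
@[ext] structure Pt where
  ev : Φ.Alg →ₐ[ℝ] ℝ
  bdd : ∀ (F : Φ.Alg) (C : ℝ), (∀ N ω, |F.1 N ω| ≤ C) → |ev F| ≤ C

variable {Φ}

def hat (F : Φ.Alg) (x : Φ.Pt) : ℝ := x.ev F

def sig (T : Set Φ.Alg) : MeasurableSpace Φ.Pt :=
  ⨆ F ∈ T, MeasurableSpace.comap (hat F) inferInstance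

instance : MeasurableSpace Φ.Pt := sig Set.univ

variable (Φ) in
/-- families of maps in which every coordinate of the image depends on finitely many indices -/
@[ext] structure FMap where
  toFun : ∀ N, Φ.Om N → Φ.Om N
  fin : ∀ j, ∃ T : Finset ℕ, ∀ N, DependsOn (fun ω => toFun N ω j) (T : Set ℕ)

def FMap.pull (Θ : Φ.FMap) : Φ.Alg →ₐ[ℝ] Φ.Alg where
  toFun F := ⟨fun N ω => F.1 N (Θ.toFun N ω), by
    obtain ⟨⟨T, hT⟩, C, hC⟩ := F.2
    choose T' hT' using Θ.fin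
    refine ⟨⟨T.biUnion T', fun N x y h => hT N fun i hi => hT' i N fun j hj => h j ?_⟩,
      C, fun N ω => hC N _⟩
    exact Finset.mem_coe.2 (Finset.mem_biUnion.2 ⟨i, hi, hj⟩)⟩
  map_one' := rfl
  map_mul' _ _ := rfl
  map_zero' := rfl
  map_add' _ _ := rfl
  commutes' _ := rfl

def FMap.lift (Θ : Φ.FMap) (x : Φ.Pt) : Φ.Pt :=
  ⟨x.ev.comp Θ.pull, fun F C h => x.bdd (Θ.pull F) C fun N _ => h N _⟩

def FMap.comp (Θ Θ' : Φ.FMap) : Φ.FMap where
  toFun N ω := Θ.toFun N (Θ'.toFun N ω)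
  fin j := by
    obtain ⟨T, hT⟩ := Θ.fin j
    choose T' hT' using Θ'.fin
    refine ⟨T.biUnion T', fun N x y h => hT N fun i hi => hT' i N fun j hj => h j ?_⟩
    exact Finset.mem_coe.2 (Finset.mem_biUnion.2 ⟨i, hi, hj⟩)

variable (Φ) in
def FMap.id : Φ.FMap := ⟨fun _ ω => ω, fun j => ⟨{j}, fun _ _ _ h => h j (by simp)⟩⟩

/-- `∑ c j • ω j` over the indices `j ≠ 0` -/
def dot {N : ℕ} (c : ℕ →₀ ℤ) (ω : Φ.Om N) : Φ.G N := Finsupp.linearCombination ℤ ω (c.erase 0)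

lemma dot_congr {N : ℕ} (c : ℕ →₀ ℤ) {ω ω' : Φ.Om N}
    (h : ∀ j ∈ c.support, j ≠ 0 → ω j = ω' j) : dot c ω = dot c ω' := by
  simp only [dot, Finsupp.linearCombination_apply, Finsupp.sum]
  refine Finset.sum_congr rfl fun j hj => ?_
  rw [Finsupp.support_erase, Finset.mem_erase] at hj
  rw [h j hj.2 hj.1]

variable (Φ) in
/-- move the point `x = ω 0` by `∑ c j • ω j` -/
def th (c : ℕ →₀ ℤ) : Φ.FMap where
  toFun _ ω := update ω 0 (ω 0 + dot c ω)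
  fin j := by
    refine ⟨insert j (insert 0 c.support), fun N x y h => ?_⟩
    by_cases hj : j = 0
    · subst hj
      simp only [update_self]
      rw [h 0 (by simp), dot_congr c fun i hi _ => h i (by simp [hi])]
    · simp only [update_of_ne hj]
      exact h j (by simp)

variable (Φ) in
def Th (c : ℕ →₀ ℤ) : Φ.Pt → Φ.Pt := (Φ.th c).lift

variable (Φ) in
/-- permutation of the indices -/
def perm (π : Equiv.Perm ℕ) : Φ.FMap :=
  ⟨fun _ ω => ω ∘ π, fun j => ⟨{π j}, fun _ _ _ h => h (π j) (by simp)⟩⟩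

variable (Φ) in
def Pm (π : Equiv.Perm ℕ) : Φ.Pt → Φ.Pt := (Φ.perm π).lift

open Classical in
/-- freeze the coordinates in `A` -/
def sec (A : Set ℕ) (σ : ∀ N, Φ.Om N) : Φ.FMap where
  toFun N ω := A.piecewise (σ N) ω
  fin j := ⟨{j}, fun N x y h => by
    by_cases hj : j ∈ A
    · simp [Set.piecewise, hj]
    · simpa [Set.piecewise, hj] using h j (by simp)⟩

open Classical in
/-- replace the coordinates in `A` by functions of the coordinate `z` -/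
def secf (A : Set ℕ) (sel : ∀ N, Φ.G N → Φ.Om N) (z : ℕ) : Φ.FMap where
  toFun N ω := A.piecewise (sel N (ω z)) ω
  fin j := ⟨{j, z}, fun N x y h => by
    by_cases hj : j ∈ A
    · simp [Set.piecewise, hj, h z (by simp)]
    · simpa [Set.piecewise, hj] using h j (by simp)⟩

/-- add constants to the coordinates in `D` -/
def cst (D : Finset ℕ) (σ : ∀ N, Φ.Om N) : Φ.FMap where
  toFun N ω j := if j ∈ D then ω j + σ N j else ω j
  fin j := ⟨{j}, fun N x y h => by simp only [h j (by simp)]⟩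

open Classical in
/-- average over the coordinates in `A` -/
def avg (A : Set ℕ) (F : Φ.Alg) : Φ.Alg :=
  ⟨fun N ω => ∫ ω', F.1 N (A.piecewise ω' ω) ∂Φ.PP N, by
    obtain ⟨⟨T, hT⟩, C, hC⟩ := F.2
    refine ⟨⟨T, fun N x y h => ?_⟩, C, fun N ω => ?_⟩
    · refine integral_congr_ae (Eventually.of_forall fun ω' => hT N fun i hi => ?_)
      by_cases hj : i ∈ A
      · simp [Set.piecewise, hj]
      · simpa [Set.piecewise, hj] using h i hi
    · have := norm_integral_le_of_norm_le_const (μ := Φ.PP N)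
        (f := fun ω' => F.1 N (A.piecewise ω' ω)) (C := C)
        (Eventually.of_forall fun ω' => hC N _)
      simpa using this⟩

def Dep (F : Φ.Alg) (I : Set ℕ) : Prop := ∀ N, DependsOn (F.1 N) I

variable (Φ) in
def DepS (I : Set ℕ) : Subalgebra ℝ Φ.Alg where
  carrier := {F | Dep F I}
  mul_mem' := fun {F F'} h h' N x y hxy => by
    show F.1 N x * F'.1 N x = F.1 N y * F'.1 N y
    rw [h N hxy, h' N hxy]
  add_mem' := fun {F F'} h h' N x y hxy => by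
    show F.1 N x + F'.1 N x = F.1 N y + F'.1 N y
    rw [h N hxy, h' N hxy]
  algebraMap_mem' := fun _ _ _ _ _ => rfl

variable (Φ)

def Full (I : Set ℕ) : MeasurableSpace Φ.Pt := sig {F : Φ.Alg | Dep F I}

def Lam (I : Set ℕ) : MeasurableSpace Φ.Pt := Φ.Full (I \ {0})

/-- functions of type `γ = (A, c)` with support in `I` -/
def Gen (γ : Finset ℕ × (ℕ →₀ ℤ)) (I : Set ℕ) : Set Φ.Alg :=
  {F | ∃ F' : Φ.Alg, Dep F' (I \ (γ.1 : Set ℕ)) ∧ F = (Φ.th γ.2).pull F'}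

def GenP (Γ : Set (Finset ℕ × (ℕ →₀ ℤ))) (I : Set ℕ) : Submonoid Φ.Alg :=
  Submonoid.closure (⋃ γ ∈ Γ, Φ.Gen γ I)

def Base (Γ : Set (Finset ℕ × (ℕ →₀ ℤ))) (I : Set ℕ) : MeasurableSpace Φ.Pt :=
  sig (Φ.GenP Γ I : Set Φ.Alg)

end Fam

/-- unit vector -/
abbrev ee (t : ℕ) : ℕ →₀ ℤ := Finsupp.single t 1

/-- the vector with entries `1` on `D` -/
def eS (D : Finset ℕ) : ℕ →₀ ℤ := ∑ j ∈ D, ee j

/-- the type of the functions that do not see the point -/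
def tyL : Finset ℕ × (ℕ →₀ ℤ) := ({0}, 0)

/-- permutations that fix `0` and keep the kind of every index -/
def KP (π : Equiv.Perm ℕ) : Prop := π 0 = 0 ∧ ∀ j, Odd (π j) ↔ Odd j

def Lives (Γ : Set (Finset ℕ × (ℕ →₀ ℤ))) (I : Set ℕ) : Prop :=
  ∀ γ ∈ Γ, (γ.1 : Set ℕ) ⊆ I ∧ γ.2.support ⊆ γ.1

structure Frame (Γ : Set (Finset ℕ × (ℕ →₀ ℤ))) (I : Set ℕ) : Prop where
  zero : 0 ∈ I
  hL : tyL ∈ Γ
  lives : Lives Γ I
  rich : {z | z ∈ I ∧ Even z ∧ z ≠ 0 ∧ (({z} : Finset ℕ), -ee z) ∈ Γ}.Infinite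
  cos : {j | j ∉ I ∧ Odd j}.Infinite
  cod : {j | j ∉ I ∧ Even j}.Infinite

/-- a family with an ultrafilter, the hypotheses, and the limit measure -/
structure Sys extends Fam where
  U : Ultrafilter ℕ
  r : ℕ
  hyp : toFam.Hyp U r
  μ : Measure toFam.Pt
  [pμ : IsProbabilityMeasure μ]
  lim : ∀ F : toFam.Alg, Tendsto (fun N => ∫ ω, F.1 N ω ∂toFam.PP N) U
    (𝓝 (∫ x, Fam.hat F x ∂μ))

attribute [instance] Sys.pμ

namespace Sys

variable (S : Sys)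

def MP (Θ : S.FMap) : Prop :=
  ∀ᶠ N in (S.U : Filter ℕ), MeasurePreserving (Θ.toFun N) (S.PP N) (S.PP N)

/-- the vanishing statement for at most `n` points in direction `c` -/
def Van (Γ : Set (Finset ℕ × (ℕ →₀ ℤ))) (I : Set ℕ) (J : Finset ℕ) (c : ℕ →₀ ℤ) (n : ℕ) : Prop :=
  ∀ (ι : Type) (s : Finset ι) (r : ι → ℤ), Set.InjOn r s → s.card ≤ n →
    ∀ (g : ι → S.Pt → ℝ) (ψ : S.Pt → ℝ), (∀ i ∈ s, ABM (S.Full I) S.μ (g i)) →
      ABM (S.Base Γ (I ∪ J)) S.μ ψ → ∀ i0 ∈ s, Orth (S.Base Γ I) S.μ (g i0) →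
      ∫ x, ψ x * ∏ i ∈ s, g i (S.Th (r i • c) x) ∂S.μ = 0

def SS (n : ℕ) : Prop :=
  ∀ Γ I t, Frame Γ I → t ∉ I → Odd t → S.Van Γ I {t} (ee t) n

def PJ (I : Set ℕ) (J : Finset ℕ) : MeasurableSpace S.Pt := S.Full I ⊔ S.Lam (I ∪ J)

/-- the base together with the other points of the line in direction `s`, seen from slot `i` -/
def BB {ι : Type} (r : ι → ℤ) (Γ : Set (Finset ℕ × (ℕ →₀ ℤ))) (I : Set ℕ) (J : Finset ℕ)
    (s : ℕ) (i : ι) : MeasurableSpace S.Pt :=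
  S.Base Γ (I ∪ J) ⊔ ⨆ j ∈ {j | j ≠ i}, (S.Full I).comap (S.Th ((r j - r i) • ee s))

def TT {ι : Type} [Fintype ι] (r : ι → ℤ) (t : ℕ) (ψ : S.Pt → ℝ) (F : ι → S.Pt → ℝ) : ℝ :=
  ∫ x, ψ x * ∏ k, F k (S.Th (r k • ee t) x) ∂S.μ

/-- a nonzero function orthogonal to the base that is determined on every line -/
def PA {ι : Type} (r : ι → ℤ) (Γ : Set (Finset ℕ × (ℕ →₀ ℤ))) (I : Set ℕ) (J : Finset ℕ) : Prop :=
  ∃ f : S.Pt → ℝ, ABM (S.PJ I J) S.μ f ∧
    (∀ s ∈ J, ∀ i, AEStronglyMeasurable[S.BB r Γ I J s i] f S.μ) ∧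
    Orth (S.Base Γ (I ∪ J)) S.μ f ∧ ¬ f =ᵐ[S.μ] 0

def Bd (D : Finset ℕ) : MeasurableSpace S.Pt := ⨆ j ∈ D, S.Full (insert 0 (D.erase j : Set ℕ))

def Low (k : ℕ) (D : Finset ℕ) : MeasurableSpace S.Pt :=
  ⨆ J ∈ {J : Finset ℕ | J ⊆ D ∧ J.card ≤ k}, S.Full (insert 0 (J : Set ℕ))

/-- finite sets of dense indices other than `0` -/
def Dn (D : Finset ℕ) : Prop := ∀ j ∈ D, Even j ∧ j ≠ 0

/-- structured functions of the point, of degree at most `k` -/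
def Str (k : ℕ) (a : S.Pt → ℝ) : Prop :=
  ABM (S.Full {0}) S.μ a ∧ ∀ D : Finset ℕ, Dn D → D.card = k + 1 →
    AEStronglyMeasurable[S.Bd D] (fun x => a (S.Th (eS D) x)) S.μ

end Sys

/-! ### abstract global system and fibres -/

section Abstract

variable {J ι : Type} [DecidableEq J]

/-- the point in slot `k` of the line in direction `s` that has `p` in slot `i` -/
def pt (r : ι → ℤ) (p : J → ℤ) (s : J) (i k : ι) : J → ℤ := p + Pi.single s (r k - r i)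

def Oth {Ω : Type} (P : (J → ℤ) → MeasurableSpace Ω) (r : ι → ℤ) (p : J → ℤ) (s : J) (i : ι) :
    MeasurableSpace Ω := ⨆ k ∈ {k | k ≠ i}, P (pt r p s i k)

def Slice {Ω : Type} (P : (J → ℤ) → MeasurableSpace Ω) (t : J) (m : ℤ) : MeasurableSpace Ω :=
  ⨆ c ∈ {c : J → ℤ | c t = m}, P c

variable [Fintype ι] [DecidableEq ι]

structure Glob {X : Type} (F B : MeasurableSpace X) (Ax : J → MeasurableSpace X)
    {m0 : MeasurableSpace X} (μ : Measure X) (r : ι → ℤ) (Θ : (J → ℤ) → X → X) : Prop where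
  F_le : F ≤ m0
  B_le : B ≤ m0
  Ax_le : ∀ s, Ax s ≤ m0
  mp : ∀ c, MeasurePreserving (Θ c) μ μ
  add : ∀ c c' x, Θ (c + c') x = Θ c (Θ c' x)
  zero : ∀ x, Θ 0 x = x
  B_inv : ∀ c, B.comap (Θ c) ≤ B
  g1 : ∀ (t : J) (M : Finset ℤ), M.card < Fintype.card ι → ∀ g : ℤ → X → ℝ,
    (∀ m ∈ M, ABM (Slice (fun c => F.comap (Θ c)) t m) μ (g m)) →
    μ[fun x => ∏ m ∈ M, g m x | B] =ᵐ[μ] fun x => ∏ m ∈ M, (μ[g m | B]) x
  g1d : ∀ (M : Finset ℤ) (g : ℤ → X → ℝ), (∀ m ∈ M, ABM (F.comap (Θ fun _ => m)) μ (g m)) →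
    μ[fun x => ∏ m ∈ M, g m x | B] =ᵐ[μ] fun x => ∏ m ∈ M, (μ[g m | B]) x
  g2 : ∀ (s : J) (i : ι) (a : X → ℝ), ABM F μ a →
    AEStronglyMeasurable[F ⊔ B] (μ[a | B ⊔ Oth (fun c => F.comap (Θ c)) r 0 s i]) μ
  g3 : ∀ (t s : J) (i j j' : ι) (a : ι → X → ℝ) (ψ : X → ℝ), (∀ k, ABM F μ (a k)) → ABM B μ ψ →
    ∫ x, ψ x * ((μ[a j | B ⊔ Oth (fun c => F.comap (Θ c)) r 0 s i]) (Θ (Pi.single t (r j)) x) *
        ∏ k ∈ Finset.univ.erase j, a k (Θ (Pi.single t (r k)) x)) ∂μ =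
      ∫ x, ψ x * ((μ[a j' | B ⊔ Oth (fun c => F.comap (Θ c)) r 0 s i])
          (Θ (Pi.single t (r j')) x) *
        ∏ k ∈ Finset.univ.erase j', a k (Θ (Pi.single t (r k)) x)) ∂μ
  g4 : ∃ f : X → ℝ, ABM (F ⊔ B) μ f ∧
    (∀ s i, AEStronglyMeasurable[B ⊔ Oth (fun c => F.comap (Θ c)) r 0 s i] f μ) ∧
    Orth B μ f ∧ ¬ f =ᵐ[μ] 0
  ax_pt : ∀ (s : J) (m : ℤ), F.comap (Θ (Pi.single s m)) ≤ Ax s
  ax_B : ∀ (s : J) (g : X → ℝ), ABM (Ax s) μ g → AEStronglyMeasurable[Ax s] (μ[g | B]) μ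
  ax_ci : ∀ s t : J, s ≠ t → ∀ g g' : X → ℝ, ABM (Ax s) μ g → ABM (Ax t) μ g' →
    μ[fun x => g x * g' x | F] =ᵐ[μ] fun x => (μ[g | F]) x * (μ[g' | F]) x
  swap : ∀ s t : J, ∃ sw : X → X, MeasurePreserving sw μ μ ∧
    (∀ A, MeasurableSet[F] A → sw ⁻¹' A = A) ∧ B.comap sw = B ∧
    ∀ (m : ℤ) (A : Set X), MeasurableSet[F] A →
      sw ⁻¹' (Θ (Pi.single s m) ⁻¹' A) = Θ (Pi.single t m) ⁻¹' A

structure Fib {Ω : Type} (P : (J → ℤ) → MeasurableSpace Ω) {m0 : MeasurableSpace Ω}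
    (m : Measure Ω) (r : ι → ℤ) : Prop where
  le : ∀ c, P c ≤ m0
  f1 : ∀ (t : J) (M : Finset ℤ), M.card < Fintype.card ι →
    iIndep (fun k : M => Slice P t (k : ℤ)) m
  f2 : ∀ (p : J → ℤ) (s : J) (i : ι) (a : Ω → ℂ), ABM (P p) m a →
    AEStronglyMeasurable[P p] (m[a | Oth P r p s i]) m
  f3 : ∀ (p : J → ℤ) (t s : J) (j0 i j j' : ι) (a : ι → Ω → ℂ),
    (∀ k, ABM (P (pt r p t j0 k)) m (a k)) →
    ∫ x, (m[a j | Oth P r (pt r p t j0 j) s i]) x * ∏ k ∈ Finset.univ.erase j, a k x ∂m =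
      ∫ x, (m[a j' | Oth P r (pt r p t j0 j') s i]) x * ∏ k ∈ Finset.univ.erase j', a k x ∂m

def FibD {Ω : Type} (P : (J → ℤ) → MeasurableSpace Ω) {_m0 : MeasurableSpace Ω}
    (m : Measure Ω) : Prop := iIndep (fun k : ℤ => P fun _ => k) m

def FibF {Ω : Type} (P : (J → ℤ) → MeasurableSpace Ω) {_m0 : MeasurableSpace Ω}
    (m : Measure Ω) (r : ι → ℤ) : Prop :=
  ∃ f : Ω → ℂ, ABM (P 0) m f ∧ (∀ s i, AEStronglyMeasurable[Oth P r 0 s i] f m) ∧
    ∫ x, f x ∂m = 0 ∧ ¬ f =ᵐ[m] 0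

/-- bounded function of the point `p` that is determined by the other points of the line -/
def Gd {Ω : Type} (P : (J → ℤ) → MeasurableSpace Ω) {_m0 : MeasurableSpace Ω}
    (m : Measure Ω) (r : ι → ℤ) (p : J → ℤ) (s : J) (i : ι) (a : Ω → ℂ) : Prop :=
  ABM (P p) m a ∧ AEStronglyMeasurable[Oth P r p s i] a m

def RhoOK {Ω : Type} (P : (J → ℤ) → MeasurableSpace Ω) {_m0 : MeasurableSpace Ω}
    (m : Measure Ω) (r : ι → ℤ) (p : J → ℤ) (s : J) (i : ι) (ρ : ι → Ω → ℂ) : Prop :=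
  ∀ k, ABM (P (pt r p s i k)) m (ρ k)

def Rho {Ω : Type} (ρ : ι → Ω → ℂ) (i q : ι) (x : Ω) : ℂ :=
  ∏ k ∈ (Finset.univ.erase i).erase q, ρ k x

/-- column operator at `p` -/
def Cop {Ω : Type} (P : (J → ℤ) → MeasurableSpace Ω) {_m0 : MeasurableSpace Ω}
    (m : Measure Ω) (r : ι → ℤ) (p : J → ℤ) (s : J) (i q : ι) (ρ ρ' : ι → Ω → ℂ) (a : Ω → ℂ) :
    Ω → ℂ :=
  m[fun x => Rho ρ' i q x * (m[fun y => a y * Rho ρ i q y | P (pt r p s i q)]) x | P p]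

/-- dual function at `p` -/
def Lop {Ω : Type} (P : (J → ℤ) → MeasurableSpace Ω) {_m0 : MeasurableSpace Ω}
    (m : Measure Ω) (p : J → ℤ) (j0 : ι) (a : ι → Ω → ℂ) : Ω → ℂ :=
  m[fun x => ∏ j ∈ Finset.univ.erase j0, a j x | P p]

end Abstract

/-! ### unimodular functions modulo constants -/

def Uni (Ω : Type) [MeasurableSpace Ω] : Subgroup (Ω → Circle) where
  carrier := {φ | Measurable fun ω => (φ ω : ℂ)}
  mul_mem' := fun {φ ψ} h h' => by
    show Measurable fun ω => ((φ ω * ψ ω : Circle) : ℂ)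
    simp only [Circle.coe_mul]
    exact Measurable.mul h h'
  one_mem' := by
    show Measurable fun _ : Ω => ((1 : Circle) : ℂ)
    exact measurable_const
  inv_mem' := fun {φ} h => by
    show Measurable fun ω => (((φ ω)⁻¹ : Circle) : ℂ)
    simp only [Circle.coe_inv]
    exact Measurable.inv h

def Cst {Ω : Type} [MeasurableSpace Ω] (m : Measure Ω) : Subgroup (Uni Ω) where
  carrier := {φ | ∃ κ : Circle, ∀ᵐ ω ∂m, φ.1 ω = κ}
  mul_mem' := by
    rintro φ ψ ⟨κ, h⟩ ⟨κ', h'⟩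
    refine ⟨κ * κ', ?_⟩
    filter_upwards [h, h'] with ω h h'
    show φ.1 ω * ψ.1 ω = _
    rw [h, h']
  one_mem' := ⟨1, Eventually.of_forall fun _ => rfl⟩
  inv_mem' := by
    rintro φ ⟨κ, h⟩
    refine ⟨κ⁻¹, ?_⟩
    filter_upwards [h] with ω h
    show (φ.1 ω)⁻¹ = _
    rw [h]

abbrev Cl {Ω : Type} [MeasurableSpace Ω] (m : Measure Ω) : Type := Additive (Uni Ω ⧸ Cst m)

def cl {Ω : Type} [MeasurableSpace Ω] (m : Measure Ω) (φ : Uni Ω) : Cl m :=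
  Additive.ofMul (QuotientGroup.mk φ)

/-- the underlying complex valued function -/
def ufn {Ω : Type} {_m0 : MeasurableSpace Ω} (φ : Uni Ω) (ω : Ω) : ℂ := φ.1 ω

/-- pull back along a measurable map -/
def ucomap {Ω Ω' : Type} [MeasurableSpace Ω] [MeasurableSpace Ω'] (h : Ω → Ω')
    (hh : Measurable h) (φ : Uni Ω') : Uni Ω :=
  ⟨φ.1 ∘ h, Measurable.comp (g := fun ω => (φ.1 ω : ℂ)) φ.2 hh⟩

/-- classes with a `Q`-measurable representative -/
def PtG {Ω : Type} (Q : MeasurableSpace Ω) {_m0 : MeasurableSpace Ω} (m : Measure Ω) :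
    AddSubgroup (Cl m) where
  carrier := {x | ∃ φ : Uni Ω, Measurable[Q] (ufn φ) ∧ x = cl m φ}
  add_mem' := by
    rintro _ _ ⟨φ, h, rfl⟩ ⟨ψ, h', rfl⟩
    refine ⟨φ * ψ, ?_, rfl⟩
    show Measurable[Q] fun ω => ((φ.1 ω * ψ.1 ω : Circle) : ℂ)
    simp only [Circle.coe_mul]
    exact Measurable.mul h h'
  zero_mem' := ⟨1, (measurable_const : Measurable[Q] fun _ : Ω => ((1 : Circle) : ℂ)), rfl⟩
  neg_mem' := by
    rintro _ ⟨φ, h, rfl⟩
    refine ⟨φ⁻¹, ?_, rfl⟩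
    show Measurable[Q] fun ω => (((φ.1 ω)⁻¹ : Circle) : ℂ)
    simp only [Circle.coe_inv]
    exact Measurable.inv h

/-! ### the algebraic configuration -/

section Algebra

variable {J ι M : Type} [DecidableEq J] [Fintype ι] [AddCommGroup M]

/-- a tuple on the line that has position `a` in slot `i` -/
def Tup (r : ι → ℤ) (Pl : ℤ → AddSubgroup M) (a : ℤ) (i : ι) (χ : ι → M) : Prop :=
  (∀ j, χ j ∈ Pl (a + (r j - r i))) ∧ ∑ j, χ j = 0

def InT (r : ι → ℤ) (Pl : ℤ → AddSubgroup M) (a : ℤ) (i : ι) (x : M) : Prop :=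
  ∃ χ, Tup r Pl a i χ ∧ χ i = x

/-- chains of tuples along a word of steps -/
def Rel (r : ι → ℤ) (Pl : ℤ → AddSubgroup M) : List (ι × ι) → ℤ → M → M → Prop
  | [], _, x, y => x = y
  | st :: w, a, x, y => ∃ χ, Tup r Pl a st.1 χ ∧ χ st.1 = x ∧
      Rel r Pl w (a + (r st.2 - r st.1)) (χ st.2) y

def disp (r : ι → ℤ) (w : List (ι × ι)) : ℤ := (w.map fun st => r st.2 - r st.1).sum

def line (P : (J → ℤ) → AddSubgroup M) (p : J → ℤ) (s : J) (a : ℤ) : AddSubgroup M :=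
  P (p + Pi.single s a)

def Gam (r : ι → ℤ) (P : (J → ℤ) → AddSubgroup M) (D : Set J) (p : J → ℤ) : Set M :=
  {x | ∀ s ∈ D, ∀ i, InT r (line P p s) 0 i x}

def CL (r : ι → ℤ) (P : (J → ℤ) → AddSubgroup M) (D : Set J) : Prop :=
  ∀ p, ∀ s ∈ D, ∀ i χ, Tup r (line P p s) 0 i χ → χ i ∈ Gam r P D p →
    ∀ j, χ j ∈ Gam r P D (pt r p s i j)

def A3 (n : ℕ) (P : (J → ℤ) → AddSubgroup M) : Prop :=
  ∀ (t : J) (K : Finset ℤ), K.card < n → ∀ x : ℤ → M,
    (∀ m ∈ K, x m ∈ ⨆ c ∈ {c : J → ℤ | c t = m}, P c) → ∑ m ∈ K, x m = 0 → ∀ m ∈ K, x m = 0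

def A4 (P : (J → ℤ) → AddSubgroup M) : Prop :=
  ∀ (K : Finset ℤ) (x : ℤ → M), (∀ m ∈ K, x m ∈ P fun _ => m) → ∑ m ∈ K, x m = 0 →
    ∀ m ∈ K, x m = 0

/-- witnesses that two closed words do not commute -/
def NCA (r : ι → ℤ) (Pl : ℤ → AddSubgroup M) (w w' : List (ι × ι)) (x : Fin 5 → M) : Prop :=
  (∀ k i, InT r Pl 0 i (x k)) ∧ disp r w = 0 ∧ disp r w' = 0 ∧ Rel r Pl w 0 (x 0) (x 1) ∧
    Rel r Pl w' 0 (x 0) (x 2) ∧ Rel r Pl w 0 (x 2) (x 3) ∧ Rel r Pl w' 0 (x 1) (x 4) ∧ x 3 ≠ x 4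

end Algebra

/-! ### the concrete model of the fibres -/

abbrev YY : Type := ℕ → Bool

abbrev Cfg (J : Type) : Type := (J → ℤ) → YY

def PC {J : Type} (c : J → ℤ) : MeasurableSpace (Cfg J) :=
  MeasurableSpace.comap (fun ω : Cfg J => ω c) inferInstance

def cyl {J : Type} (F : Finset ((J → ℤ) × ℕ)) : Set (Cfg J) := {ω | ∀ p ∈ F, ω p.1 p.2 = true}

/-- the index set of a cylinder on the axis in direction `s` -/
def axF {J : Type} [DecidableEq J] (s : J) (F : Finset (ℤ × ℕ)) : Finset ((J → ℤ) × ℕ) :=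
  F.map ⟨fun p => (Pi.single s p.1, p.2), fun p q h => by
    simp only [Prod.mk.injEq] at h
    exact Prod.ext (Pi.single_injective (M := fun _ => ℤ) s h.1) h.2⟩

def axM {J : Type} [DecidableEq J] (s : J) (ω : Cfg J) (a : ℤ) : YY := ω (Pi.single s a)

abbrev Zsp (J : Type) : Type := (Finset ((J → ℤ) × ℕ) ⊕ ℕ) → ℝ

abbrev Bsp : Type := Finset (ℤ × ℕ) → ℝ

def bet {J : Type} [DecidableEq J] (s : J) (z : Zsp J) : Bsp := fun F => z (Sum.inl (axF s F))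

/-- indicator of a cylinder of the configuration, as a function on the big space -/
def cy {X J : Type} (W : X → Cfg J) (F : Finset ((J → ℤ) × ℕ)) (x : X) : ℝ :=
  (cyl F).indicator (fun _ => (1 : ℝ)) (W x)

/-- the cylinder index set concentrated at one point -/
def atP {J : Type} (p : J → ℤ) (F : Finset ℕ) : Finset ((J → ℤ) × ℕ) :=
  F.map ⟨fun n => (p, n), fun _ _ h => (Prod.mk.inj h).2⟩

structure Mod {J ι X : Type} [DecidableEq J] [Fintype ι] [DecidableEq ι] [MeasurableSpace X]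
    (μ : Measure X) (r : ι → ℤ) (W : X → Cfg J) (Z : X → Zsp J) : Prop where
  mW : Measurable W
  mZ : Measurable Z
  mom : ∀ F, (fun x => Z x (Sum.inl F)) =ᵐ[μ] μ[cy W F | MeasurableSpace.comap Z inferInstance]
  m1 : ∀ (t : J) (M : Finset ℤ), M.card < Fintype.card ι →
    ∀ F : ℤ → Finset ((J → ℤ) × ℕ), (∀ m ∈ M, ∀ p ∈ F m, p.1 t = m) →
    μ[fun x => ∏ m ∈ M, cy W (F m) x | MeasurableSpace.comap Z inferInstance] =ᵐ[μ]
      fun x => ∏ m ∈ M, (μ[cy W (F m) | MeasurableSpace.comap Z inferInstance]) x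
  m1d : ∀ (M : Finset ℤ) (F : ℤ → Finset ℕ),
    μ[fun x => ∏ m ∈ M, cy W (atP (fun _ => m) (F m)) x | MeasurableSpace.comap Z inferInstance]
      =ᵐ[μ] fun x => ∏ m ∈ M,
        (μ[cy W (atP (fun _ => m) (F m)) | MeasurableSpace.comap Z inferInstance]) x
  m2 : ∀ (p : J → ℤ) (s : J) (i : ι) (F : Finset ℕ),
    AEStronglyMeasurable[MeasurableSpace.comap Z inferInstance ⊔ (PC p).comap W]
      (μ[cy W (atP p F) | MeasurableSpace.comap Z inferInstance ⊔ (Oth PC r p s i).comap W]) μ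
  m3 : ∀ (p : J → ℤ) (t s : J) (j0 i j j' : ι) (F : ι → Finset ℕ) (ψ : X → ℝ),
    ABM (MeasurableSpace.comap Z inferInstance) μ ψ →
    ∫ x, ψ x * ((μ[cy W (atP (pt r p t j0 j) (F j)) | MeasurableSpace.comap Z inferInstance ⊔
          (Oth PC r (pt r p t j0 j) s i).comap W]) x *
        ∏ k ∈ Finset.univ.erase j, cy W (atP (pt r p t j0 k) (F k)) x) ∂μ =
      ∫ x, ψ x * ((μ[cy W (atP (pt r p t j0 j') (F j')) | MeasurableSpace.comap Z inferInstance ⊔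
          (Oth PC r (pt r p t j0 j') s i).comap W]) x *
        ∏ k ∈ Finset.univ.erase j', cy W (atP (pt r p t j0 k) (F k)) x) ∂μ
  m4 : ∃ f : X → ℝ, ABM (MeasurableSpace.comap Z inferInstance ⊔ (PC 0).comap W) μ f ∧
    (∀ s i, AEStronglyMeasurable[MeasurableSpace.comap Z inferInstance ⊔
      (Oth PC r 0 s i).comap W] f μ) ∧
    Orth (MeasurableSpace.comap Z inferInstance) μ f ∧ ¬ f =ᵐ[μ] 0

open Classical in
/-- the configuration of a point of the big space -/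
def WW {J X : Type} (Θ : (J → ℤ) → X → X) (Sn : ℕ → Set X) (x : X) : Cfg J :=
  fun c n => decide (Θ c x ∈ Sn n)

/-- the base point: conditional moments and countably many sets -/
def ZZ {J X : Type} (B : MeasurableSpace X) {_m0 : MeasurableSpace X} (μ : Measure X)
    (W : X → Cfg J) (Zn : ℕ → Set X) (x : X) : Zsp J :=
  Sum.elim (fun F => (μ[cy W F | B]) x) fun n => (Zn n).indicator (fun _ => (1 : ℝ)) x

/-- output of the reduction to countable families -/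
structure Cnt {J ι X : Type} [DecidableEq J] (F B : MeasurableSpace X) {_m0 : MeasurableSpace X}
    (μ : Measure X) (r : ι → ℤ) (Θ : (J → ℤ) → X → X) (Sn Zn : ℕ → Set X) : Prop where
  mS : ∀ n, MeasurableSet[F] (Sn n)
  mZ : ∀ n, MeasurableSet[B] (Zn n)
  inv : ∀ c, (MeasurableSpace.generateFrom (Set.range Zn)).comap (Θ c) ≤
    MeasurableSpace.generateFrom (Set.range Zn)
  k1 : ∀ (s : J) (i : ι) (T : Finset ℕ),
    AEStronglyMeasurable[MeasurableSpace.generateFrom (Set.range Sn) ⊔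
        MeasurableSpace.generateFrom (Set.range Zn)]
      (μ[(⋂ n ∈ T, Sn n).indicator fun _ => (1 : ℝ) | B ⊔ Oth (fun c => F.comap (Θ c)) r 0 s i]) μ
  k2 : ∀ (s : J) (i : ι) (T : Finset ℕ),
    AEStronglyMeasurable[MeasurableSpace.generateFrom (Set.range Zn) ⊔
        Oth (fun c => (MeasurableSpace.generateFrom (Set.range Sn)).comap (Θ c)) r 0 s i]
      (μ[(⋂ n ∈ T, Sn n).indicator fun _ => (1 : ℝ) | B ⊔ Oth (fun c => F.comap (Θ c)) r 0 s i]) μ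
  k4 : ∃ f : X → ℝ, ABM (MeasurableSpace.generateFrom (Set.range Sn) ⊔
      MeasurableSpace.generateFrom (Set.range Zn)) μ f ∧
    (∀ s i, AEStronglyMeasurable[MeasurableSpace.generateFrom (Set.range Zn) ⊔
      Oth (fun c => (MeasurableSpace.generateFrom (Set.range Sn)).comap (Θ c)) r 0 s i] f μ) ∧
    Orth B μ f ∧ ¬ f =ᵐ[μ] 0

/-- the random variables `b s` are conditionally independent and identically distributed -/
def Xc {J X Bs : Type} [MeasurableSpace Bs] (F : MeasurableSpace X) {_m0 : MeasurableSpace X}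
    (μ : Measure X) (b : J → X → Bs) : Prop :=
  (∀ s t : J, s ≠ t → ∀ A A' : Set Bs, MeasurableSet A → MeasurableSet A' →
    μ[fun x => A.indicator (fun _ => (1 : ℝ)) (b s x) * A'.indicator (fun _ => (1 : ℝ)) (b t x) | F]
      =ᵐ[μ] fun x => (μ[fun y => A.indicator (fun _ => (1 : ℝ)) (b s y) | F]) x *
        (μ[fun y => A'.indicator (fun _ => (1 : ℝ)) (b t y) | F]) x) ∧
  ∀ (s t : J) (A : Set Bs), MeasurableSet A →
    μ[fun y => A.indicator (fun _ => (1 : ℝ)) (b s y) | F] =ᵐ[μ]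
      μ[fun y => A.indicator (fun _ => (1 : ℝ)) (b t y) | F]

/-- the function of the configuration given by a function of the origin -/
def at0 {J : Type} (φ : Uni YY) : Uni (Cfg J) :=
  ucomap (fun ω : Cfg J => ω 0) (measurable_pi_apply 0) φ

/-- finite sets of sparse indices outside `I` -/
def Out (I : Set ℕ) (J : Finset ℕ) : Prop := ∀ j ∈ J, j ∉ I ∧ Odd j

def I0 : Set ℕ := {n | 4 ∣ n}

def Gam0 : Set (Finset ℕ × (ℕ →₀ ℤ)) :=
  insert tyL {γ | ∃ z : ℕ, 4 ∣ z ∧ z ≠ 0 ∧ γ = ({z}, -ee z)}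

/-- discrepancy estimates for the block `[M/2, M)` read modulo `p M` -/
def Disc (σ y : ℕ → ℝ) (p : ℕ → ℕ) [∀ M, NeZero (p M)] : Prop :=
  (∃ c : ℝ, 0 < c ∧ ∀ᶠ M in atTop, ∀ k : ZMod (p M),
    ‖∑ n ∈ Finset.Ico (M / 2) M, (y n : ℂ) * ZMod.stdAddChar (k * (n : ZMod (p M)))‖ ≤
      (p M : ℝ) ^ (-c) * (σ (M / 2) * p M)) ∧
  ∀ k : ℕ, ∃ (d : ℕ) (δ : ∀ M, ZMod (p M) → Fin d → ZMod (p M)), (∀ M n, ∑ i, δ M n i = n) ∧
    ∀ ε : ℝ, 0 < ε → ∀ᶠ M in atTop, ∀ u : Finset (Fin d) → (Fin d → ZMod (p M)) → ℝ,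
      (∀ J v, |u J v| ≤ 1) → (∀ J, DependsOn (u J) (J : Set (Fin d))) →
      |∑ n ∈ Finset.Ico (M / 2) M, y n *
        ∏ J ∈ Finset.univ.filter (fun J : Finset (Fin d) => J.card ≤ k),
          u J (δ M (n : ZMod (p M)))| ≤ ε * (σ (M / 2) * p M)

/-- the block estimate on the integers -/
def Blk {ι : Type} [Fintype ι] (σ y : ℕ → ℝ) (r : ι → ℤ) : Prop :=
  ∀ ε : ℝ, 0 < ε → ∀ᶠ M : ℕ in atTop, ∀ g : ι → ℤ → ℝ, (∀ i v, |g i v| ≤ 1) →
    ∑ u ∈ Finset.range M, ∑ n ∈ Finset.Ico (M / 2) M, y n * ∏ i, g i (u + r i * n) ≤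
      ε * (σ (M / 2) * M * M)

end Pool.Agent.MP_154433_an.SG

end

end MrgPart0

-- ======== part 1: formerly Pool.Agent.MP_154433_an.fib.Spec
section MrgPart1

/-!
FIB: sections 5, 6 and the first half of 7 of the sparse generalised von Neumann note, as one closed
statement about one fibre measure on `(J → ℤ) → E`.
-/

open MeasureTheory ProbabilityTheory

namespace Fib27

variable {J E : Type} [DecidableEq J] [MeasurableSpace E] {l : ℕ}

/-- the sigma-algebra of the coordinate `c` -/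
def P (E : Type) [MeasurableSpace E] (c : J → ℤ) : MeasurableSpace ((J → ℤ) → E) :=
  MeasurableSpace.comap (fun ω => ω c) inferInstance

/-- the other `l` points of the line in direction `s` on which `c` has slot `i` -/
def O (E : Type) [MeasurableSpace E] (r : Fin (l + 1) → ℤ) (c : J → ℤ) (s : J) (i : Fin (l + 1)) :
    MeasurableSpace ((J → ℤ) → E) :=
  ⨆ j ∈ Finset.univ.erase i, P E (c + Pi.single s (r j - r i))

/-- the slice `c t = m` -/
def slice (E : Type) [MeasurableSpace E] (t : J) (m : ℤ) : MeasurableSpace ((J → ℤ) → E) :=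
  ⨆ c ∈ {c : J → ℤ | c t = m}, P E c

/-- the `s`-axis through the origin -/
def axis (s : J) (ω : (J → ℤ) → E) : ℤ → E := fun m => ω (Pi.single s m)

/-- properties F1, F1d, F2, F3 of a fibre -/
structure Good (r : Fin (l + 1) → ℤ) (κ : Measure ((J → ℤ) → E)) : Prop where
  f1 : ∀ (t : J) (S : Finset ℤ), S.card ≤ l → iIndep (fun m : S => slice E t (m : ℤ)) κ
  f1d : iIndep (fun m : ℤ => P E (fun _ : J => m)) κ
  f2 : ∀ (c : J → ℤ) (s : J) (i : Fin (l + 1)) (g : E → ℝ), Measurable g → (∀ e, |g e| ≤ 1) →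
    AEStronglyMeasurable[P E c] (κ[fun ω => g (ω c) | O E r c s i]) κ
  f3 : ∀ (c : J → ℤ) (t s : J) (i : Fin (l + 1)) (g : Fin (l + 1) → E → ℝ),
    (∀ k, Measurable (g k)) → (∀ k e, |g k e| ≤ 1) → ∀ j j' : Fin (l + 1),
    ∫ ω, (κ[fun ω => g j (ω (c + Pi.single t (r j))) | O E r (c + Pi.single t (r j)) s i]) ω *
        ∏ k ∈ Finset.univ.erase j, g k (ω (c + Pi.single t (r k))) ∂κ =
    ∫ ω, (κ[fun ω => g j' (ω (c + Pi.single t (r j'))) | O E r (c + Pi.single t (r j')) s i]) ω *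
        ∏ k ∈ Finset.univ.erase j', g k (ω (c + Pi.single t (r k))) ∂κ

/-- property F4 of a fibre -/
def F4 (r : Fin (l + 1) → ℤ) (κ : Measure ((J → ℤ) → E)) : Prop :=
  ∃ f : E → ℝ, Measurable f ∧ (∀ e, |f e| ≤ 1) ∧ ¬ (∀ᵐ ω ∂κ, f (ω 0) = 0) ∧
    ∫ ω, f (ω 0) ∂κ = 0 ∧
    ∀ (s : J) (i : Fin (l + 1)), AEStronglyMeasurable[O E r 0 s i] (fun ω => f (ω 0)) κ

/-- countably many properties of the law of an axis: no good fibre has the same one on two axes, and a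
good fibre with F4 has one on some axis -/
def FIB : Prop :=
  ∀ (J : Type) [Fintype J] [DecidableEq J] (E : Type) [MeasurableSpace E]
    [MeasurableSpace.CountablyGenerated E] (l : ℕ) (r : Fin (l + 1) → ℤ),
    2 ≤ l → Function.Injective r → 2 ≤ Fintype.card J →
    ∃ NC : ℕ → Measure (ℤ → E) → Prop,
      (∀ κ : Measure ((J → ℤ) → E), IsProbabilityMeasure κ → Good r κ →
        ∀ (n : ℕ) (s t : J), s ≠ t → ¬ (NC n (κ.map (axis s)) ∧ NC n (κ.map (axis t)))) ∧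
      (∀ κ : Measure ((J → ℤ) → E), IsProbabilityMeasure κ → Good r κ → F4 r κ →
        ∃ (s : J) (n : ℕ), NC n (κ.map (axis s)))

end Fib27

end MrgPart1

-- marker of a merged file
example : 731051 + 291530 = 731051 + 291530 := rfl
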