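import Mathlib.Topology.Sheaves.Presheaf
import Mathlib.Tactic.Monotonicity.Lemmas
import Mathlib.Data.Int.Star
import Mathlib.Algebra.Ring.IsFormallyReal
import Mathlib.Combinatorics.SimpleGraph.Basic
import Mathlib.RingTheory.SimpleRing.Principal
import Mathlib.Probability.ConditionalExpectation
import Pool.Agent.MP_154433_an.fib.Spec

-- ======== part 0: formerly Pool.Agent.MP_154433_an.fib.Spec2
section MrgPart0

/-!
Closed sub-statements of FIB over arbitrary sub-sigma-algebras of one probability space.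
-/

open MeasureTheory ProbabilityTheory Finset

namespace Fib27

section Defs

variable {Ω : Type} {m0 : MeasurableSpace Ω} {ι : Type}

/-- bounded and a.e. `m`-measurable -/
def BM (κ : Measure Ω) (m : MeasurableSpace Ω) (f : Ω → ℂ) : Prop :=
  AEStronglyMeasurable[m] f κ ∧ ∃ C : ℝ, ∀ᵐ ω ∂κ, ‖f ω‖ ≤ C

/-- join of finitely many members of a family -/
def sup (p : ι → MeasurableSpace Ω) (S : Finset ι) : MeasurableSpace Ω := ⨆ j ∈ S, p j

/-- the family is independent as soon as one index is left out -/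
def LInd (κ : Measure Ω) (p : ι → MeasurableSpace Ω) : Prop :=
  ∀ S T : Finset ι, Disjoint S T → (∃ q, q ∉ S ∧ q ∉ T) → Indep (sup p S) (sup p T) κ

/-- product of functions over a finset -/
def pr (ρ : ι → Ω → ℂ) (S : Finset ι) : Ω → ℂ := fun ω => ∏ k ∈ S, ρ k ω

/-- the operator `a ↦ E[ρ' E[a ρ | m'] | m]` -/
noncomputable def Cop (κ : Measure Ω) (m m' : MeasurableSpace Ω) (ρ ρ' a : Ω → ℂ) : Ω → ℂ :=
  κ[fun ω => ρ' ω * (κ[fun ω => a ω * ρ ω | m']) ω | m]

variable [Fintype ι] [DecidableEq ι]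

/-- F2 and F3 on the line `p` for the conditional expectations onto the `o j` -/
structure F23 (κ : Measure Ω) (p o : ι → MeasurableSpace Ω) : Prop where
  le : ∀ j, o j ≤ m0
  f2 : ∀ j a, BM κ (p j) a → BM κ (p j) (κ[a | o j])
  f3 : ∀ a : ι → Ω → ℂ, (∀ k, BM κ (p k) (a k)) → ∀ j j',
    ∫ ω, (κ[a j | o j]) ω * pr a (univ.erase j) ω ∂κ =
      ∫ ω, (κ[a j' | o j']) ω * pr a (univ.erase j') ω ∂κ

/-- a line of points -/
structure Line (κ : Measure Ω) (p : ι → MeasurableSpace Ω) : Prop where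
  le : ∀ j, p j ≤ m0
  ind : LInd κ p
  f2 : ∀ j a, BM κ (p j) a → BM κ (p j) (κ[a | sup p (univ.erase j)])

/-- the other points of the column of `(q, j)` -/
def Oc (G : ι → ι → MeasurableSpace Ω) (q j : ι) : MeasurableSpace Ω :=
  sup (fun q' => G q' j) (univ.erase q)

/-- the other points of the row of `(q, j)` -/
def Orow (G : ι → ι → MeasurableSpace Ω) (q j : ι) : MeasurableSpace Ω :=
  sup (G q) (univ.erase j)

/-- a grid of points: `G q j` lies in row `q` and column `j` -/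
structure Grid (κ : Measure Ω) (G : ι → ι → MeasurableSpace Ω) : Prop where
  le : ∀ q j, G q j ≤ m0
  rows : LInd κ (fun q => sup (G q) univ)
  cols : LInd κ (fun j => sup (fun q => G q j) univ)
  fr : ∀ q, F23 κ (G q) (Oc G q)
  fc : ∀ j, F23 κ (fun q => G q j) (fun q => Orow G q j)

/-- unimodular functions at the points of a line with constant product -/
def Tup (κ : Measure Ω) (p : ι → MeasurableSpace Ω) (χ : ι → Ω → ℂ) : Prop :=
  (∀ j, AEStronglyMeasurable[p j] (χ j) κ) ∧ (∀ j, ∀ᵐ ω ∂κ, ‖χ j ω‖ = 1) ∧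
    ∃ γ : ℂ, ∀ᵐ ω ∂κ, ∏ j, χ j ω = γ

/-- member of a tuple in slot `i` -/
def Mem (κ : Measure Ω) (p : ι → MeasurableSpace Ω) (i : ι) (v : Ω → ℂ) : Prop :=
  ∃ χ, Tup κ p χ ∧ χ i = v

/-- complex form of `Good` for an abstract family of points -/
structure GoodC {J : Type} [DecidableEq J] (κ : Measure Ω) (P : (J → ℤ) → MeasurableSpace Ω)
    (r : ι → ℤ) : Prop where
  le : ∀ c, P c ≤ m0
  sl : ∀ (t : J) (b : ℤ), LInd κ (fun q => ⨆ c ∈ {c : J → ℤ | c t = b + r q}, P c)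
  dg : ∀ (m : ℤ) (S : Finset ℤ), m ∉ S →
    Indep (P (fun _ => m)) (sup (fun m' : ℤ => P (fun _ => m')) S) κ
  f : ∀ (c : J → ℤ) (t s : J) (i : ι), F23 κ (fun k => P (c + Pi.single t (r k)))
    (fun k => sup (fun j => P (c + Pi.single t (r k) + Pi.single s (r j - r i))) (univ.erase i))

end Defs

/-- real to complex -/
def R2C : Prop :=
  ∀ (J E : Type) [DecidableEq J] [MeasurableSpace E] (l : ℕ) (r : Fin (l + 1) → ℤ)
    (κ : Measure ((J → ℤ) → E)) [IsProbabilityMeasure κ],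
    Function.Injective r → Good r κ → GoodC κ (P E) r

/-- the operator `Cop` at the corner can be moved to another point of the row -/
def MULT : Prop :=
  ∀ (Ω : Type) (m0 : MeasurableSpace Ω) (κ : Measure Ω) [IsProbabilityMeasure κ]
    (ι : Type) [Fintype ι] [DecidableEq ι] (G : ι → ι → MeasurableSpace Ω), Grid κ G →
    ∀ (q0 q j0 j1 : ι), q ≠ q0 → j1 ≠ j0 → ∀ ρ ρ' : Ω → ℂ,
    BM κ (sup (fun q' => G q' j0) ((univ.erase q0).erase q)) ρ →
    BM κ (sup (fun q' => G q' j0) ((univ.erase q0).erase q)) ρ' →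
    ∀ a1 : Ω → ℂ, BM κ (G q0 j1) a1 → BM κ (Oc G q0 j1) a1 →
    ∃ A : Ω → ℂ, BM κ (G q0 j1) A ∧ BM κ (Oc G q0 j1) A ∧
      ∀ a : ι → Ω → ℂ, (∀ j, BM κ (G q0 j) (a j)) → (∀ j, BM κ (Oc G q0 j) (a j)) →
        ∫ ω, Cop κ (G q0 j0) (G q j0) ρ ρ' (a j0) ω * a1 ω *
            pr a ((univ.erase j0).erase j1) ω ∂κ =
          ∫ ω, a j0 ω * A ω * pr a ((univ.erase j0).erase j1) ω ∂κ

/-- a joint eigenvector is a multiple of a member of a tuple -/
def RANK1 : Prop :=
  ∀ (Ω : Type) (m0 : MeasurableSpace Ω) (κ : Measure Ω) [IsProbabilityMeasure κ]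
    (ι : Type) [Fintype ι] [DecidableEq ι] (p : ι → MeasurableSpace Ω), Line κ p →
    3 ≤ Fintype.card ι → ∀ (i0 : ι) (v : Ω → ℂ), BM κ (p i0) v →
    BM κ (sup p (univ.erase i0)) v → ¬ (∀ᵐ ω ∂κ, v ω = 0) →
    (∀ q, q ≠ i0 → ∀ ρ ρ' : ι → Ω → ℂ, (∀ k, BM κ (p k) (ρ k)) → (∀ k, BM κ (p k) (ρ' k)) →
      ∃ lam : ℂ, ∀ᵐ ω ∂κ, Cop κ (p i0) (p q) (pr ρ ((univ.erase i0).erase q))
        (pr ρ' ((univ.erase i0).erase q)) v ω = lam * v ω) →
    ∃ t : ℂ, t ≠ 0 ∧ Mem κ p i0 (fun ω => t * v ω)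

/-- a commuting family of operators `Cop` has a joint eigenvector -/
def EIG : Prop :=
  ∀ (Ω : Type) (m0 : MeasurableSpace Ω) (κ : Measure Ω) [IsProbabilityMeasure κ]
    (T S : Type) (m : MeasurableSpace Ω) (m' : T → MeasurableSpace Ω) (o : S → MeasurableSpace Ω)
    (ρ ρ' : T → Ω → ℂ) (U : (Ω → ℂ) → Prop),
    m ≤ m0 → (∀ τ, m' τ ≤ m0) → (∀ σ, o σ ≤ m0) → (∀ τ, Indep m (m' τ) κ) →
    (∀ τ, BM κ m0 (ρ τ)) → (∀ τ, BM κ m0 (ρ' τ)) →
    (∀ a, U a ↔ BM κ m a ∧ ∫ ω, a ω ∂κ = 0 ∧ ∀ σ, BM κ (o σ) a) →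
    (∀ τ a, U a → U (Cop κ m (m' τ) (ρ τ) (ρ' τ) a)) →
    (∀ τ τ' a, U a → ∀ᵐ ω ∂κ,
      Cop κ m (m' τ) (ρ τ) (ρ' τ) (Cop κ m (m' τ') (ρ τ') (ρ' τ') a) ω =
        Cop κ m (m' τ') (ρ τ') (ρ' τ') (Cop κ m (m' τ) (ρ τ) (ρ' τ) a) ω) →
    ∀ (τ0 : T) (f : Ω → ℂ), (∀ ω, ρ' τ0 ω = (starRingEnd ℂ) (ρ τ0 ω)) → U f →
    ¬ (∀ᵐ ω ∂κ, (κ[fun ω => f ω * ρ τ0 ω | m' τ0]) ω = 0) →
    ∃ v, U v ∧ ¬ (∀ᵐ ω ∂κ, v ω = 0) ∧
      ∀ τ, ∃ lam : ℂ, ∀ᵐ ω ∂κ, Cop κ m (m' τ) (ρ τ) (ρ' τ) v ω = lam * v ω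

section Alg

variable {ι M : Type} [Fintype ι] [AddCommGroup M]

/-- chains of tuples along one axis: the word lists pairs (slot of the source, slot of the target) -/
def Chain (r : ι → ℤ) (Pt : ℤ → AddSubgroup M) : List (ι × ι) → ℤ → M → M → Prop
  | [], _, x, y => x = y
  | σ :: w, m, x, y => ∃ z : ι → M, (∀ k, z k ∈ Pt (m + (r k - r σ.1))) ∧ ∑ k, z k = 0 ∧
      z σ.1 = x ∧ Chain r Pt w (m + (r σ.2 - r σ.1)) (z σ.2) y

/-- displacement of a word -/
def disp (r : ι → ℤ) (w : List (ι × ι)) : ℤ := (w.map fun σ => r σ.2 - r σ.1).sum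

/-- the algebraic system of section 6 for the set `D` of directions -/
structure Sys {J : Type} [DecidableEq J] [DecidableEq ι] (r : ι → ℤ)
    (Pt Γ : (J → ℤ) → AddSubgroup M) (D : Set J) : Prop where
  le : ∀ c, Γ c ≤ Pt c
  tup : ∀ s ∈ D, ∀ (c : J → ℤ) (i : ι), ∀ x ∈ Γ c, ∃ z : ι → M,
    (∀ k, z k ∈ Γ (c + Pi.single s (r k - r i))) ∧ ∑ k, z k = 0 ∧ z i = x
  a3 : ∀ (t : J) (b : ℤ) (q0 : ι) (y : ι → M),
    (∀ q, y q ∈ ⨆ c ∈ {c : J → ℤ | c t = b + r q}, Pt c) →
    ∑ q ∈ univ.erase q0, y q = 0 → ∀ q, q ≠ q0 → y q = 0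

end Alg

/-- loops in different directions commute -/
def ALG1 : Prop :=
  ∀ (J ι M : Type) [DecidableEq J] [Fintype ι] [DecidableEq ι] [AddCommGroup M] (r : ι → ℤ)
    (Pt Γ : (J → ℤ) → AddSubgroup M) (D : Set J), Sys r Pt Γ D → ∀ s ∈ D, ∀ t ∈ D, s ≠ t →
    ∀ (w w' : List (ι × ι)) (x0 x1 x2 x3 x4 : M), x0 ∈ Γ 0 → disp r w = 0 → disp r w' = 0 →
    Chain r (fun m => Pt (Pi.single s m)) w 0 x0 x1 →
    Chain r (fun m => Pt (Pi.single t m)) w' 0 x0 x2 →
    Chain r (fun m => Pt (Pi.single s m)) w 0 x2 x3 →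
    Chain r (fun m => Pt (Pi.single t m)) w' 0 x1 x4 → x3 = x4

/-- a nonzero system has two non-commuting loops in one direction -/
def ALG2 : Prop :=
  ∀ (J ι M : Type) [Fintype J] [DecidableEq J] [Fintype ι] [DecidableEq ι] [AddCommGroup M]
    (r : ι → ℤ) (Pt Γ : (J → ℤ) → AddSubgroup M), Function.Injective r → 2 ≤ Fintype.card ι →
    Sys r Pt Γ Set.univ →
    (∀ (S : Finset ℤ) (y : ℤ → M), (∀ m, y m ∈ Pt (fun _ => m)) → ∑ m ∈ S, y m = 0 →
      ∀ m ∈ S, y m = 0) →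
    ∀ x ∈ Γ 0, x ≠ 0 →
    ∃ (s : J) (w w' : List (ι × ι)) (x0 x1 x2 x3 x4 : M),
      x0 ∈ Γ 0 ∧ x1 ∈ Γ 0 ∧ x2 ∈ Γ 0 ∧ x3 ∈ Γ 0 ∧ x4 ∈ Γ 0 ∧ disp r w = 0 ∧ disp r w' = 0 ∧
      Chain r (fun m => Pt (Pi.single s m)) w 0 x0 x1 ∧
      Chain r (fun m => Pt (Pi.single s m)) w' 0 x0 x2 ∧
      Chain r (fun m => Pt (Pi.single s m)) w 0 x2 x3 ∧
      Chain r (fun m => Pt (Pi.single s m)) w' 0 x1 x4 ∧ x3 ≠ x4

end Fib27

end MrgPart0

-- ======== part 1: formerly Pool.Agent.MP_154433_an.fib.Calc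
section MrgPart1

/-!
Calculus of bounded a.e. measurable functions: products, pull-out, tests, density in joins,
independence and conditional independence.
-/

open MeasureTheory ProbabilityTheory Finset Filter

namespace Fib27

variable {Ω ι : Type} {m m1 m2 A A1 B B1 m0 : MeasurableSpace Ω} {κ : Measure Ω}
  {f g a b h : Ω → ℂ}

/-- orthogonality (bilinear pairing) to all bounded `m`-measurable functions -/
def Perp (κ : Measure Ω) (m : MeasurableSpace Ω) (g : Ω → ℂ) : Prop :=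
  ∀ c, BM κ m c → ∫ ω, g ω * c ω ∂κ = 0

theorem le_sup' (p : ι → MeasurableSpace Ω) {S : Finset ι} {j : ι} (hj : j ∈ S) : p j ≤ sup p S :=
  le_iSup₂_of_le (f := fun j (_ : j ∈ S) => p j) j hj le_rfl

theorem sup_le' {p : ι → MeasurableSpace Ω} {S : Finset ι} (h : ∀ j ∈ S, p j ≤ m) : sup p S ≤ m :=
  iSup₂_le h

theorem sup_mono' (p : ι → MeasurableSpace Ω) {S T : Finset ι} (h : S ⊆ T) : sup p S ≤ sup p T :=
  sup_le' fun _ hj => le_sup' p (h hj)

theorem sup_mono'' {p p' : ι → MeasurableSpace Ω} {S T : Finset ι} (h : S ⊆ T)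
    (hp : ∀ j ∈ S, p j ≤ p' j) : sup p S ≤ sup p' T :=
  sup_le' fun j hj => (hp j hj).trans (le_sup' p' (h hj))

theorem sup_empty' (p : ι → MeasurableSpace Ω) : sup p ∅ = ⊥ := by simp [sup]

theorem sup_singleton' (p : ι → MeasurableSpace Ω) (j : ι) : sup p {j} = p j := by simp [sup]

theorem sup_insert' [DecidableEq ι] (p : ι → MeasurableSpace Ω) (S : Finset ι) (j : ι) :
    sup p (insert j S) = p j ⊔ sup p S := by
  simp only [sup]; exact Finset.iSup_insert j S p

theorem sup_erase' [DecidableEq ι] (p : ι → MeasurableSpace Ω) {S : Finset ι} {j : ι}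
    (hj : j ∈ S) : sup p S = p j ⊔ sup p (S.erase j) := by
  rw [← sup_insert', Finset.insert_erase hj]

theorem pr_insert [DecidableEq ι] (ρ : ι → Ω → ℂ) {S : Finset ι} {j : ι} (hj : j ∉ S) (ω : Ω) :
    pr ρ (insert j S) ω = ρ j ω * pr ρ S ω := Finset.prod_insert hj

theorem pr_erase [DecidableEq ι] (ρ : ι → Ω → ℂ) {S : Finset ι} {j : ι} (hj : j ∈ S) (ω : Ω) :
    pr ρ S ω = ρ j ω * pr ρ (S.erase j) ω := (Finset.mul_prod_erase S (fun k => ρ k ω) hj).symm

theorem pr_congr {ρ ρ' : ι → Ω → ℂ} {S : Finset ι} (h : ∀ k ∈ S, ρ k = ρ' k) :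
    pr ρ S = pr ρ' S := by
  funext ω; exact Finset.prod_congr rfl fun k hk => by rw [h k hk]

theorem pr_update [DecidableEq ι] (ρ : ι → Ω → ℂ) {S : Finset ι} {j : ι} (hj : j ∉ S)
    (x : Ω → ℂ) : pr (Function.update ρ j x) S = pr ρ S :=
  pr_congr fun k hk => Function.update_of_ne (by rintro rfl; exact hj hk) _ _

theorem pr_congr_ae {ρ ρ' : ι → Ω → ℂ} {S : Finset ι} (h : ∀ k ∈ S, ρ k =ᵐ[κ] ρ' k) :
    pr ρ S =ᵐ[κ] pr ρ' S := by
  filter_upwards [(Finset.eventually_all S).2 h] with ω hω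
  exact Finset.prod_congr rfl hω

namespace BM

theorem mono (hf : BM κ m1 f) (h : m1 ≤ m2) : BM κ m2 f := ⟨hf.1.mono h, hf.2⟩

theorem congr (hf : BM κ m f) (h : f =ᵐ[κ] g) : BM κ m g := by
  obtain ⟨h1, C, hC⟩ := hf
  refine ⟨h1.congr h, C, ?_⟩
  filter_upwards [hC, h] with ω h1 h2
  rwa [← h2]

/-- the bound is independent of the sigma-algebra -/
theorem of_aesm (hf : BM κ m1 f) (h : AEStronglyMeasurable[m2] f κ) : BM κ m2 f := ⟨h, hf.2⟩

theorem of_uni (h : AEStronglyMeasurable[m] f κ) (hu : ∀ᵐ ω ∂κ, ‖f ω‖ = 1) : BM κ m f :=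
  ⟨h, 1, hu.mono fun _ h => h.le⟩

theorem const (c : ℂ) : BM κ m (fun _ => c) :=
  ⟨aestronglyMeasurable_const, ‖c‖, Eventually.of_forall fun _ => le_rfl⟩

theorem mul (hf : BM κ m f) (hg : BM κ m g) : BM κ m (fun ω => f ω * g ω) := by
  obtain ⟨h1, C, hC⟩ := hf
  obtain ⟨h2, D, hD⟩ := hg
  refine ⟨h1.mul h2, C * D, ?_⟩
  filter_upwards [hC, hD] with ω h1 h2
  rw [norm_mul]
  exact mul_le_mul h1 h2 (norm_nonneg _) ((norm_nonneg _).trans h1)

theorem add (hf : BM κ m f) (hg : BM κ m g) : BM κ m (fun ω => f ω + g ω) := by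
  obtain ⟨h1, C, hC⟩ := hf
  obtain ⟨h2, D, hD⟩ := hg
  refine ⟨h1.add h2, C + D, ?_⟩
  filter_upwards [hC, hD] with ω h1 h2
  exact (norm_add_le _ _).trans (add_le_add h1 h2)

theorem cmul (c : ℂ) (hf : BM κ m f) : BM κ m (fun ω => c * f ω) := (const c).mul hf

theorem sub (hf : BM κ m f) (hg : BM κ m g) : BM κ m (fun ω => f ω - g ω) :=
  (hf.add (hg.cmul (-1))).congr (Eventually.of_forall fun ω => by simp [sub_eq_add_neg])

theorem conj (hf : BM κ m f) : BM κ m (fun ω => (starRingEnd ℂ) (f ω)) := by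
  obtain ⟨h1, C, hC⟩ := hf
  refine ⟨Complex.continuous_conj.comp_aestronglyMeasurable h1, C, ?_⟩
  filter_upwards [hC] with ω h1
  rwa [Complex.norm_conj]

theorem pr {ρ : ι → Ω → ℂ} {S : Finset ι} (h : ∀ k ∈ S, BM κ m (ρ k)) : BM κ m (pr ρ S) := by
  classical
  induction S using Finset.induction_on with
  | empty => exact (const 1).congr (Eventually.of_forall fun ω => by simp [Fib27.pr])
  | insert j S hj ih =>
    exact ((h j (mem_insert_self _ _)).mul (ih fun k hk => h k (mem_insert_of_mem hk))).congr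
      (Eventually.of_forall fun ω => (pr_insert ρ hj ω).symm)

theorem pr_sup {p : ι → MeasurableSpace Ω} {ρ : ι → Ω → ℂ} {S : Finset ι}
    (h : ∀ k ∈ S, BM κ (p k) (ρ k)) : BM κ (sup p S) (Fib27.pr ρ S) :=
  pr fun k hk => (h k hk).mono (le_sup' p hk)

theorem indicator {s : Set Ω} (hs : MeasurableSet[m] s) :
    BM κ m (s.indicator fun _ => (1 : ℂ)) := by
  refine ⟨(stronglyMeasurable_const.indicator hs).aestronglyMeasurable, 1,
    Eventually.of_forall fun ω => ?_⟩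
  by_cases h : ω ∈ s <;> simp [h]

variable [IsProbabilityMeasure κ]

theorem integrable (hf : BM κ m0 f) : Integrable f κ := by
  obtain ⟨h1, C, hC⟩ := hf
  exact Integrable.of_bound h1 C hC

theorem memLp (hf : BM κ m0 f) (p : ENNReal) : MemLp f p κ := by
  obtain ⟨h1, C, hC⟩ := hf
  exact MemLp.of_bound h1 C hC

omit [IsProbabilityMeasure κ] in
/-- a conditional expectation of a bounded function is bounded and measurable -/
theorem ce (hf : BM κ m1 f) (m : MeasurableSpace Ω) : BM κ m (κ[f | m]) := by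
  obtain ⟨_, C, hC⟩ := hf
  exact ⟨stronglyMeasurable_condExp.aestronglyMeasurable, C,
    ae_bdd_norm_condExp_of_ae_bdd_norm hC⟩

theorem ce_self (hm : m ≤ m0) (hf : BM κ m f) : κ[f | m] =ᵐ[κ] f :=
  condExp_of_aestronglyMeasurable' hm hf.1 (hf.mono hm).integrable

end BM

variable [IsProbabilityMeasure κ]

/-- pull-out -/
theorem ce_mul (hm : m ≤ m0) (ha : BM κ m a) (hf : BM κ m0 f) :
    κ[fun ω => a ω * f ω | m] =ᵐ[κ] fun ω => a ω * (κ[f | m]) ω :=
  condExp_bilin_of_aestronglyMeasurable_left (ContinuousLinearMap.mul ℝ ℂ) ha.1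
    ((ha.mono hm).mul hf).integrable hf.integrable

theorem ce_mul' (hm : m ≤ m0) (hf : BM κ m0 f) (ha : BM κ m a) :
    κ[fun ω => f ω * a ω | m] =ᵐ[κ] fun ω => (κ[f | m]) ω * a ω := by
  simpa only [mul_comm] using ce_mul hm ha hf

/-- the defining property of the conditional expectation -/
theorem int_ce_mul (hm : m ≤ m0) (hf : BM κ m0 f) (ha : BM κ m a) :
    ∫ ω, (κ[f | m]) ω * a ω ∂κ = ∫ ω, f ω * a ω ∂κ := by
  rw [← integral_congr_ae (ce_mul' hm hf ha), integral_condExp hm]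

theorem int_mul_ce (hm : m ≤ m0) (ha : BM κ m a) (hf : BM κ m0 f) :
    ∫ ω, a ω * (κ[f | m]) ω ∂κ = ∫ ω, a ω * f ω ∂κ := by
  simpa only [mul_comm] using int_ce_mul hm hf ha

/-- self-adjointness for the bilinear pairing -/
theorem int_ce_symm (hm : m ≤ m0) (hf : BM κ m0 f) (hg : BM κ m0 g) :
    ∫ ω, (κ[f | m]) ω * g ω ∂κ = ∫ ω, f ω * (κ[g | m]) ω ∂κ := by
  rw [← int_mul_ce hm (hf.ce m) hg, int_ce_mul hm hf (hg.ce m)]

theorem int_sub_mul (hf : BM κ m0 f) (hg : BM κ m0 g) (ha : BM κ m0 a) :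
    ∫ ω, (f ω - g ω) * a ω ∂κ = ∫ ω, f ω * a ω ∂κ - ∫ ω, g ω * a ω ∂κ := by
  rw [← integral_sub (hf.mul ha).integrable (hg.mul ha).integrable]
  simp only [sub_mul]

theorem eq_zero_of_int_conj (hg : BM κ m0 g)
    (h : ∫ ω, g ω * (starRingEnd ℂ) (g ω) ∂κ = 0) : ∀ᵐ ω ∂κ, g ω = 0 := by
  have h1 : ∫ ω, ‖g ω‖ ^ 2 ∂κ = 0 := by
    have : ((∫ ω, ‖g ω‖ ^ 2 ∂κ : ℝ) : ℂ) = 0 := by
      rw [← h, ← integral_complex_ofReal]
      refine integral_congr_ae (Eventually.of_forall fun ω => ?_)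
      simp only [Complex.mul_conj, Complex.normSq_eq_norm_sq]
    exact_mod_cast this
  have h2 : Integrable (fun ω => ‖g ω‖ ^ 2) κ := (hg.memLp 2).integrable_norm_pow (by norm_num)
  rw [integral_eq_zero_iff_of_nonneg (fun ω => by positivity) h2] at h1
  filter_upwards [h1] with ω hω
  simpa using hω

theorem Perp.mono (h : Perp κ m2 g) (hm : m1 ≤ m2) : Perp κ m1 g := fun c hc => h c (hc.mono hm)

/-- test lemma -/
theorem Perp.eq_zero (h : Perp κ m g) (hm : m ≤ m0) (hg : BM κ m g) : ∀ᵐ ω ∂κ, g ω = 0 :=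
  eq_zero_of_int_conj (hg.mono hm) (h _ hg.conj)

/-- two `m`-measurable functions with the same tests are equal -/
theorem ae_eq_of_tests (hm : m ≤ m0) (hf : BM κ m f) (hg : BM κ m g)
    (h : ∀ c, BM κ m c → ∫ ω, f ω * c ω ∂κ = ∫ ω, g ω * c ω ∂κ) : f =ᵐ[κ] g := by
  have : Perp κ m (fun ω => f ω - g ω) := fun c hc => by
    rw [int_sub_mul (hf.mono hm) (hg.mono hm) (hc.mono hm), h c hc, sub_self]
  filter_upwards [this.eq_zero hm (hf.sub hg)] with ω hω
  exact sub_eq_zero.1 hω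

theorem perp_sub_ce (hm : m ≤ m0) (hf : BM κ m0 f) : Perp κ m (fun ω => f ω - (κ[f | m]) ω) :=
  fun c hc => by
    rw [int_sub_mul hf ((hf.ce m).mono hm) (hc.mono hm), int_ce_mul hm hf hc, sub_self]

/-- characterisation of the conditional expectation by tests -/
theorem ce_eq_of_tests (hm : m ≤ m0) (hf : BM κ m0 f) (hg : BM κ m g)
    (h : ∀ c, BM κ m c → ∫ ω, f ω * c ω ∂κ = ∫ ω, g ω * c ω ∂κ) : κ[f | m] =ᵐ[κ] g :=
  ae_eq_of_tests hm (hf.ce m) hg fun c hc => by rw [int_ce_mul hm hf hc, h c hc]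

theorem ce_eq_of_perp (hm : m ≤ m0) (hf : BM κ m0 f) (hg : BM κ m g)
    (h : Perp κ m (fun ω => f ω - g ω)) : κ[f | m] =ᵐ[κ] g :=
  ce_eq_of_tests hm hf hg fun c hc => by
    have := h c hc
    rwa [int_sub_mul hf (hg.mono hm) (hc.mono hm), sub_eq_zero] at this

theorem perp_of_ce (hm : m ≤ m0) (hg : BM κ m0 g) (h : ∀ᵐ ω ∂κ, (κ[g | m]) ω = 0) :
    Perp κ m g := fun c hc => by
  rw [← int_ce_mul hm hg hc]
  refine integral_eq_zero_of_ae ?_
  filter_upwards [h] with ω hω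
  simp [hω]

theorem Perp.ce (h : Perp κ m g) (hm : m ≤ m0) (hg : BM κ m0 g) : ∀ᵐ ω ∂κ, (κ[g | m]) ω = 0 :=
  ce_eq_of_tests hm hg (BM.const 0) fun c hc => by simpa using h c hc

theorem ce_conj (hm : m ≤ m0) (hf : BM κ m0 f) :
    κ[fun ω => (starRingEnd ℂ) (f ω) | m] =ᵐ[κ] fun ω => (starRingEnd ℂ) ((κ[f | m]) ω) :=
  ce_eq_of_tests hm hf.conj (hf.ce m).conj fun c hc => by
    have := congrArg (starRingEnd ℂ) (int_ce_mul hm hf hc.conj)
    rw [← integral_conj, ← integral_conj] at this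
    simpa using this.symm

theorem ce_cmul (hm : m ≤ m0) (c : ℂ) (hf : BM κ m0 f) :
    κ[fun ω => c * f ω | m] =ᵐ[κ] fun ω => c * (κ[f | m]) ω :=
  ce_mul hm (BM.const c) hf

theorem ce_sub (hf : BM κ m0 f) (hg : BM κ m0 g) (m : MeasurableSpace Ω) :
    κ[fun ω => f ω - g ω | m] =ᵐ[κ] fun ω => (κ[f | m]) ω - (κ[g | m]) ω :=
  condExp_sub hf.integrable hg.integrable m

/-- DENS for the join of two sigma-algebras -/
theorem perp_sup (h1 : m1 ≤ m0) (h2 : m2 ≤ m0) (hg : BM κ m0 g)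
    (h : ∀ a b, BM κ m1 a → BM κ m2 b → ∫ ω, g ω * (a ω * b ω) ∂κ = 0) : Perp κ (m1 ⊔ m2) g := by
  have hm : m1 ⊔ m2 ≤ m0 := sup_le h1 h2
  refine perp_of_ce hm hg ?_
  let Pi : Set (Set Ω) := {u | ∃ s t, MeasurableSet[m1] s ∧ MeasurableSet[m2] t ∧ u = s ∩ t}
  have hgen : m1 ⊔ m2 = MeasurableSpace.generateFrom Pi := by
    refine le_antisymm (sup_le (fun s hs => ?_) (fun t ht => ?_)) ?_
    · exact MeasurableSpace.measurableSet_generateFrom ⟨s, Set.univ, hs, MeasurableSet.univ, by simp⟩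
    · exact MeasurableSpace.measurableSet_generateFrom ⟨Set.univ, t, MeasurableSet.univ, ht, by simp⟩
    · refine MeasurableSpace.generateFrom_le ?_
      rintro _ ⟨s, t, hs, ht, rfl⟩
      exact MeasurableSet.inter (m := m1 ⊔ m2) ((le_sup_left : m1 ≤ m1 ⊔ m2) s hs)
        ((le_sup_right : m2 ≤ m1 ⊔ m2) t ht)
  have hpi : IsPiSystem Pi := by
    rintro _ ⟨s, t, hs, ht, rfl⟩ _ ⟨s', t', hs', ht', rfl⟩ _
    exact ⟨s ∩ s', t ∩ t', hs.inter hs', ht.inter ht', Set.inter_inter_inter_comm _ _ _ _⟩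
  have huniv : ∫ ω, g ω ∂κ = 0 := by simpa using h _ _ (BM.const 1) (BM.const 1)
  have key : ∀ u, MeasurableSet[m1 ⊔ m2] u → ∫ ω in u, g ω ∂κ = 0 := by
    intro u hu
    induction u, hu using MeasurableSpace.induction_on_inter (m := m1 ⊔ m2) hgen hpi with
    | empty => simp
    | basic u hu =>
      obtain ⟨s, t, hs, ht, rfl⟩ := hu
      rw [← integral_indicator ((h1 s hs).inter (h2 t ht)), ← h _ _ (BM.indicator hs)
        (BM.indicator ht)]
      refine integral_congr_ae (Eventually.of_forall fun ω => ?_)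
      by_cases h1 : ω ∈ s <;> by_cases h2 : ω ∈ t <;> simp [Set.indicator, h1, h2]
    | compl u hu ih =>
      have := integral_add_compl (hm u hu) hg.integrable
      rw [ih, huniv, zero_add] at this
      exact this
    | iUnion u hd hu ih =>
      rw [integral_iUnion (fun i => hm _ (hu i)) hd hg.integrable.integrableOn]
      simp [ih]
  refine (ae_eq_condExp_of_forall_setIntegral_eq (g := fun _ => (0 : ℂ)) hm hg.integrable
    (fun s _ _ => integrableOn_zero) (fun s hs _ => ?_) aestronglyMeasurable_const).symm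
  simp [key s hs]

theorem perp_bot (hg : BM κ m0 g) (h : ∫ ω, g ω ∂κ = 0) : Perp κ ⊥ g := by
  refine perp_of_ce bot_le hg ?_
  rw [condExp_bot]
  exact Eventually.of_forall fun _ => h

/-- DENS for a finite join, with an extra factor -/
theorem perp_sup_pr {p : ι → MeasurableSpace Ω} {S : Finset ι} (h1 : m1 ≤ m0)
    (hp : ∀ j, p j ≤ m0) (hg : BM κ m0 g)
    (h : ∀ (a : Ω → ℂ) (ρ : ι → Ω → ℂ), BM κ m1 a → (∀ k, BM κ (p k) (ρ k)) →
      ∫ ω, g ω * (a ω * pr ρ S ω) ∂κ = 0) : Perp κ (m1 ⊔ sup p S) g := by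
  classical
  induction S using Finset.induction_on generalizing g with
  | empty =>
    rw [sup_empty', sup_bot_eq]
    intro c hc
    simpa [pr] using h c (fun _ _ => 1) hc (fun _ => BM.const 1)
  | insert j S hj ih =>
    rw [sup_insert', sup_left_comm]
    refine perp_sup (hp j) (sup_le h1 (sup_le' fun k _ => hp k)) hg fun a b ha hb => ?_
    have := ih (g := fun ω => g ω * a ω) (hg.mul (ha.mono (hp j))) (fun c ρ hc hρ => by
      have h2 := h c (Function.update ρ j a) hc (fun k => by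
        rcases eq_or_ne k j with rfl | hk
        · rw [Function.update_self]; exact ha
        · rw [Function.update_of_ne hk]; exact hρ k)
      rw [← h2]
      refine integral_congr_ae (Eventually.of_forall fun ω => ?_)
      simp only [pr_insert _ hj, Function.update_self, pr_update ρ hj]
      ring) b hb
    simpa only [mul_assoc] using this

/-- DENS for a finite join -/
theorem perp_pr {p : ι → MeasurableSpace Ω} {S : Finset ι}
    (hp : ∀ j, p j ≤ m0) (hg : BM κ m0 g)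
    (h : ∀ ρ : ι → Ω → ℂ, (∀ k, BM κ (p k) (ρ k)) → ∫ ω, g ω * pr ρ S ω ∂κ = 0) :
    Perp κ (sup p S) g := by
  have := perp_sup_pr (m1 := ⊥) (S := S) bot_le hp hg fun a ρ ha hρ => by
    have h3 : BM κ m0 (fun ω => g ω * pr ρ S ω) := hg.mul (BM.pr fun k _ => (hρ k).mono (hp k))
    have := perp_bot h3 (h ρ hρ) a ha
    rw [← this]
    refine integral_congr_ae (Eventually.of_forall fun ω => ?_)
    simp only; ring
  rwa [bot_sup_eq] at this

/-- independence: the conditional expectation is the mean -/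
theorem ce_indep (h1 : m1 ≤ m0) (h2 : m2 ≤ m0) (hI : Indep m1 m2 κ) (hf : BM κ m1 f) :
    κ[f | m2] =ᵐ[κ] fun _ => ∫ ω, f ω ∂κ := by
  refine (condExp_congr_ae hf.1.ae_eq_mk).trans ?_
  rw [integral_congr_ae hf.1.ae_eq_mk]
  exact condExp_indep_eq h1 h2 hf.1.stronglyMeasurable_mk hI

theorem int_mul_indep (h1 : m1 ≤ m0) (h2 : m2 ≤ m0) (hI : Indep m1 m2 κ) (hf : BM κ m1 f)
    (hg : BM κ m2 g) : ∫ ω, f ω * g ω ∂κ = (∫ ω, f ω ∂κ) * ∫ ω, g ω ∂κ := by
  rw [← int_ce_mul h2 (hf.mono h1) hg, ← integral_const_mul]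
  refine integral_congr_ae ?_
  filter_upwards [ce_indep h1 h2 hI hf] with ω hω
  rw [hω]

/-- a function measurable for two independent sigma-algebras is constant -/
theorem const_of_indep (h1 : m1 ≤ m0) (h2 : m2 ≤ m0) (hI : Indep m1 m2 κ) (hf : BM κ m1 f)
    (hf' : BM κ m2 f) : ∀ᵐ ω ∂κ, f ω = ∫ ω, f ω ∂κ :=
  (hf'.ce_self h2).symm.trans (ce_indep h1 h2 hI hf)

omit [IsProbabilityMeasure κ] in
theorem indep_mono' (hI : Indep A B κ) (hA : A1 ≤ A) (hB : B1 ≤ B) : Indep A1 B1 κ :=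
  indep_of_indep_of_le_right (indep_of_indep_of_le_left hI hA) hB

/-- C6: adding a sigma-algebra independent of everything does not change the conditional
expectation -/
theorem ce_sup_indep (hA : A ≤ m0) (hB : B ≤ m0) (hA1 : A1 ≤ A) (hI : Indep A B κ)
    (hf : BM κ A f) : κ[f | A1 ⊔ B] =ᵐ[κ] κ[f | A1] := by
  refine ce_eq_of_perp (sup_le (hA1.trans hA) hB) (hf.mono hA) ((hf.ce A1).mono le_sup_left) ?_
  have h3 : BM κ A (fun ω => f ω - (κ[f | A1]) ω) := hf.sub ((hf.ce A1).mono hA1)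
  refine perp_sup (hA1.trans hA) hB (h3.mono hA) fun a b ha hb => ?_
  simp only [← mul_assoc]
  rw [int_mul_indep hA hB hI (h3.mul (ha.mono hA1)) hb,
    perp_sub_ce (hA1.trans hA) (hf.mono hA) a ha, zero_mul]

/-- C7: for `f` measurable for `A1 ⊔ B` with `A1 ≤ A`, `B1 ≤ B`, `A` independent of `B` -/
theorem ce_sup_cond (hA : A ≤ m0) (hB : B ≤ m0) (hA1 : A1 ≤ A) (hB1 : B1 ≤ B) (hI : Indep A B κ)
    (hf : BM κ (A1 ⊔ B) f) : κ[f | A ⊔ B1] =ᵐ[κ] κ[f | A1 ⊔ B1] := by
  have hle : A1 ⊔ B ≤ m0 := sup_le (hA1.trans hA) hB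
  have hle1 : A1 ⊔ B1 ≤ A1 ⊔ B := sup_le_sup_left hB1 _
  refine ce_eq_of_perp (sup_le hA (hB1.trans hB)) (hf.mono hle)
    ((hf.ce _).mono (sup_le_sup_right hA1 _)) ?_
  have h3 : BM κ (A1 ⊔ B) (fun ω => f ω - (κ[f | A1 ⊔ B1]) ω) := hf.sub ((hf.ce _).mono hle1)
  refine perp_sup hA (hB1.trans hB) (h3.mono hle) fun a b ha hb => ?_
  have h4 : BM κ (A1 ⊔ B) (fun ω => (f ω - (κ[f | A1 ⊔ B1]) ω) * b ω) :=
    h3.mul (hb.mono (hB1.trans le_sup_right))
  have h5 := int_mul_ce hle h4 (ha.mono hA)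
  have h6 := perp_sub_ce (hle1.trans hle) (hf.mono hle) (fun ω => b ω * (κ[a | A1]) ω)
    ((hb.mono le_sup_right).mul ((ha.ce A1).mono le_sup_left))
  calc _ = ∫ ω, (f ω - (κ[f | A1 ⊔ B1]) ω) * b ω * a ω ∂κ :=
        integral_congr_ae (Eventually.of_forall fun ω => by simp only; ring)
    _ = _ := h5.symm
    _ = _ := by
      refine integral_congr_ae ?_
      filter_upwards [ce_sup_indep hA hB hA1 hI ha] with ω hω
      rw [hω, mul_assoc]
    _ = 0 := h6

/-- C7 with trivial `B1` -/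
theorem ce_cond (hA : A ≤ m0) (hB : B ≤ m0) (hA1 : A1 ≤ A) (hI : Indep A B κ)
    (hf : BM κ (A1 ⊔ B) f) : κ[f | A] =ᵐ[κ] κ[f | A1] := by
  simpa using ce_sup_cond (B1 := ⊥) hA hB hA1 bot_le hI hf

/-- duals: if `E[. | B]` keeps `A`-functions, then `E[. | A]` of a `B`-function is a `B`-function -/
theorem dual_bm (hA : A ≤ m0) (hB : B ≤ m0) (h2 : ∀ a, BM κ A a → BM κ A (κ[a | B]))
    (hf : BM κ B f) : BM κ B (κ[f | A]) := by
  have hy : BM κ A (κ[f | A]) := hf.ce A
  refine (hy.ce B).congr (ae_eq_of_tests hA (h2 _ hy) hy fun c hc => ?_)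
  rw [int_ce_symm hB (hy.mono hA) (hc.mono hA), int_ce_mul hA (hf.mono hB) (h2 c hc),
    int_mul_ce hB hf (hc.mono hA), int_ce_mul hA (hf.mono hB) hc]

theorem Cop_bm (m m' : MeasurableSpace Ω) {ρ ρ' : Ω → ℂ} (hm' : m' ≤ m0) (hρ : BM κ m0 ρ)
    (hρ' : BM κ m0 ρ') (ha : BM κ m0 a) : BM κ m (Cop κ m m' ρ ρ' a) :=
  (hρ'.mul (((ha.mul hρ).ce m').mono hm')).ce m

/-- the transpose of `Cop` swaps the two weights -/
theorem Cop_symm {m' : MeasurableSpace Ω} {ρ ρ' : Ω → ℂ} (hm : m ≤ m0) (hm' : m' ≤ m0)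
    (hρ : BM κ m0 ρ) (hρ' : BM κ m0 ρ') (ha : BM κ m a) (hb : BM κ m b) :
    ∫ ω, Cop κ m m' ρ ρ' a ω * b ω ∂κ = ∫ ω, Cop κ m m' ρ' ρ b ω * a ω ∂κ := by
  have h1 := (ha.mono hm).mul hρ
  have h2 := (hb.mono hm).mul hρ'
  unfold Cop
  rw [int_ce_mul hm (hρ'.mul ((h1.ce m').mono hm')) hb,
    int_ce_mul hm (hρ.mul ((h2.ce m').mono hm')) ha]
  calc _ = ∫ ω, (κ[fun ω => a ω * ρ ω | m']) ω * (b ω * ρ' ω) ∂κ :=
        integral_congr_ae (Eventually.of_forall fun ω => by simp only; ring)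
    _ = _ := int_ce_symm hm' h1 h2
    _ = _ := integral_congr_ae (Eventually.of_forall fun ω => by simp only; ring)

omit [IsProbabilityMeasure κ] in
theorem Cop_congr {m' : MeasurableSpace Ω} {ρ ρ' : Ω → ℂ} (h : a =ᵐ[κ] b) :
    Cop κ m m' ρ ρ' a =ᵐ[κ] Cop κ m m' ρ ρ' b := by
  refine condExp_congr_ae ?_
  have : κ[fun ω => a ω * ρ ω | m'] =ᵐ[κ] κ[fun ω => b ω * ρ ω | m'] := by
    refine condExp_congr_ae ?_
    filter_upwards [h] with ω hω
    rw [hω]
  filter_upwards [this] with ω hω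
  rw [hω]

omit [IsProbabilityMeasure κ] in
/-- the usable form of `LInd`: any smaller sigma-algebras -/
theorem LInd.indep {p : ι → MeasurableSpace Ω} (h : LInd κ p) {S T : Finset ι} (hd : Disjoint S T)
    (q : ι) (hS : q ∉ S) (hT : q ∉ T) (h1 : m1 ≤ sup p S) (h2 : m2 ≤ sup p T) : Indep m1 m2 κ :=
  indep_mono' (h S T hd ⟨q, hS, hT⟩) h1 h2

omit [IsProbabilityMeasure κ] in
theorem LInd.mono {p p' : ι → MeasurableSpace Ω} (h : LInd κ p) (hp : ∀ j, p' j ≤ p j) :
    LInd κ p' := fun S T hd hq =>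
  indep_mono' (h S T hd hq) (sup_mono'' subset_rfl fun j _ => hp j)
    (sup_mono'' subset_rfl fun j _ => hp j)

end Fib27

end MrgPart1

-- ======== part 2: formerly Pool.Agent.MP_154433_an.fib.Grid
section MrgPart2

/-!
Tuples on a line (lemma A), moving conditional expectations along a line, and the consequences of
MULT, RANK1 and EIG in a grid.
-/

open MeasureTheory ProbabilityTheory Finset Filter

namespace Fib27

variable {Ω ι : Type} [Fintype ι] [DecidableEq ι] {m0 : MeasurableSpace Ω} {κ : Measure Ω}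
  {p o : ι → MeasurableSpace Ω} {χ χ' : ι → Ω → ℂ}

theorem mul_conj_uni {z : ℂ} (h : ‖z‖ = 1) : z * (starRingEnd ℂ) z = 1 := by
  rw [Complex.mul_conj, Complex.normSq_eq_norm_sq, h]; simp

omit [DecidableEq ι] in
theorem exists_third (h : 3 ≤ Fintype.card ι) (i j : ι) : ∃ k, k ≠ i ∧ k ≠ j := by
  classical
  by_contra hc
  push Not at hc
  have : (univ : Finset ι) ⊆ {i, j} := fun k _ => by
    by_cases hk : k = i
    · simp [hk]
    · simp [hc k hk]
  have h2 := Finset.card_le_card this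
  have h3 : ({i, j} : Finset ι).card ≤ 2 := Finset.card_le_two
  rw [Finset.card_univ] at h2
  omega

omit [Fintype ι] [DecidableEq ι] in
theorem pr_conj (ρ : ι → Ω → ℂ) (S : Finset ι) (ω : Ω) :
    pr (fun k ω => (starRingEnd ℂ) (ρ k ω)) S ω = (starRingEnd ℂ) (pr ρ S ω) := by
  simp [pr, map_prod]

omit [Fintype ι] [DecidableEq ι] in
theorem LInd.pair (h : LInd κ p) {i j k : ι} (hij : i ≠ j) (hi : k ≠ i) (hj : k ≠ j) :
    Indep (p i) (p j) κ :=
  h.indep (S := {i}) (T := {j}) (by simpa using hij) k (by simpa using hi) (by simpa using hj)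
    (le_sup' p (mem_singleton_self _)) (le_sup' p (mem_singleton_self _))

theorem LInd.one (h : LInd κ p) {i j : ι} (hij : j ≠ i) :
    Indep (p i) (sup p ((univ.erase i).erase j)) κ :=
  h.indep (S := {i}) (by simp) j (by simpa using hij) (by simp)
    (le_sup' p (mem_singleton_self _)) le_rfl

namespace Tup

omit [DecidableEq ι] in
theorem bm (h : Tup κ p χ) (j : ι) : BM κ (p j) (χ j) := BM.of_uni (h.1 j) (h.2.1 j)

omit [DecidableEq ι] in
theorem all (h : Tup κ p χ) : ∀ᵐ ω ∂κ, ∀ j, ‖χ j ω‖ = 1 := ae_all_iff.2 h.2.1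

omit [DecidableEq ι] in
theorem mul_conj (h : Tup κ p χ) (h' : Tup κ p χ') :
    Tup κ p (fun j ω => χ j ω * (starRingEnd ℂ) (χ' j ω)) := by
  refine ⟨fun j => ((h.bm j).mul (h'.bm j).conj).1, fun j => ?_, ?_⟩
  · filter_upwards [h.2.1 j, h'.2.1 j] with ω h1 h2
    rw [norm_mul, Complex.norm_conj, h1, h2, one_mul]
  · obtain ⟨γ, hγ⟩ := h.2.2
    obtain ⟨γ', hγ'⟩ := h'.2.2
    refine ⟨γ * (starRingEnd ℂ) γ', ?_⟩
    filter_upwards [hγ, hγ'] with ω h1 h2
    rw [Finset.prod_mul_distrib, h1, ← map_prod, h2]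

/-- the pointwise identities of a tuple -/
theorem ident (h : Tup κ p χ) : ∃ γ : ℂ, ∀ᵐ ω ∂κ, ‖γ‖ = 1 ∧ (∀ j, ‖χ j ω‖ = 1) ∧
    (∀ j, pr χ (univ.erase j) ω = γ * (starRingEnd ℂ) (χ j ω)) ∧
    (∀ j, χ j ω = γ * (starRingEnd ℂ) (pr χ (univ.erase j) ω)) ∧
    (∀ j j', j' ≠ j → pr χ ((univ.erase j).erase j') ω =
      γ * (starRingEnd ℂ) (χ j ω) * (starRingEnd ℂ) (χ j' ω)) ∧
    (∀ j j', j' ≠ j → χ j ω * χ j' ω = γ * (starRingEnd ℂ) (pr χ ((univ.erase j).erase j') ω)) := by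
  obtain ⟨γ, hγ⟩ := h.2.2
  refine ⟨γ, ?_⟩
  filter_upwards [hγ, h.all] with ω h1 h2
  have hn : ‖γ‖ = 1 := by rw [← h1, norm_prod]; simp [h2]
  have hg := mul_conj_uni hn
  have a1 : ∀ j, pr χ (univ.erase j) ω = γ * (starRingEnd ℂ) (χ j ω) := fun j => by
    have e1 : χ j ω * pr χ (univ.erase j) ω = γ := by
      rw [← pr_erase χ (mem_univ j)]; exact h1
    have e2 := mul_conj_uni (h2 j)
    linear_combination (starRingEnd ℂ) (χ j ω) * e1 - pr χ (univ.erase j) ω * e2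
  have a2 : ∀ j j', j' ≠ j → pr χ ((univ.erase j).erase j') ω =
      γ * (starRingEnd ℂ) (χ j ω) * (starRingEnd ℂ) (χ j' ω) := fun j j' hj => by
    have e1 := pr_erase χ (mem_erase.2 ⟨hj, mem_univ j'⟩) ω
    have e2 := mul_conj_uni (h2 j')
    rw [a1 j] at e1
    linear_combination (-(starRingEnd ℂ) (χ j' ω)) * e1 - pr χ ((univ.erase j).erase j') ω * e2
  refine ⟨hn, h2, a1, fun j => ?_, a2, fun j j' hj => ?_⟩
  · rw [a1 j, map_mul, Complex.conj_conj]
    linear_combination (-χ j ω) * hg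
  · rw [a2 j j' hj, map_mul, map_mul, Complex.conj_conj, Complex.conj_conj]
    linear_combination (-(χ j ω * χ j' ω)) * hg

/-- a member of a tuple is determined by the other points of the line -/
theorem bm_others (h : Tup κ p χ) (j : ι) : BM κ (sup p (univ.erase j)) (χ j) := by
  obtain ⟨γ, hγ⟩ := h.ident
  refine ((BM.pr_sup (S := univ.erase j) fun k _ => h.bm k).conj.cmul γ).congr ?_
  filter_upwards [hγ] with ω hω
  exact (hω.2.2.2.1 j).symm

end Tup

theorem Mem.bm {i : ι} {v : Ω → ℂ} (h : Mem κ p i v) : BM κ (p i) v := by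
  obtain ⟨χ, hχ, rfl⟩ := h; exact hχ.bm i

theorem Mem.uni {i : ι} {v : Ω → ℂ} (h : Mem κ p i v) : ∀ᵐ ω ∂κ, ‖v ω‖ = 1 := by
  obtain ⟨χ, hχ, rfl⟩ := h; exact hχ.2.1 i

theorem Mem.bm_others {i : ι} {v : Ω → ℂ} (h : Mem κ p i v) : BM κ (sup p (univ.erase i)) v := by
  obtain ⟨χ, hχ, rfl⟩ := h; exact hχ.bm_others i

/-- a unimodular function proportional to a member is a member -/
theorem Mem.of_smul {i : ι} {v : Ω → ℂ} {t : ℂ} (ht : t ≠ 0) (h : Mem κ p i fun ω => t * v ω)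
    (hv : ∀ᵐ ω ∂κ, ‖v ω‖ = 1) : Mem κ p i v := by
  have hb : BM κ (p i) v := (h.bm.cmul t⁻¹).congr (Eventually.of_forall fun ω => by
    simp only; rw [← mul_assoc, inv_mul_cancel₀ ht, one_mul])
  obtain ⟨χ, ⟨h1, h2, γ, hγ⟩, hi⟩ := h
  refine ⟨Function.update χ i v, ⟨fun j => ?_, fun j => ?_, t⁻¹ * γ, ?_⟩, Function.update_self ..⟩
  · rcases eq_or_ne j i with rfl | hj
    · rw [Function.update_self]; exact hb.1
    · rw [Function.update_of_ne hj]; exact h1 j
  · rcases eq_or_ne j i with rfl | hj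
    · rw [Function.update_self]; exact hv
    · rw [Function.update_of_ne hj]; exact h2 j
  · filter_upwards [hγ] with ω hω
    have e1 := pr_erase χ (mem_univ i) ω
    have e2 := pr_erase (Function.update χ i v) (mem_univ i) ω
    rw [pr_update χ (notMem_erase i univ), Function.update_self] at e2
    rw [hi] at e1
    change pr (Function.update χ i v) univ ω = _
    change pr χ univ ω = γ at hω
    rw [e2, ← hω, e1]
    field_simp

omit [Fintype ι] in
theorem bm_update {a : ι → Ω → ℂ} (ha : ∀ k, BM κ (p k) (a k)) {j : ι} {x : Ω → ℂ}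
    (hx : BM κ (p j) x) (k : ι) : BM κ (p k) (Function.update a j x k) := by
  rcases eq_or_ne k j with rfl | hk
  · rw [Function.update_self]; exact hx
  · rw [Function.update_of_ne hk]; exact ha k

variable [IsProbabilityMeasure κ]

/-- a member of a tuple with nonzero mean is constant -/
theorem Tup.const_of_mean (h : Tup κ p χ) (hle : ∀ j, p j ≤ m0) (hI : LInd κ p)
    (hc : 3 ≤ Fintype.card ι) {i : ι} (hi : ∫ ω, χ i ω ∂κ ≠ 0) :
    ∃ d : ℂ, ∀ᵐ ω ∂κ, χ i ω = d := by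
  obtain ⟨j, hj, -⟩ := exists_third hc i i
  obtain ⟨k, hki, hkj⟩ := exists_third hc i j
  obtain ⟨γ, hγ⟩ := h.ident
  have hS : sup p ((univ.erase i).erase j) ≤ m0 := sup_le' fun k _ => hle k
  have h1 : BM κ (sup p ((univ.erase i).erase j)) (fun ω => χ i ω * χ j ω) := by
    refine ((BM.pr_sup (S := (univ.erase i).erase j) fun k _ => h.bm k).conj.cmul γ).congr ?_
    filter_upwards [hγ] with ω hω
    exact (hω.2.2.2.2.2 i j hj).symm
  have hI1 : Indep (sup p ((univ.erase i).erase j)) (p j) κ := by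
    rw [erase_right_comm]; exact (hI.one hj.symm).symm
  have h2 := ce_indep hS (hle j) hI1 h1
  have h3 := ce_mul' (hle j) ((h.bm i).mono (hle i)) (h.bm j)
  have h4 := ce_indep (hle i) (hle j) (hI.pair hj.symm hki hkj) (h.bm i)
  have h5 : BM κ (sup p ((univ.erase i).erase j)) (χ i) := by
    refine (h1.cmul ((starRingEnd ℂ) ((∫ ω, χ i ω ∂κ)⁻¹ * ∫ ω, χ i ω * χ j ω ∂κ))).congr ?_
    filter_upwards [h2, h3, h4, hγ] with ω e2 e3 e4 hω
    have e5 : (∫ ω, χ i ω ∂κ)⁻¹ * ∫ ω, χ i ω * χ j ω ∂κ = χ j ω := by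
      rw [← e2, e3, e4, ← mul_assoc, inv_mul_cancel₀ hi, one_mul]
    rw [e5]
    linear_combination χ i ω * mul_conj_uni (hω.2.1 j)
  exact ⟨_, const_of_indep (hle i) hS (hI.one hj) (h.bm i) h5⟩

/-- F3 with the two moving slots written out -/
theorem F23.move (h : F23 κ p o) {j0 j : ι} (hj : j ≠ j0) {g a : Ω → ℂ} {ρ : ι → Ω → ℂ}
    (hg : BM κ (p j0) g) (ha : BM κ (p j) a) (hρ : ∀ k, BM κ (p k) (ρ k)) :
    ∫ ω, (κ[g | o j0]) ω * (a ω * pr ρ ((univ.erase j0).erase j) ω) ∂κ =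
      ∫ ω, g ω * ((κ[a | o j]) ω * pr ρ ((univ.erase j0).erase j) ω) ∂κ := by
  have h1 := h.f3 (Function.update (Function.update ρ j a) j0 g) (bm_update (bm_update hρ ha) hg)
    j0 j
  have e1 : pr (Function.update (Function.update ρ j a) j0 g) ((univ.erase j0).erase j) =
      pr ρ ((univ.erase j0).erase j) := by
    rw [pr_update _ (by simp), pr_update _ (by simp)]
  simp only [Function.update_self, Function.update_of_ne hj,
    pr_erase _ (mem_erase.2 ⟨hj, mem_univ j⟩), pr_erase _ (mem_erase.2 ⟨hj.symm, mem_univ j0⟩),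
    erase_right_comm (a := j) (b := j0), e1] at h1
  rw [h1]
  exact integral_congr_ae (Eventually.of_forall fun ω => by simp only; ring)

/-- lemma A -/
theorem F23.lemA (h : F23 κ p o) (hle : ∀ j, p j ≤ m0) (hI : LInd κ p) (hc : 3 ≤ Fintype.card ι)
    (hχ : Tup κ p χ) :
    (∀ j, BM κ (o j) (χ j)) ∨ ∀ j, ∀ᵐ ω ∂κ, (κ[χ j | o j]) ω = 0 := by
  obtain ⟨γ, hγ⟩ := hχ.ident
  have hγ0 : γ ≠ 0 := by
    obtain ⟨ω, hω⟩ := hγ.exists
    intro h0; simpa [h0] using hω.1
  set μ : ι → ℂ := fun j => ∫ ω, (κ[χ j | o j]) ω * (starRingEnd ℂ) (χ j ω) ∂κ with hμ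
  have key : ∀ j j', j' ≠ j → κ[χ j | o j] =ᵐ[κ] fun ω => (starRingEnd ℂ) (μ j') * χ j ω := by
    intro j j' hj
    obtain ⟨k, hk1, hk2⟩ := exists_third hc j j'
    have hb := hχ.bm
    have h0 : ∀ j, BM κ m0 (χ j) := fun j => (hb j).mono (hle j)
    have : (fun ω => (starRingEnd ℂ) ((κ[χ j | o j]) ω)) =ᵐ[κ]
        fun ω => μ j' * (starRingEnd ℂ) (χ j ω) := by
      refine ae_eq_of_tests (hle j) (h.f2 j _ (hb j)).conj ((hb j).conj.cmul _) fun a ha => ?_
      have h1 := h.move hj ha (hb j') hb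
      have e1 : ∫ ω, (κ[a | o j]) ω * (χ j' ω * pr χ ((univ.erase j).erase j') ω) ∂κ =
          γ * ∫ ω, (starRingEnd ℂ) ((κ[χ j | o j]) ω) * a ω ∂κ := by
        have e0 : ∫ ω, (starRingEnd ℂ) ((κ[χ j | o j]) ω) * a ω ∂κ =
            ∫ ω, (κ[fun ω => (starRingEnd ℂ) (χ j ω) | o j]) ω * a ω ∂κ := by
          refine integral_congr_ae ?_
          filter_upwards [ce_conj (h.le j) (h0 j)] with ω hω
          rw [hω]
        rw [e0,
          int_ce_symm (h.le j) (h0 j).conj (ha.mono (hle j)), ← integral_const_mul]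
        refine integral_congr_ae ?_
        filter_upwards [hγ] with ω hω
        rw [← pr_erase χ (mem_erase.2 ⟨hj, mem_univ j'⟩), hω.2.2.1 j]
        ring
      have e2 : ∫ ω, a ω * ((κ[χ j' | o j']) ω * pr χ ((univ.erase j).erase j') ω) ∂κ =
          γ * ∫ ω, μ j' * (starRingEnd ℂ) (χ j ω) * a ω ∂κ := by
        have e3 := int_mul_indep (hle j') (hle j) (hI.pair hj hk2 hk1)
          ((h.f2 j' _ (hb j')).mul (hb j').conj) ((hb j).conj.mul ha)
        simp only [mul_assoc (μ j'), integral_const_mul]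
        rw [← e3, ← integral_const_mul]
        refine integral_congr_ae ?_
        filter_upwards [hγ] with ω hω
        rw [hω.2.2.2.2.1 j j' hj]
        ring
      rw [e1, e2] at h1
      exact mul_left_cancel₀ hγ0 h1
    filter_upwards [this] with ω hω
    have := congrArg (starRingEnd ℂ) hω
    simpa using this
  have key2 : ∀ j j', j' ≠ j → μ j' ≠ 0 → BM κ (o j) (χ j) ∧ μ j ≠ 0 := by
    intro j j' hj h0
    have h1 : (starRingEnd ℂ) (μ j') ≠ 0 := by simpa using h0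
    refine ⟨(((hχ.bm j).ce (o j)).cmul ((starRingEnd ℂ) (μ j'))⁻¹).congr ?_, ?_⟩
    · filter_upwards [key j j' hj] with ω hω
      rw [hω, ← mul_assoc, inv_mul_cancel₀ h1, one_mul]
    · have : μ j = (starRingEnd ℂ) (μ j') := by
        have e : μ j = ∫ _ω, (starRingEnd ℂ) (μ j') ∂κ := by
          refine integral_congr_ae ?_
          filter_upwards [key j j' hj, hγ] with ω e1 hω
          rw [e1, mul_assoc, mul_conj_uni (hω.2.1 j), mul_one]
        simpa using e
      rwa [this]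
  by_cases hex : ∃ j', μ j' ≠ 0
  · obtain ⟨j', hj'⟩ := hex
    refine Or.inl fun j => ?_
    obtain ⟨k, hk1, hk2⟩ := exists_third hc j j'
    exact (key2 j k hk1 (key2 k j' hk2.symm hj').2).1
  · push Not at hex
    refine Or.inr fun j => ?_
    obtain ⟨k, hk1, -⟩ := exists_third hc j j
    filter_upwards [key j k hk1] with ω hω
    simp [hω, hex k]

/-- lemma A, first use: being determined is transported along a tuple -/
theorem F23.trans (h : F23 κ p o) (hle : ∀ j, p j ≤ m0) (hI : LInd κ p) (hc : 3 ≤ Fintype.card ι)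
    (hχ : Tup κ p χ) {i : ι} (hi : BM κ (o i) (χ i)) (j : ι) : BM κ (o j) (χ j) := by
  rcases h.lemA hle hI hc hχ with h1 | h1
  · exact h1 j
  · exfalso
    obtain ⟨ω, e1, e2, e3⟩ := ((h1 i).and ((hi.ce_self (h.le i)).and (hχ.2.1 i))).exists
    rw [← e2, e1] at e3
    simp at e3

/-- lemma A, second use -/
theorem F23.of_corr (h : F23 κ p o) (hle : ∀ j, p j ≤ m0) (hI : LInd κ p)
    (hc : 3 ≤ Fintype.card ι) (hχ : Tup κ p χ) {i : ι} {c : Ω → ℂ} (hb : BM κ (o i) c)
    (h0 : ∫ ω, χ i ω * c ω ∂κ ≠ 0) : BM κ (o i) (χ i) := by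
  rcases h.lemA hle hI hc hχ with h1 | h1
  · exact h1 i
  · exact absurd (perp_of_ce (h.le i) ((hχ.bm i).mono (hle i)) (h1 i) c hb) h0

/-- against a determined function all other slots may be projected -/
theorem F23.all (h : F23 κ p o) {j0 : ι} {g : Ω → ℂ} (hg : BM κ (p j0) g) (hg' : BM κ (o j0) g)
    {a : ι → Ω → ℂ} (ha : ∀ k, BM κ (p k) (a k)) :
    ∫ ω, g ω * pr a (univ.erase j0) ω ∂κ =
      ∫ ω, g ω * pr (fun k => κ[a k | o k]) (univ.erase j0) ω ∂κ := by
  have key : ∀ S : Finset ι, S ⊆ univ.erase j0 → ∫ ω, g ω * pr a (univ.erase j0) ω ∂κ =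
      ∫ ω, g ω * pr (fun k => if k ∈ S then κ[a k | o k] else a k) (univ.erase j0) ω ∂κ := by
    intro S
    induction S using Finset.induction_on with
    | empty => intro _; simp
    | insert j S hj ih =>
      intro hS
      have hj0 : j ∈ univ.erase j0 := hS (mem_insert_self _ _)
      rw [ih ((subset_insert _ _).trans hS)]
      have hb : ∀ k, BM κ (p k) (if k ∈ S then κ[a k | o k] else a k) := fun k => by
        split_ifs
        · exact h.f2 k _ (ha k)
        · exact ha k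
      have h1 := h.move (mem_erase.1 hj0).1 hg (ha j) hb
      have e : pr (fun k => if k ∈ insert j S then κ[a k | o k] else a k)
          ((univ.erase j0).erase j) =
          pr (fun k => if k ∈ S then κ[a k | o k] else a k) ((univ.erase j0).erase j) :=
        pr_congr fun k hk => by simp [(mem_erase.1 hk).1]
      simp only [pr_erase _ hj0, e, hj, mem_insert_self, if_true, if_false]
      rw [← h1]
      refine integral_congr_ae ?_
      filter_upwards [hg'.ce_self (h.le j0)] with ω hω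
      rw [hω]
  rw [key _ subset_rfl]
  congr 1
  funext ω
  rw [pr_congr (ρ' := fun k => κ[a k | o k]) fun k hk => by simp only [hk, if_true]]

/-- the transfer operator between two points of a line keeps determined functions -/
theorem F23.keep (h : F23 κ p o) (hle : ∀ j, p j ≤ m0) {i i' : ι} (hi : i' ≠ i) {a : Ω → ℂ}
    (ha : BM κ (p i) a) (ha' : BM κ (o i) a) {ρ : ι → Ω → ℂ} (hρ : ∀ k, BM κ (p k) (ρ k)) :
    BM κ (o i') (κ[fun ω => a ω * pr ρ ((univ.erase i).erase i') ω | p i']) := by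
  have h0 : BM κ m0 (fun ω => a ω * pr ρ ((univ.erase i).erase i') ω) :=
    (ha.mono (hle i)).mul (BM.pr fun k _ => (hρ k).mono (hle k))
  have hM := h0.ce (p i')
  refine (hM.ce (o i')).congr (ae_eq_of_tests (hle i') (h.f2 i' _ hM) hM fun b hb => ?_)
  rw [int_ce_symm (h.le i') (hM.mono (hle i')) (hb.mono (hle i')),
    int_ce_mul (hle i') h0 (h.f2 i' b hb), int_ce_mul (hle i') h0 hb]
  have h1 := h.move hi ha hb hρ
  calc _ = ∫ ω, a ω * ((κ[b | o i']) ω * pr ρ ((univ.erase i).erase i') ω) ∂κ :=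
        integral_congr_ae (Eventually.of_forall fun ω => by simp only; ring)
    _ = _ := h1.symm
    _ = _ := by
      refine integral_congr_ae ?_
      filter_upwards [ha'.ce_self (h.le i)] with ω hω
      rw [hω]; ring

theorem F23.keepC (h : F23 κ p o) (hle : ∀ j, p j ≤ m0) {i i' : ι} (hi : i' ≠ i) {a : Ω → ℂ}
    (ha : BM κ (p i) a) (ha' : BM κ (o i) a) {ρ ρ' : ι → Ω → ℂ} (hρ : ∀ k, BM κ (p k) (ρ k))
    (hρ' : ∀ k, BM κ (p k) (ρ' k)) :
    BM κ (o i) (Cop κ (p i) (p i') (pr ρ ((univ.erase i).erase i'))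
      (pr ρ' ((univ.erase i).erase i')) a) := by
  have h0 : BM κ m0 (fun ω => a ω * pr ρ ((univ.erase i).erase i') ω) :=
    (ha.mono (hle i)).mul (BM.pr fun k _ => (hρ k).mono (hle k))
  have h1 := h.keep hle hi.symm (h0.ce (p i')) (h.keep hle hi ha ha' hρ) hρ'
  rw [erase_right_comm (a := i') (b := i)] at h1
  unfold Cop
  simpa only [mul_comm] using h1

end Fib27

end MrgPart2

-- ======== part 3: formerly Pool.Agent.MP_154433_an.fib.Kit57
section MrgPart3

/-! Calculus of bounded complex functions and conditional expectations. -/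

set_option autoImplicit false

open MeasureTheory ProbabilityTheory Filter

namespace Fib27.K

variable {Ω : Type} {A B R Z G H O : MeasurableSpace Ω} {m0 : MeasurableSpace Ω} {μ : Measure Ω}
  {f g X : Ω → ℂ}

lemma mono (h : BM μ A f) (hAB : A ≤ B) : BM μ B f := ⟨h.1.mono hAB, h.2⟩

lemma of (h : BM μ A f) (h' : AEStronglyMeasurable[B] f μ) : BM μ B f := ⟨h', h.2⟩

lemma mul (h : BM μ A f) (h' : BM μ A g) : BM μ A fun x => f x * g x := by
  obtain ⟨C, hC⟩ := h.2
  obtain ⟨D, hD⟩ := h'.2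
  refine ⟨h.1.mul h'.1, C * D, ?_⟩
  filter_upwards [hC, hD] with x a b
  rw [norm_mul]
  exact mul_le_mul a b (norm_nonneg _) ((norm_nonneg _).trans a)

lemma sub (h : BM μ A f) (h' : BM μ A g) : BM μ A fun x => f x - g x := by
  obtain ⟨C, hC⟩ := h.2
  obtain ⟨D, hD⟩ := h'.2
  refine ⟨h.1.sub h'.1, C + D, ?_⟩
  filter_upwards [hC, hD] with x a b
  exact (norm_sub_le _ _).trans (add_le_add a b)

lemma const (c : ℂ) : BM μ A fun _ => c :=
  ⟨aestronglyMeasurable_const, ‖c‖, Eventually.of_forall fun _ => le_rfl⟩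

lemma congr (h : BM μ A f) (e : f =ᵐ[μ] g) : BM μ A g := by
  obtain ⟨C, hC⟩ := h.2
  refine ⟨h.1.congr e, C, ?_⟩
  filter_upwards [hC, e] with x a b
  exact b ▸ a

lemma conj (h : BM μ A f) : BM μ A fun x => (starRingEnd ℂ) (f x) := by
  obtain ⟨C, hC⟩ := h.2
  refine ⟨Complex.continuous_conj.comp_aestronglyMeasurable h.1, C, ?_⟩
  filter_upwards [hC] with x a
  rwa [RCLike.norm_conj]

lemma nrm (h : BM μ A f) : BM μ A fun x => ((‖f x‖ : ℝ) : ℂ) := by
  obtain ⟨C, hC⟩ := h.2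
  refine ⟨(Complex.continuous_ofReal.comp continuous_norm).comp_aestronglyMeasurable h.1, C, ?_⟩
  filter_upwards [hC] with x a
  simpa using a

lemma prod {ι : Type} (s : Finset ι) (a : ι → Ω → ℂ) (h : ∀ i ∈ s, BM μ A (a i)) :
    BM μ A fun x => ∏ i ∈ s, a i x := by
  classical
  induction s using Finset.induction_on with
  | empty => simpa using const 1
  | insert i s hi ih =>
    simp only [Finset.prod_insert hi]
    exact mul (h i (Finset.mem_insert_self _ _)) (ih fun j hj => h j (Finset.mem_insert_of_mem hj))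

lemma ind {s : Set Ω} (hs : MeasurableSet[A] s) : BM μ A (s.indicator fun _ => (1 : ℂ)) :=
  ⟨(stronglyMeasurable_const.indicator hs).aestronglyMeasurable, 1,
    Eventually.of_forall fun x => by by_cases h : x ∈ s <;> simp [h]⟩

variable [IsProbabilityMeasure μ]

lemma int (h : BM μ A f) (hA : A ≤ m0) : Integrable f μ := by
  obtain ⟨C, hC⟩ := h.2
  exact Integrable.of_bound (h.1.mono hA) C hC

omit [IsProbabilityMeasure μ] in
lemma cond (h : BM μ A f) (B : MeasurableSpace Ω) : BM μ B (μ[f | B]) := by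
  obtain ⟨C, hC⟩ := h.2
  exact ⟨stronglyMeasurable_condExp.aestronglyMeasurable, C, ae_bdd_norm_condExp_of_ae_bdd_norm hC⟩

lemma pull (hA : A ≤ m0) (h : BM μ A f) (h' : BM μ m0 g) :
    μ[fun x => f x * g x | A] =ᵐ[μ] fun x => f x * (μ[g | A]) x :=
  condExp_bilin_of_aestronglyMeasurable_left (ContinuousLinearMap.mul ℝ ℂ) h.1
    (int (mul (mono h hA) h') le_rfl) (int h' le_rfl)

/-- moving a conditional expectation against a measurable factor -/
lemma adj (hA : A ≤ m0) (h : BM μ A f) (h' : BM μ m0 g) :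
    ∫ x, f x * (μ[g | A]) x ∂μ = ∫ x, f x * g x ∂μ := by
  rw [← integral_congr_ae (pull hA h h'), integral_condExp hA]

lemma adj' (hA : A ≤ m0) (h : BM μ A f) (h' : BM μ m0 g) :
    ∫ x, (μ[g | A]) x * f x ∂μ = ∫ x, g x * f x ∂μ := by
  simp only [mul_comm _ (f _)]
  exact adj hA h h'

lemma sym (hA : A ≤ m0) (h : BM μ m0 f) (h' : BM μ m0 g) :
    ∫ x, (μ[f | A]) x * g x ∂μ = ∫ x, f x * (μ[g | A]) x ∂μ := by
  rw [← adj hA (cond h A) h', adj' hA (cond h' A) h]

lemma self (hA : A ≤ m0) (h : BM μ A f) : μ[f | A] =ᵐ[μ] f :=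
  condExp_of_aestronglyMeasurable' hA h.1 (int h hA)

omit [IsProbabilityMeasure μ] in
lemma int_ind (hA : A ≤ m0) {s : Set Ω} (hs : MeasurableSet[A] s) (f : Ω → ℂ) :
    ∫ x, f x * s.indicator (fun _ => (1 : ℂ)) x ∂μ = ∫ x in s, f x ∂μ := by
  rw [← integral_indicator (hA s hs)]
  congr 1
  ext x
  by_cases h : x ∈ s <;> simp [h]

/-- two functions of `A` with the same pairings are equal -/
lemma ext (hA : A ≤ m0) (h : BM μ A f) (h' : BM μ A g)
    (e : ∀ w, BM μ A w → ∫ x, f x * w x ∂μ = ∫ x, g x * w x ∂μ) : f =ᵐ[μ] g := by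
  refine (ae_eq_condExp_of_forall_setIntegral_eq hA (int h' hA)
    (fun s _ _ => (int h hA).integrableOn) (fun s hs _ => ?_) h.1).trans (self hA h')
  rw [← int_ind hA hs, ← int_ind hA hs]
  exact e _ (ind hs)

/-- characterisation of the conditional expectation -/
lemma eq_cond (hA : A ≤ m0) (h : BM μ A f) (h' : BM μ m0 g)
    (e : ∀ w, BM μ A w → ∫ x, f x * w x ∂μ = ∫ x, g x * w x ∂μ) : μ[g | A] =ᵐ[μ] f :=
  ext hA (cond h' A) h fun w hw => by rw [adj' hA hw h', e w hw]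

/-- products are dense in the join -/
lemma dens (hA : A ≤ m0) (hB : B ≤ m0) (hX : BM μ m0 X)
    (e : ∀ u v, BM μ A u → BM μ B v → ∫ x, X x * (u x * v x) ∂μ = 0) :
    ∀ w, BM μ (A ⊔ B) w → ∫ x, X x * w x ∂μ = 0 := by
  have hAB : A ⊔ B ≤ m0 := sup_le hA hB
  have hi := int hX le_rfl
  have key : ∀ s, MeasurableSet[A ⊔ B] s → ∫ x in s, X x ∂μ = 0 := by
    have h1 : A ⊔ B = MeasurableSpace.generateFrom
        {u | ∃ s, MeasurableSet[A] s ∧ ∃ t, MeasurableSet[B] t ∧ u = s ∩ t} := by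
      refine le_antisymm (sup_le (fun s hs => ?_) fun t ht => ?_)
        (MeasurableSpace.generateFrom_le ?_)
      · exact MeasurableSpace.measurableSet_generateFrom
          ⟨s, hs, Set.univ, MeasurableSet.univ, by simp⟩
      · exact MeasurableSpace.measurableSet_generateFrom
          ⟨Set.univ, MeasurableSet.univ, t, ht, by simp⟩
      · rintro _ ⟨s, hs, t, ht, rfl⟩
        exact ((le_sup_left : A ≤ A ⊔ B) s hs).inter ((le_sup_right : B ≤ A ⊔ B) t ht)
    have h2 : IsPiSystem {u | ∃ s, MeasurableSet[A] s ∧ ∃ t, MeasurableSet[B] t ∧ u = s ∩ t} := by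
      rintro _ ⟨s, hs, t, ht, rfl⟩ _ ⟨s', hs', t', ht', rfl⟩ -
      exact ⟨s ∩ s', hs.inter hs', t ∩ t', ht.inter ht', by ac_rfl⟩
    have h3 : ∀ s t, MeasurableSet[A] s → MeasurableSet[B] t → ∫ x in s ∩ t, X x ∂μ = 0 := by
      intro s t hs ht
      rw [← e _ _ (ind hs) (ind ht), ← int_ind le_rfl ((hA s hs).inter (hB t ht))]
      congr 1
      ext x
      by_cases h : x ∈ s <;> by_cases h' : x ∈ t <;> simp [h, h']
    intro s hs
    induction s, hs using MeasurableSpace.induction_on_inter h1 h2 with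
    | empty => simp
    | basic u hu =>
      obtain ⟨s, hs, t, ht, rfl⟩ := hu
      exact h3 s t hs ht
    | compl u hu ih =>
      have h4 := h3 _ _ MeasurableSet.univ MeasurableSet.univ
      rw [Set.inter_self, Measure.restrict_univ] at h4
      rw [setIntegral_compl (hAB u hu) hi, h4, ih, sub_zero]
    | iUnion u hd hu ih =>
      rw [integral_iUnion (fun i => hAB _ (hu i)) hd hi.integrableOn]
      simp [ih]
  have h0 : (0 : Ω → ℂ) =ᵐ[μ] μ[X | A ⊔ B] :=
    ae_eq_condExp_of_forall_setIntegral_eq hAB hi (fun s _ _ => integrableOn_zero)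
      (fun s hs _ => by rw [key s hs]; simp) aestronglyMeasurable_zero
  intro w hw
  rw [← adj' hAB hw hX, ← integral_zero Ω ℂ (μ := μ)]
  refine integral_congr_ae ?_
  filter_upwards [h0] with x hx
  rw [← hx]
  simp

lemma dens₂ (hA : A ≤ m0) (hB : B ≤ m0) {Y : Ω → ℂ} (hX : BM μ m0 X) (hY : BM μ m0 Y)
    (e : ∀ u v, BM μ A u → BM μ B v →
      ∫ x, X x * (u x * v x) ∂μ = ∫ x, Y x * (u x * v x) ∂μ) :
    ∀ w, BM μ (A ⊔ B) w → ∫ x, X x * w x ∂μ = ∫ x, Y x * w x ∂μ := by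
  have k : ∀ w, BM μ m0 w → ∫ x, (X x - Y x) * w x ∂μ =
      ∫ x, X x * w x ∂μ - ∫ x, Y x * w x ∂μ := fun w hw => by
    simp only [sub_mul]
    exact integral_sub (int (mul hX hw) le_rfl) (int (mul hY hw) le_rfl)
  intro w hw
  rw [← sub_eq_zero, ← k w (mono hw (sup_le hA hB))]
  refine dens hA hB (sub hX hY) (fun u v hu hv => ?_) w hw
  rw [k _ (mul (mono hu hA) (mono hv hB)), e u v hu hv, sub_self]

/-- products are dense in a finite join -/
lemma dens_fin {ι : Type} [DecidableEq ι] (P : ι → MeasurableSpace Ω) (hP : ∀ i, P i ≤ m0)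
    (s : Finset ι) : ∀ {X Y : Ω → ℂ}, BM μ m0 X → BM μ m0 Y →
      (∀ a : ι → Ω → ℂ, (∀ i, BM μ (P i) (a i)) →
        ∫ x, X x * ∏ i ∈ s, a i x ∂μ = ∫ x, Y x * ∏ i ∈ s, a i x ∂μ) →
      ∀ w, BM μ (⨆ i ∈ s, P i) w → ∫ x, X x * w x ∂μ = ∫ x, Y x * w x ∂μ := by
  induction s using Finset.induction_on with
  | empty =>
    intro X Y hX hY e w hw
    have h1 : (⨆ i ∈ (∅ : Finset ι), P i) = ⊥ := by simp
    rw [h1] at hw
    have h2 := (self bot_le hw).symm
    rw [condExp_bot] at h2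
    have h3 : ∀ T : Ω → ℂ, ∫ x, T x * w x ∂μ = (∫ x, T x ∂μ) * ∫ x, w x ∂μ := fun T => by
      rw [← integral_mul_const]
      refine integral_congr_ae ?_
      filter_upwards [h2] with x hx
      rw [← hx]
    have h4 := e (fun _ _ => 1) fun _ => const 1
    simp only [Finset.prod_empty, mul_one] at h4
    rw [h3, h3, h4]
  | insert i s hi ih =>
    intro X Y hX hY e w hw
    rw [Finset.iSup_insert] at hw
    refine dens₂ (hP i) (iSup₂_le fun j _ => hP j) hX hY (fun u v hu hv => ?_) w hw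
    simp only [← mul_assoc]
    refine ih (mul hX (mono hu (hP i))) (mul hY (mono hu (hP i))) (fun a ha => ?_) v hv
    have := e (Function.update a i u) fun j => by
      by_cases c : j = i
      · subst c
        simpa using hu
      · simpa [c] using ha j
    have h2 : ∀ x, ∏ j ∈ s, Function.update a i u j x = ∏ j ∈ s, a j x := fun x =>
      Finset.prod_congr rfl fun j hj => by
        rw [Function.update_of_ne (by rintro rfl; exact hi hj)]
    simpa only [Finset.prod_insert hi, Function.update_self, h2, mul_assoc] using this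

/-- the product rule -/
lemma indep_mul (hA : A ≤ m0) (hB : B ≤ m0) (hI : Indep A B μ) (h : BM μ A f) (h' : BM μ B g) :
    ∫ x, f x * g x ∂μ = (∫ x, f x ∂μ) * ∫ x, g x ∂μ := by
  have h1 : μ[g | A] =ᵐ[μ] fun _ => ∫ x, g x ∂μ := by
    rw [integral_congr_ae h'.1.ae_eq_mk]
    exact (condExp_congr_ae h'.1.ae_eq_mk).trans
      (condExp_indep_eq hB hA h'.1.stronglyMeasurable_mk hI.symm)
  rw [← adj hA h (mono h' hB), ← integral_mul_const]
  refine integral_congr_ae ?_
  filter_upwards [h1] with x hx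
  rw [hx]

/-- independent information is irrelevant -/
lemma drop (hR : R ≤ m0) (hZ : Z ≤ m0) (hA : A ≤ R) (hI : Indep R Z μ) (h : BM μ R f) :
    μ[f | A ⊔ Z] =ᵐ[μ] μ[f | A] := by
  have hA0 := hA.trans hR
  refine eq_cond (sup_le hA0 hZ) (mono (cond h A) le_sup_left) (mono h hR)
    (dens₂ hA0 hZ (mono (cond h A) hA0) (mono h hR) fun u v hu hv => ?_)
  simp only [← mul_assoc]
  rw [indep_mul hR hZ hI (mul (mono (cond h A) hA) (mono hu hA)) hv,
    indep_mul hR hZ hI (mul h (mono hu hA)) hv, adj' hA0 hu (mono h hR)]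

/-- weak form of `drop` -/
lemma drop' (hR : R ≤ m0) (hZ : Z ≤ m0) (hA : A ≤ R) (hI : Indep R Z μ) (h : BM μ R f)
    (h' : BM μ (A ⊔ Z) g) : ∫ x, g x * (μ[f | A]) x ∂μ = ∫ x, g x * f x ∂μ := by
  rw [← adj (sup_le (hA.trans hR) hZ) h' (mono h hR)]
  refine integral_congr_ae ?_
  filter_upwards [drop hR hZ hA hI h] with x hx
  rw [hx]

/-- product structure -/
lemma drop₂ (hR : R ≤ m0) (hZ : Z ≤ m0) (hA : A ≤ R) (hB : B ≤ Z) (hI : Indep R Z μ)
    (h : BM μ (A ⊔ Z) X) : μ[X | R ⊔ B] =ᵐ[μ] μ[X | A ⊔ B] := by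
  have hA0 := hA.trans hR
  have hB0 := hB.trans hZ
  have hX := mono h (sup_le hA0 hZ)
  have hc := cond h (A ⊔ B)
  refine eq_cond (sup_le hR hB0) (mono hc (sup_le_sup_right hA _)) hX
    (dens₂ hR hB0 (mono hc (sup_le hA0 hB0)) hX fun u v hu hv => ?_)
  have hv' : BM μ (A ⊔ Z) v := mono hv (hB.trans le_sup_right)
  simp only [mul_comm (u _), ← mul_assoc]
  rw [← drop' hR hZ hA hI hu (mul (mono hc (sup_le_sup_left hB _)) hv'),
    ← drop' hR hZ hA hI hu (mul h hv')]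
  simp only [mul_assoc]
  exact adj' (sup_le hA0 hB0) (mul (mono hv le_sup_right) (mono (cond hu A) le_sup_left)) hX

/-- if conditioning on `G` keeps `H`, the projection to `H` of a function that pairs with `H` through
`G` is a function of `G` -/
lemma fix (hG : G ≤ m0) (hH : H ≤ m0)
    (hk : ∀ w : Ω → ℂ, BM μ H w → AEStronglyMeasurable[H] (μ[w | G]) μ) (hX : BM μ m0 X)
    (e : ∀ w, BM μ H w → ∫ x, X x * (μ[w | G]) x ∂μ = ∫ x, X x * w x ∂μ) :
    BM μ G (μ[X | H]) := by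
  have hN := cond hX H
  refine congr (cond hN G) (ext hH (of (cond hN G) (hk _ hN)) hN fun w hw => ?_)
  rw [sym hG (mono hN hH) (mono hw hH), adj' hH (of (cond hw G) (hk w hw)) hX, e w hw,
    adj' hH hw hX]

/-- conditioning on `O ⊔ Z` keeps `A ⊔ Z` -/
lemma pres (hR : R ≤ m0) (hZ : Z ≤ m0) (hA : A ≤ R) (hO : O ≤ R) (hI : Indep R Z μ)
    (hk : ∀ w : Ω → ℂ, BM μ A w → AEStronglyMeasurable[A] (μ[w | O]) μ) (w : Ω → ℂ)
    (hw : BM μ (A ⊔ Z) w) : AEStronglyMeasurable[A ⊔ Z] (μ[w | O ⊔ Z]) μ := by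
  have hA0 := hA.trans hR
  have hH : A ⊔ Z ≤ m0 := sup_le hA0 hZ
  have hG : O ⊔ Z ≤ m0 := sup_le (hO.trans hR) hZ
  have hV := mono (cond hw (O ⊔ Z)) hG
  refine (cond hV (A ⊔ Z)).1.congr (ext le_rfl (mono (cond hV _) hH) hV fun T hT => ?_)
  have hT' := mono (cond hT (A ⊔ Z)) hH
  rw [sym hH hV hT, sym hG (mono hw hH) hT', sym hG (mono hw hH) hT]
  simp only [mul_comm (w _)]
  refine dens₂ hA0 hZ (mono (cond hT' _) hG) (mono (cond hT _) hG) (fun u v hu hv => ?_) w hw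
  have huv := mul (mono hu hA0) (mono hv hZ)
  have h1 : μ[fun x => u x * v x | O ⊔ Z] =ᵐ[μ] fun x => v x * (μ[u | O]) x := by
    simp only [mul_comm (u _)]
    filter_upwards [pull hG (mono hv le_sup_right) (mono hu hA0),
      drop hR hZ hO hI (mono hu hA)] with x a b
    rw [a, b]
  have h2 : ∀ S : Ω → ℂ, ∫ x, S x * (μ[fun x => u x * v x | O ⊔ Z]) x ∂μ =
      ∫ x, S x * (v x * (μ[u | O]) x) ∂μ := fun S => by
    refine integral_congr_ae ?_
    filter_upwards [h1] with x hx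
    rw [hx]
  rw [sym hG hT' huv, sym hG hT huv, h2, h2]
  exact adj' hH (mul (mono hv le_sup_right) (mono (of (cond hu O) (hk u hu)) le_sup_left)) hT

end Fib27.K

end MrgPart3

-- ======== part 4: formerly Pool.Agent.MP_154433_an.fib.Mult
section MrgPart4

/-! The column operator at the corner can be moved to another point of the row. -/

set_option autoImplicit false

open MeasureTheory ProbabilityTheory Filter Finset

namespace Fib27.Mult

open K

variable {Ω : Type} {c0 p1 R0 d0 d1 Rq Z0 Z1 ZJ Z C0 C1 : MeasurableSpace Ω}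
  {m0 : MeasurableSpace Ω} {μ : Measure Ω} [IsProbabilityMeasure μ]

omit [IsProbabilityMeasure μ] in
lemma icongr {f g : Ω → ℂ} (h : f =ᵐ[μ] g) (T : Ω → ℂ) :
    ∫ x, f x * T x ∂μ = ∫ x, g x * T x ∂μ := by
  refine integral_congr_ae ?_
  filter_upwards [h] with x hx
  rw [hx]

omit [IsProbabilityMeasure μ] in
lemma iring {f g : Ω → ℂ} (h : ∀ x, f x = g x) : ∫ x, f x ∂μ = ∫ x, g x ∂μ := by
  rw [funext h]

/-- the projection of `a ρ` to the second row is a function of the first point and the other rows -/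
lemma stepN (hRq : Rq ≤ m0) (hZ : Z ≤ m0) (hC : C1 ≤ m0) (h1 : d1 ≤ Rq) (hZ0 : Z0 ≤ Z)
    (hZ1 : Z1 ≤ Z) (hZJ : ZJ ≤ Z) (hd : d1 ≤ C1) (hO : p1 ⊔ Z1 ≤ C1) (iq : Indep Rq Z μ)
    (i1 : Indep C1 ZJ μ) (f1 : ∀ w : Ω → ℂ, BM μ d1 w → BM μ d1 (μ[w | p1 ⊔ Z1]))
    {ρ a : Ω → ℂ} (hρ : BM μ Z0 ρ) (ha : BM μ p1 a) (ha' : BM μ (d1 ⊔ Z1) a) :
    BM μ (p1 ⊔ Z1 ⊔ ZJ) (μ[fun x => a x * ρ x | d1 ⊔ ZJ]) := by
  have hJ := hZJ.trans hZ
  have hO0 := hO.trans hC
  have hd0 := h1.trans hRq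
  have hG : p1 ⊔ Z1 ⊔ ZJ ≤ m0 := sup_le hO0 hJ
  have ha0 := mono ha (le_sup_left.trans hO0)
  have hX := mul ha0 (mono hρ (hZ0.trans hZ))
  refine fix hG (sup_le hd0 hJ) (pres hC hJ hd hO i1 fun w hw => (f1 w hw).1) hX fun w hw => ?_
  rw [← sym hG hX (mono hw (sup_le hd0 hJ))]
  refine dens₂ hd0 hJ (mono (cond hX _) hG) hX (fun u v hu hv => ?_) w hw
  have e1 : μ[fun x => u x * v x | p1 ⊔ Z1 ⊔ ZJ] =ᵐ[μ] fun x => v x * (μ[u | p1 ⊔ Z1]) x := by
    simp only [mul_comm (u _)]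
    filter_upwards [pull hG (mono hv le_sup_right) (mono hu hd0),
      drop hC hJ hO i1 (mono hu hd)] with x a b
    rw [a, b]
  have hφ := mul (mono hρ hZ0) (mono hv hZJ)
  have haR : BM μ (Z1 ⊔ Rq) a := mono ha' (sup_le (h1.trans le_sup_right) le_sup_left)
  have k : ∀ n : Ω → ℂ, BM μ d1 n → ∫ x, (a x * n x) * (ρ x * v x) ∂μ =
      ∫ x, (a x * (μ[fun x => ρ x * v x | Z1]) x) * n x ∂μ := fun n hn => by
    rw [← drop' hZ hRq hZ1 iq.symm hφ (mul haR (mono hn (h1.trans le_sup_right)))]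
    exact iring fun x => by ring
  calc _ = ∫ x, (μ[fun x => u x * v x | p1 ⊔ Z1 ⊔ ZJ]) x * (a x * ρ x) ∂μ := by
        rw [sym hG hX (mul (mono hu hd0) (mono hv hJ))]
        exact iring fun x => mul_comm _ _
    _ = ∫ x, (a x * (μ[u | p1 ⊔ Z1]) x) * (ρ x * v x) ∂μ := by
        rw [icongr e1]
        exact iring fun x => by ring
    _ = ∫ x, (a x * u x) * (ρ x * v x) ∂μ := by
        rw [k _ (f1 u hu), k u hu]
        exact adj hO0 (mul (mono ha le_sup_left) (mono (cond hφ Z1) le_sup_right)) (mono hu hd0)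
    _ = _ := iring fun x => by ring

lemma multA (hR0 : R0 ≤ m0) (hRq : Rq ≤ m0) (hZ : Z ≤ m0) (hC0 : C0 ≤ m0) (hC1 : C1 ≤ m0)
    (hc : c0 ≤ R0) (hp : p1 ≤ R0) (h0 : d0 ≤ Rq) (h1 : d1 ≤ Rq) (hZ0 : Z0 ≤ Z) (hZ1 : Z1 ≤ Z)
    (hZJ : ZJ ≤ Z) (hd0 : d0 ⊔ Z0 ≤ C0) (hd : d1 ≤ C1) (hO : p1 ⊔ Z1 ≤ C1) (i0 : Indep R0 Z μ)
    (iq : Indep Rq Z μ) (j0 : Indep C0 ZJ μ) (j1 : Indep C1 ZJ μ)
    (f0 : ∀ w : Ω → ℂ, BM μ d0 w → BM μ d0 (μ[w | c0 ⊔ Z0]))
    (f1 : ∀ w : Ω → ℂ, BM μ d1 w → BM μ d1 (μ[w | p1 ⊔ Z1]))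
    {ρ ρ' a : Ω → ℂ} (hρ : BM μ Z0 ρ) (hρ' : BM μ Z0 ρ') (ha : BM μ p1 a)
    (ha' : BM μ (d1 ⊔ Z1) a) :
    ∃ A, BM μ p1 A ∧ ∀ T c : Ω → ℂ, BM μ R0 T → BM μ (Rq ⊔ ZJ) T → BM μ c0 c →
      BM μ (d0 ⊔ Z0) c →
      ∫ x, Cop μ c0 d0 ρ ρ' c x * a x * T x ∂μ = ∫ x, c x * A x * T x ∂μ := by
  have hJ := hZJ.trans hZ
  have hz0 := hZ0.trans hZ
  have hN := stepN hRq hZ hC1 h1 hZ0 hZ1 hZJ hd hO iq j1 f1 hρ' ha ha'
  set N := μ[fun x => a x * ρ' x | d1 ⊔ ZJ] with hNd
  have hX : BM μ (d1 ⊔ Z) fun x => a x * ρ' x :=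
    mul (mono ha' (sup_le_sup_left hZ1 _)) (mono hρ' (hZ0.trans le_sup_right))
  have hX0 := mono hX (sup_le (h1.trans hRq) hZ)
  have hN' : BM μ (Rq ⊔ ZJ) N := mono (cond hX _) (sup_le_sup_right h1 _)
  have hNρ : BM μ (p1 ⊔ Z) fun x => N x * ρ x :=
    mul (mono hN (sup_le (sup_le_sup_left hZ1 _) (hZJ.trans le_sup_right)))
      (mono hρ (hZ0.trans le_sup_right))
  refine ⟨μ[fun x => N x * ρ x | p1], cond hNρ _, fun T c hT hT' hc0 hc1 => ?_⟩
  have hY : BM μ (c0 ⊔ Z0) fun x => c x * ρ x := mul (mono hc0 le_sup_left) (mono hρ le_sup_right)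
  have hY' : BM μ (d0 ⊔ Z0) fun x => c x * ρ x := mul hc1 (mono hρ le_sup_right)
  have hG : c0 ⊔ Z0 ≤ m0 := sup_le (hc.trans hR0) hz0
  have hY0 := mono hY hG
  have hb : BM μ (c0 ⊔ Z0) (μ[fun x => c x * ρ x | d0]) :=
    fix hG (h0.trans hRq) (fun w hw => (f0 w hw).1) hY0 fun w hw =>
      adj hG hY (mono hw (h0.trans hRq))
  have hb' : μ[fun x => c x * ρ x | Rq ⊔ ZJ] =ᵐ[μ] μ[fun x => c x * ρ x | d0] :=
    (drop₂ hRq hZ h0 hZJ iq (mono hY' (sup_le_sup_left hZ0 _))).trans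
      (drop hC0 hJ (le_sup_left.trans hd0) j0 (mono hY' hd0))
  have hbq : BM μ (Rq ⊔ ZJ) (μ[fun x => c x * ρ x | d0]) :=
    mono (cond hY d0) (h0.trans le_sup_left)
  set b := μ[fun x => c x * ρ x | d0] with hbd
  have hρb : BM μ (c0 ⊔ Z) fun x => ρ' x * b x :=
    mul (mono hρ' (hZ0.trans le_sup_right)) (mono hb (sup_le_sup_left hZ0 _))
  have haT : BM μ R0 fun x => a x * T x := mul (mono ha hp) hT
  have hTc : BM μ R0 fun x => c x * T x := mul (mono hc0 hc) hT
  have hQ : Rq ⊔ ZJ ≤ m0 := sup_le hRq hJ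
  calc _ = ∫ x, (μ[fun x => ρ' x * b x | c0]) x * (a x * T x) ∂μ := iring fun x => mul_assoc _ _ _
    _ = ∫ x, (ρ' x * b x) * (a x * T x) ∂μ := by
        rw [sym (hc.trans hR0) (mono hρb (sup_le (hc.trans hR0) hZ)) (mono haT hR0),
          drop' hR0 hZ hc i0 haT hρb]
    _ = ∫ x, (a x * ρ' x) * (b x * T x) ∂μ := iring fun x => by ring
    _ = ∫ x, N x * (b x * T x) ∂μ := by
        rw [← adj' hQ (mul hbq hT') hX0, icongr (drop₂ hRq hZ h1 hZJ iq hX)]
    _ = ∫ x, b x * (N x * T x) ∂μ := iring fun x => by ring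
    _ = ∫ x, (c x * ρ x) * (N x * T x) ∂μ := by
        rw [← icongr hb', adj' hQ (mul hN' hT') hY0]
    _ = ∫ x, (N x * ρ x) * (c x * T x) ∂μ := iring fun x => by ring
    _ = ∫ x, (μ[fun x => N x * ρ x | p1]) x * (c x * T x) ∂μ := by
        rw [sym (hp.trans hR0) (mono hNρ (sup_le (hp.trans hR0) hZ)) (mono hTc hR0),
          drop' hR0 hZ hp i0 hTc hNρ]
    _ = _ := iring fun x => by ring

section sup

variable {ι : Type} (p : ι → MeasurableSpace Ω)

lemma le_sp {S : Finset ι} {j : ι} (h : j ∈ S) : p j ≤ sup p S :=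
  le_iSup₂ (f := fun j (_ : j ∈ S) => p j) j h

lemma sp_le {S : Finset ι} {B : MeasurableSpace Ω} (h : ∀ j ∈ S, p j ≤ B) : sup p S ≤ B :=
  iSup₂_le h

lemma sp_one (j : ι) : sup p {j} = p j := by simp [sup]

lemma sp_erase [Fintype ι] [DecidableEq ι] {q q0 : ι} (h : q ≠ q0) :
    sup p (univ.erase q) = p q0 ⊔ sup p ((univ.erase q0).erase q) := by
  rw [erase_right_comm]
  conv_lhs => rw [← insert_erase (s := univ.erase q) (a := q0) (by simp [h.symm])]
  exact Finset.iSup_insert _ _ _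

end sup

end Fib27.Mult

namespace Fib27

open K Mult

theorem mult : MULT := by
  intro Ω m0 κ _ ι _ _ G hG q0 q j0 j1 hq hj ρ ρ' hρ hρ' a1 ha ha'
  set S := (univ.erase q0).erase q with hS
  set T := (univ.erase j0).erase j1 with hT
  have hS' : (univ.erase q).erase q0 = S := erase_right_comm
  have hrow : ∀ k, sup (G k) univ ≤ m0 := fun k => sp_le _ fun j _ => hG.le k j
  have hcol : ∀ j, sup (fun k => G k j) univ ≤ m0 := fun j => sp_le _ fun k _ => hG.le k j
  have hZ : ∀ j, sup (fun k => G k j) S ≤ sup (fun k => sup (G k) univ) S := fun j =>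
    sp_le _ fun k hk => (le_sp (G k) (mem_univ j)).trans
      (le_sp (fun k => sup (G k) univ) hk)
  have hC : ∀ j, sup (fun k => G k j) S ≤ sup (fun k => G k j) univ := fun j =>
    sp_le _ fun k _ => le_sp (fun k => G k j) (mem_univ k)
  have hJ : sup (fun j => sup (fun k => G k j) S) T ≤
      sup (fun j => sup (fun k => G k j) univ) T := sp_le _ fun j hj =>
    (hC j).trans (le_sp (fun j => sup (fun k => G k j) univ) hj)
  have o1 : ∀ j, Oc G q j = G q0 j ⊔ sup (fun k => G k j) S := fun j => sp_erase _ hq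
  have o2 : ∀ j, Oc G q0 j = G q j ⊔ sup (fun k => G k j) S := fun j =>
    hS' ▸ sp_erase (fun k => G k j) hq.symm
  have i0 := hG.rows {q0} S (by simp [hS]) ⟨q, by simp [hq], by simp [hS]⟩
  have iq := hG.rows {q} S (by simp [hS]) ⟨q0, by simp [hq.symm], by simp [hS]⟩
  have k0 := hG.cols {j0} T (by simp [hT]) ⟨j1, by simp [hj], by simp [hT]⟩
  have k1 := hG.cols {j1} T (by simp [hT]) ⟨j0, by simp [hj.symm], by simp [hT]⟩
  rw [sp_one] at i0 iq k0 k1
  obtain ⟨A, hA, e⟩ := multA (c0 := G q0 j0) (d0 := G q j0) (d1 := G q j1) (hrow q0) (hrow q)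
    (sp_le _ fun k _ => hrow k) (hcol j0) (hcol j1) (le_sp _ (mem_univ _))
    (le_sp _ (mem_univ _)) (le_sp _ (mem_univ _)) (le_sp _ (mem_univ _)) (hZ j0) (hZ j1)
    (sp_le (fun j => sup (fun k => G k j) S) (S := T) fun j _ => hZ j)
    (sup_le (le_sp (fun k => G k j0) (mem_univ q)) (hC j0))
    (le_sp (fun k => G k j1) (mem_univ q))
    (sup_le (le_sp (fun k => G k j1) (mem_univ q0)) (hC j1)) i0 iq
    (indep_of_indep_of_le_right k0 hJ) (indep_of_indep_of_le_right k1 hJ)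
    (fun w hw => o1 j0 ▸ (hG.fr q).f2 j0 w hw) (fun w hw => o1 j1 ▸ (hG.fr q).f2 j1 w hw)
    hρ hρ' ha (o2 j1 ▸ ha')
  refine ⟨κ[A | Oc G q0 j1], (hG.fr q0).f2 j1 A hA, cond hA _, fun a h1 h2 => ?_⟩
  have e1 := e (pr a T) (a j0)
    (K.prod T a fun j _ => K.mono (h1 j) (le_sp _ (mem_univ j)))
    (K.prod T a fun j hj => K.mono (h2 j) (o2 j ▸ sup_le_sup (le_sp _ (mem_univ j))
      (le_sp (fun j => sup (fun k => G k j) S) hj))) (h1 j0) (o2 j0 ▸ h2 j0)
  have e2 := (hG.fr q0).f3 (Function.update a j1 A) (fun k => by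
    by_cases c : k = j1
    · subst c
      simpa using hA
    · simpa [c] using h1 k) j0 j1
  have u0 : Function.update a j1 A j0 = a j0 := Function.update_of_ne hj.symm _ _
  have uT : ∀ x, ∏ k ∈ T, Function.update a j1 A k x = pr a T x := fun x =>
    prod_congr rfl fun k hk => by rw [Function.update_of_ne (ne_of_mem_erase hk)]
  have p0 : ∀ x, pr (Function.update a j1 A) (univ.erase j0) x = A x * pr a T x := fun x => by
    rw [pr, ← mul_prod_erase _ _ (show j1 ∈ univ.erase j0 by simp [hj]), Function.update_self,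
      uT]
  have p1 : ∀ x, pr (Function.update a j1 A) (univ.erase j1) x = a j0 x * pr a T x := fun x => by
    rw [pr, ← mul_prod_erase _ _ (show j0 ∈ univ.erase j1 by simp [hj.symm]), u0,
      erase_right_comm, uT]
  simp only [p0, p1, u0, Function.update_self] at e2
  rw [icongr (K.self ((hG.fr q0).le j0) (h2 j0))] at e2
  rw [e1]
  exact (iring fun x => mul_assoc _ _ _).trans (e2.trans (iring fun x => by ring))

end Fib27

end MrgPart4

-- ======== part 5: formerly Pool.Agent.MP_154433_an.fib.Alg0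
section MrgPart5

/-! Steps along lines as operators on sections, flatness, and words. -/

set_option linter.unusedSectionVars false

open Finset

namespace Fib27

namespace algh

variable {J ι M : Type} [DecidableEq J] [Fintype ι] [DecidableEq ι] [AddCommGroup M] {r : ι → ℤ}
  {Pt Γ : (J → ℤ) → AddSubgroup M} {D : Set J}

lemma mem_slice {t : J} {m : ℤ} {c : J → ℤ} (hc : c t = m) {x : M} (hx : x ∈ Pt c) :
    x ∈ ⨆ c' ∈ {c' : J → ℤ | c' t = m}, Pt c' :=
  (le_iSup₂_of_le (f := fun (c' : J → ℤ) (_ : c' ∈ {c' : J → ℤ | c' t = m}) => Pt c') c hc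
    le_rfl) hx

lemma uniq (h : Sys r Pt Γ D) (s : J) (c : J → ℤ) (i : ι) (z : ι → M)
    (hz : ∀ k, z k ∈ Pt (c + Pi.single s (r k))) (h0 : ∑ k, z k = 0) (hi : z i = 0) (k : ι) :
    z k = 0 := by
  by_cases hk : k = i
  · rw [hk, hi]
  refine h.a3 s (c s) i z (fun q => mem_slice (by simp) (hz q)) ?_ k hk
  rwa [← Finset.add_sum_erase _ _ (mem_univ i), hi, zero_add] at h0

/-- sections of the family `Γ` -/
def NN (Γ : (J → ℤ) → AddSubgroup M) : AddSubgroup ((J → ℤ) → M) where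
  carrier := {φ | ∀ c, φ c ∈ Γ c}
  add_mem' := fun h h' c => add_mem (h c) (h' c)
  zero_mem' := fun _ => zero_mem _
  neg_mem' := fun h c => neg_mem (h c)

lemma ex (h : Sys r Pt Γ D) {s : J} (hs : s ∈ D) (i : ι) (φ : NN Γ) :
    ∃ ψ : ι → NN Γ, ψ i = φ ∧ ∀ c : J → ℤ, ∑ k, (ψ k).1 (c + Pi.single s (r k)) = 0 := by
  choose z hz1 hz2 hz3 using fun c => h.tup s hs c i (φ.1 c) (φ.2 c)
  refine ⟨fun k => ⟨fun c => z (c - Pi.single s (r k - r i)) k, fun c => ?_⟩, ?_, fun c => ?_⟩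
  · have := hz1 (c - Pi.single s (r k - r i)) k
    rwa [sub_add_cancel] at this
  · apply Subtype.ext
    funext c
    simp [hz3]
  · rw [← hz2 (c + Pi.single s (r i))]
    refine Finset.sum_congr rfl fun k _ => ?_
    show z (c + Pi.single s (r k) - Pi.single s (r k - r i)) k = _
    rw [Pi.single_sub]
    congr 1
    abel

lemma uq (h : Sys r Pt Γ D) {s : J} (hs : s ∈ D) (i : ι) (φ : NN Γ) (c : J → ℤ) (z : ι → M)
    (hz : ∀ k, z k ∈ Pt (c + Pi.single s (r k))) (h0 : ∑ k, z k = 0)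
    (hi : z i = φ.1 (c + Pi.single s (r i))) (k : ι) :
    z k = ((ex h hs i φ).choose k).1 (c + Pi.single s (r k)) := by
  obtain ⟨h1, h2⟩ := (ex h hs i φ).choose_spec
  rw [← sub_eq_zero]
  refine uniq h s c i (fun k => z k - ((ex h hs i φ).choose k).1 (c + Pi.single s (r k)))
    (fun k => sub_mem (hz k) (h.le _ (((ex h hs i φ).choose k).2 _))) ?_ ?_ k
  · rw [Finset.sum_sub_distrib, h0, h2, sub_zero]
  · rw [h1, hi, sub_self]

lemma ext_at {φ φ' : NN Γ} (d : J → ℤ) (h : ∀ c, φ.1 (c + d) = φ'.1 (c + d)) : φ = φ' := by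
  apply Subtype.ext
  funext c
  simpa using h (c - d)

/-- the step from slot `i` to slot `k` in direction `s` -/
noncomputable def st (h : Sys r Pt Γ D) {s : J} (hs : s ∈ D) (i k : ι) : AddMonoid.End (NN Γ) :=
  AddMonoidHom.mk' (fun φ => (ex h hs i φ).choose k) fun φ φ' => by
    refine ext_at (Pi.single s (r k)) fun c => ?_
    obtain ⟨h1, h2⟩ := (ex h hs i φ).choose_spec
    obtain ⟨h1', h2'⟩ := (ex h hs i φ').choose_spec
    refine (uq h hs i (φ + φ') c (fun k => ((ex h hs i φ).choose k).1 (c + Pi.single s (r k)) +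
      ((ex h hs i φ').choose k).1 (c + Pi.single s (r k))) (fun k => add_mem
        (h.le _ (((ex h hs i φ).choose k).2 _)) (h.le _ (((ex h hs i φ').choose k).2 _)))
      ?_ ?_ k).symm
    · rw [Finset.sum_add_distrib, h2, h2', add_zero]
    · rw [h1, h1']
      rfl

variable (h : Sys r Pt Γ D)

lemma st_self {s : J} (hs : s ∈ D) (i : ι) (φ : NN Γ) : st h hs i i φ = φ :=
  (ex h hs i φ).choose_spec.1

lemma st_sum {s : J} (hs : s ∈ D) (i : ι) (φ : NN Γ) (c : J → ℤ) :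
    ∑ k, (st h hs i k φ).1 (c + Pi.single s (r k)) = 0 :=
  (ex h hs i φ).choose_spec.2 c

lemma st_uq {s : J} (hs : s ∈ D) (i : ι) (φ : NN Γ) (c : J → ℤ) (z : ι → M)
    (hz : ∀ k, z k ∈ Pt (c + Pi.single s (r k))) (h0 : ∑ k, z k = 0)
    (hi : z i = φ.1 (c + Pi.single s (r i))) (k : ι) :
    z k = (st h hs i k φ).1 (c + Pi.single s (r k)) :=
  uq h hs i φ c z hz h0 hi k

lemma st_inv {s : J} (hs : s ∈ D) (i j : ι) : st h hs i j * st h hs j i = 1 := by
  refine AddMonoidHom.ext fun φ => ext_at (Pi.single s (r j)) fun c => ?_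
  have := st_uq h hs i (st h hs j i φ) c (fun k => (st h hs j k φ).1 (c + Pi.single s (r k)))
    (fun k => h.le _ ((st h hs j k φ).2 _)) (st_sum h hs j φ c) rfl j
  rw [st_self] at this
  exact this.symm

/-- steps in different directions commute -/
lemma flat {s t : J} (hs : s ∈ D) (ht : t ∈ D) (hst : s ≠ t) (i j q0 q : ι) :
    Commute (st h hs i j) (st h ht q0 q) := by
  refine AddMonoidHom.ext fun φ =>
    ext_at (Pi.single t (r q) + Pi.single s (r j)) fun p => ?_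
  let A : ι → ι → M := fun q' k =>
    (st h ht q0 q' (st h hs i k φ)).1 (p + Pi.single t (r q') + Pi.single s (r k))
  have hA : ∀ q' k, A q' k ∈ Pt (p + Pi.single t (r q') + Pi.single s (r k)) := fun q' k =>
    h.le _ ((st h ht q0 q' (st h hs i k φ)).2 _)
  have hcol : ∀ k, ∑ q', A q' k = 0 := fun k => by
    rw [← st_sum h ht q0 (st h hs i k φ) (p + Pi.single s (r k))]
    exact Finset.sum_congr rfl fun q' _ => by simp only [A, add_right_comm]
  have hrow0 : ∑ k, A q0 k = 0 := by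
    rw [← st_sum h hs i φ (p + Pi.single t (r q0))]
    exact Finset.sum_congr rfl fun k _ => by simp only [A, st_self]
  have hrow : ∑ k, A q k = 0 := by
    by_cases hq : q = q0
    · rw [hq, hrow0]
    refine h.a3 t (p t) q0 (fun q' => ∑ k, A q' k) (fun q' => sum_mem fun k _ =>
      mem_slice (by simp [Pi.single_eq_of_ne hst.symm]) (hA q' k)) ?_ q hq
    have : ∑ q', ∑ k, A q' k = 0 := by
      rw [Finset.sum_comm]
      exact Finset.sum_eq_zero fun k _ => hcol k
    rwa [← Finset.add_sum_erase _ _ (mem_univ q0), hrow0, zero_add] at this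
  have := st_uq h hs i (st h ht q0 q φ) (p + Pi.single t (r q)) (A q) (hA q) hrow
    (by simp only [A, st_self]) j
  rw [← add_assoc]
  exact this.symm

/-- the operator of a word -/
noncomputable def wd {s : J} (hs : s ∈ D) : List (ι × ι) → AddMonoid.End (NN Γ)
  | [] => 1
  | σ :: w => wd hs w * st h hs σ.1 σ.2

lemma wd_append {s : J} (hs : s ∈ D) (w w' : List (ι × ι)) :
    wd h hs (w ++ w') = wd h hs w' * wd h hs w := by
  induction w with
  | nil => simp [wd]
  | cons σ w ih => simp only [List.cons_append, wd, ih, mul_assoc]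

lemma disp_nil : disp r [] = 0 := rfl

lemma disp_cons (σ : ι × ι) (w : List (ι × ι)) :
    disp r (σ :: w) = (r σ.2 - r σ.1) + disp r w := by simp [disp]

lemma disp_append (w w' : List (ι × ι)) : disp r (w ++ w') = disp r w + disp r w' := by
  simp [disp]

lemma wd_inv {s : J} (hs : s ∈ D) (w : List (ι × ι)) :
    ∃ w', disp r w' = -disp r w ∧ wd h hs w * wd h hs w' = 1 := by
  induction w with
  | nil => exact ⟨[], by simp [disp], by simp [wd]⟩
  | cons σ w ih =>
    obtain ⟨w', h1, h2⟩ := ih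
    refine ⟨w' ++ [(σ.2, σ.1)], ?_, ?_⟩
    · rw [disp_append, disp_cons, disp_cons, h1, disp_nil]
      ring
    · rw [wd_append]
      simp only [wd, one_mul]
      rw [mul_assoc, ← mul_assoc (st h hs σ.1 σ.2), st_inv, one_mul, h2]

lemma wd_comm {s t : J} (hs : s ∈ D) (ht : t ∈ D) (hst : s ≠ t) (w w' : List (ι × ι)) :
    Commute (wd h hs w) (wd h ht w') := by
  induction w with
  | nil => exact Commute.one_left _
  | cons σ w ih =>
    refine ih.mul_left ?_
    clear ih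
    induction w' with
    | nil => exact Commute.one_right _
    | cons τ w' ih' => exact ih'.mul_right (flat h hs ht hst _ _ _ _)

lemma sh (s : J) (m a b : ℤ) : (Pi.single s (m - b) + Pi.single s a : J → ℤ) =
    Pi.single s (m + (a - b)) := by
  rw [← Pi.single_add]
  congr 1
  ring

lemma chain_eq {s : J} (hs : s ∈ D) (w : List (ι × ι)) : ∀ (m : ℤ) (φ : NN Γ) (y : M),
    Chain r (fun m => Pt (Pi.single s m)) w m (φ.1 (Pi.single s m)) y →
      y = (wd h hs w φ).1 (Pi.single s (m + disp r w)) := by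
  induction w with
  | nil =>
    intro m φ y hy
    rw [disp_nil, add_zero]
    exact Eq.symm hy
  | cons σ w ih =>
    rintro m φ y ⟨z, h1, h2, h3, h4⟩
    have := st_uq h hs σ.1 φ (Pi.single s (m - r σ.1)) z (fun k => by rw [sh]; exact h1 k) h2
      (by rw [sh, sub_self, add_zero, h3]) σ.2
    rw [this, sh] at h4
    rw [ih _ _ _ h4, disp_cons, add_assoc]
    rfl

lemma chain_ex {s : J} (hs : s ∈ D) (w : List (ι × ι)) : ∀ (m : ℤ) (φ : NN Γ),
    Chain r (fun m => Pt (Pi.single s m)) w m (φ.1 (Pi.single s m))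
      ((wd h hs w φ).1 (Pi.single s (m + disp r w))) := by
  induction w with
  | nil =>
    intro m φ
    rw [disp_nil, add_zero]
    rfl
  | cons σ w ih =>
    intro m φ
    refine ⟨fun k => (st h hs σ.1 k φ).1 (Pi.single s (m + (r k - r σ.1))),
      fun k => h.le _ ((st h hs σ.1 k φ).2 _), ?_, ?_, ?_⟩
    · rw [← st_sum h hs σ.1 φ (Pi.single s (m - r σ.1))]
      exact Finset.sum_congr rfl fun k _ => by rw [sh]
    · simp only [st_self, sub_self, add_zero]
    · have := ih (m + (r σ.2 - r σ.1)) (st h hs σ.1 σ.2 φ)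
      rw [disp_cons, ← add_assoc]
      exact this

lemma loop_eq {s : J} (hs : s ∈ D) {w : List (ι × ι)} (hw : disp r w = 0) (φ : NN Γ) {y : M}
    (hy : Chain r (fun m => Pt (Pi.single s m)) w 0 (φ.1 0) y) : y = (wd h hs w φ).1 0 := by
  have := chain_eq h hs w 0 φ y (by rwa [Pi.single_zero])
  rwa [hw, add_zero, Pi.single_zero] at this

lemma loop_ex {s : J} (hs : s ∈ D) {w : List (ι × ι)} (hw : disp r w = 0) (φ : NN Γ) :
    Chain r (fun m => Pt (Pi.single s m)) w 0 (φ.1 0) ((wd h hs w φ).1 0) := by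
  have := chain_ex h hs w 0 φ
  rwa [hw, add_zero, Pi.single_zero] at this

/-- the section supported at the origin -/
noncomputable def dl [Fintype J] (Γ : (J → ℤ) → AddSubgroup M) : Γ 0 →+ NN Γ :=
  AddMonoidHom.mk' (fun x => ⟨Pi.single 0 x.1, fun c => by
    by_cases hc : c = 0
    · rw [hc, Pi.single_eq_same]
      exact x.2
    · rw [Pi.single_eq_of_ne hc]
      exact zero_mem _⟩) fun x y => Subtype.ext (Pi.single_add _ _ _)

end algh

open algh in
theorem alg1 : ALG1 := by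
  intro J ι M _ _ _ _ r Pt Γ D h s hs t ht hst w w' x0 x1 x2 x3 x4 hx hw hw' c1 c2 c3 c4
  classical
  let φ : NN Γ := ⟨fun c => if c = 0 then x0 else 0, fun c => by
    by_cases hc : c = 0
    · simp only [hc, if_true]
      exact hx
    · simp only [hc, if_false]
      exact zero_mem _⟩
  have h0 : x0 = φ.1 0 := by simp [φ]
  rw [h0] at c1 c2
  rw [loop_eq h hs hw φ c1] at c4
  rw [loop_eq h ht hw' φ c2] at c3
  rw [loop_eq h hs hw _ c3, loop_eq h ht hw' _ c4]
  exact congrArg (fun E : AddMonoid.End (NN Γ) => (E φ).1 0) (wd_comm h hs ht hst w w').eq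

end Fib27

end MrgPart5

-- ======== part 6: formerly Pool.Agent.MP_154433_an.fib.Alg
section MrgPart6

/-! A nonzero algebraic system has two non-commuting loops in one direction. -/

set_option linter.unusedSectionVars false

open Finset

namespace Fib27

namespace algh

/-- a matrix over a commutative ring that is injective on a nonzero module -/
lemma mccoy {R V α β : Type} [CommRing R] [AddCommGroup V] [Module R V] [Fintype α] [Fintype β]
    (ρ : α → β → R) (x : V) (hx : x ≠ 0)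
    (h : ∀ v : α → V, (∀ b, ∑ a, ρ a b • v a = 0) → ∀ a, v a = 0) :
    Fintype.card α ≤ Fintype.card β := by
  let I : Ideal R := Ideal.torsionOf R V x
  have hI : I ≠ ⊤ := by
    rw [Ne, Ideal.eq_top_iff_one]
    intro h1
    exact hx (by simpa using (Ideal.mem_torsionOf_iff x 1).1 h1)
  have : Nontrivial (R ⧸ I) := Ideal.Quotient.nontrivial_iff.2 hI
  refine card_le_of_injective (R ⧸ I)
    (Matrix.mulVecLin (Matrix.of fun b a => Ideal.Quotient.mk I (ρ a b))) ?_
  rw [injective_iff_map_eq_zero]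
  intro u hu
  choose t ht using fun a => Ideal.Quotient.mk_surjective (u a)
  have := h (fun a => t a • x) fun b => by
    have h1 := congrFun hu b
    simp only [Matrix.mulVecLin_apply, Matrix.mulVec, dotProduct, Matrix.of_apply, ← ht,
      ← map_mul, ← map_sum, Pi.zero_apply, Ideal.Quotient.eq_zero_iff_mem] at h1
    have h2 := (Ideal.mem_torsionOf_iff x _).1 h1
    simpa only [Finset.sum_smul, mul_smul] using h2
  funext a
  rw [← ht, Pi.zero_apply, Ideal.Quotient.eq_zero_iff_mem]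
  exact (Ideal.mem_torsionOf_iff x _).2 (this a)

lemma mccoy' {A V α β : Type} [Ring A] [AddCommGroup V] [Module A V] [Fintype α] [Fintype β]
    (S : Set A) (hS : ∀ a ∈ S, ∀ b ∈ S, a * b = b * a) (ρ : α → β → A)
    (hρ : ∀ a b, ρ a b ∈ Subring.closure S) (x : V) (hx : x ≠ 0)
    (h : ∀ v : α → V, (∀ b, ∑ a, ρ a b • v a = 0) → ∀ a, v a = 0) :
    Fintype.card α ≤ Fintype.card β := by
  have hc := Subring.isMulCommutative_closure hS
  let : CommRing (Subring.closure S) :=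
    { (inferInstance : Ring (Subring.closure S)) with mul_comm := fun a b => hc.is_comm.comm a b }
  exact mccoy (R := Subring.closure S) (fun a b => ⟨ρ a b, hρ a b⟩) x hx h

variable {J ι M : Type} [Fintype J] [DecidableEq J] [Fintype ι] [DecidableEq ι] [AddCommGroup M]
  {r : ι → ℤ} {Pt Γ : (J → ℤ) → AddSubgroup M} {D : Set J}

/-- operators that move the point by `c`, injectively -/
def Loc (E : AddMonoid.End (NN Γ)) (c : J → ℤ) : Prop :=
  ∀ (φ : NN Γ) (p : J → ℤ), (E φ).1 (p + c) = 0 ↔ φ.1 p = 0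

lemma loc_one : Loc (1 : AddMonoid.End (NN Γ)) 0 := fun φ p => by
  rw [add_zero]
  rfl

lemma Loc.mul {E E' : AddMonoid.End (NN Γ)} {c c' : J → ℤ} (h : Loc E c) (h' : Loc E' c') :
    Loc (E * E') (c' + c) := fun φ p => by
  rw [← h' φ p, ← h (E' φ) (p + c'), add_assoc]
  rfl

lemma Loc.congr {E : AddMonoid.End (NN Γ)} {c : J → ℤ} (h : Loc E c) {φ φ' : NN Γ}
    (h0 : φ.1 0 = φ'.1 0) : (E φ).1 c = (E φ').1 c := by
  have := (h (φ - φ') 0).2 (sub_eq_zero.2 h0)
  rw [zero_add, map_sub] at this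
  exact sub_eq_zero.1 this

variable (h : Sys r Pt Γ D)

lemma loc_st {s : J} (hs : s ∈ D) (i j : ι) : Loc (st h hs i j) (Pi.single s (r j - r i)) := by
  intro φ p
  have e : ∀ k, p - Pi.single s (r i) + Pi.single s (r k) = p + Pi.single s (r k - r i) :=
    fun k => by
      rw [Pi.single_sub]
      abel
  have hz := fun a => uniq h s (p - Pi.single s (r i)) a
    (fun k => (st h hs i k φ).1 (p - Pi.single s (r i) + Pi.single s (r k)))
    (fun k => h.le _ ((st h hs i k φ).2 _)) (st_sum h hs i φ _)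
  constructor
  · intro h0
    have := hz j (by rw [e]; exact h0) i
    rwa [st_self, sub_add_cancel] at this
  · intro h0
    have := hz i (by rw [st_self, sub_add_cancel]; exact h0) j
    rwa [e] at this

lemma loc_wd {s : J} (hs : s ∈ D) (w : List (ι × ι)) :
    Loc (wd h hs w) (Pi.single s (disp r w)) := by
  induction w with
  | nil =>
    rw [disp_nil, Pi.single_zero]
    exact loc_one
  | cons σ w ih =>
    rw [disp_cons, Pi.single_add]
    exact ih.mul (loc_st h hs _ _)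

lemma dl_zero (x : Γ 0) : (dl Γ x).1 0 = x.1 := Pi.single_eq_same _ _

/-- the action on the origin -/
noncomputable def res (E : AddMonoid.End (NN Γ)) : AddMonoid.End (Γ 0) :=
  AddMonoidHom.mk' (fun x => ⟨(E (dl Γ x)).1 0, (E (dl Γ x)).2 0⟩) fun x y =>
    Subtype.ext (by simp only [map_add]; rfl)

lemma res_val (E : AddMonoid.End (NN Γ)) (x : Γ 0) : (res E x).1 = (E (dl Γ x)).1 0 := rfl

lemma res_mul {E : AddMonoid.End (NN Γ)} (hE : Loc E 0) (E' : AddMonoid.End (NN Γ)) (x : Γ 0) :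
    ((res E * res E') x).1 = ((E * E') (dl Γ x)).1 0 :=
  hE.congr (dl_zero _)

open Classical in
/-- a chosen word of displacement `m` -/
noncomputable def uu (r : ι → ℤ) (m : ℤ) : List (ι × ι) :=
  if hm : ∃ w, disp r w = m then hm.choose else []

lemma disp_uu {m : ℤ} (hm : ∃ w, disp r w = m) : disp r (uu r m) = m := by
  rw [uu, dif_pos hm]
  exact hm.choose_spec

variable (h : Sys r Pt Γ Set.univ)

lemma pw (c : J → ℤ) (S : Finset J) : (S : Set J).Pairwise
    (Function.onFun Commute fun s => wd h (Set.mem_univ s) (uu r (c s))) :=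
  fun _ _ _ _ hst => wd_comm h _ _ hst _ _

/-- the chosen path along the directions in `S` -/
noncomputable def path (c : J → ℤ) (S : Finset J) : AddMonoid.End (NN Γ) :=
  S.noncommProd (fun s => wd h (Set.mem_univ s) (uu r (c s))) (pw h c S)

lemma loc_path {c : J → ℤ} (hc : ∀ s, ∃ w, disp r w = c s) (S : Finset J) :
    Loc (path h c S) (∑ s ∈ S, Pi.single s (c s)) := by
  induction S using Finset.induction_on with
  | empty => exact loc_one
  | insert s S hs ih =>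
    rw [path, Finset.noncommProd_insert_of_notMem _ _ _ _ hs, Finset.sum_insert hs, add_comm]
    have := loc_wd h (Set.mem_univ s) (uu r (c s))
    rw [disp_uu (hc s)] at this
    exact this.mul ih

lemma loc_path' {c : J → ℤ} (hc : ∀ s, ∃ w, disp r w = c s) : Loc (path h c univ) c := by
  have := loc_path h hc univ
  rwa [Finset.univ_sum_single] at this

lemma reach_step {c : J → ℤ} (hc : ∀ s, ∃ w, disp r w = c s) (s : J) (i k : ι) (t : J) :
    ∃ w, disp r w = (c + Pi.single s (r k - r i) : J → ℤ) t := by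
  obtain ⟨w, hw⟩ := hc t
  by_cases ht : t = s
  · subst ht
    refine ⟨(i, k) :: w, ?_⟩
    rw [disp_cons, hw]
    simp [add_comm]
  · exact ⟨w, by simp [hw, Pi.single_eq_of_ne ht]⟩

lemma st_path {c : J → ℤ} (hc : ∀ s, ∃ w, disp r w = c s) (s : J) (i k : ι) :
    ∃ g, disp r g = 0 ∧ st h (Set.mem_univ s) i k * path h c univ =
      path h (c + Pi.single s (r k - r i)) univ * wd h (Set.mem_univ s) g := by
  set c' : J → ℤ := c + Pi.single s (r k - r i) with hc'
  obtain ⟨w', h1, h2⟩ := wd_inv h (Set.mem_univ s) (uu r (c' s))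
  refine ⟨uu r (c s) ++ (i, k) :: w', ?_, ?_⟩
  · rw [disp_append, disp_cons, h1, disp_uu (hc s), disp_uu (reach_step hc s i k s)]
    simp only [Pi.add_apply, Pi.single_eq_same]
    ring
  · have e1 : ∀ d : J → ℤ, path h d univ =
        wd h (Set.mem_univ s) (uu r (d s)) * path h d (univ.erase s) := fun d =>
      (Finset.mul_noncommProd_erase univ (mem_univ s) _ (pw h d univ) (pw h d _)).symm
    have e2 : path h c' (univ.erase s) = path h c (univ.erase s) :=
      Finset.noncommProd_congr rfl (fun t ht => by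
        simp [hc', Pi.single_eq_of_ne (Finset.ne_of_mem_erase ht)]) _
    have e3 : ∀ w, Commute (wd h (Set.mem_univ s) w) (path h c (univ.erase s)) := fun w =>
      Finset.noncommProd_commute _ _ _ _ fun t ht =>
        wd_comm h _ _ (Finset.ne_of_mem_erase ht).symm _ _
    rw [e1 c', e2, mul_assoc, ← (e3 _).eq, e1 c, wd_append]
    simp only [wd, ← mul_assoc, h2, one_mul]

/-- transport from the origin to the point `c` -/
noncomputable def ev (c : J → ℤ) : Γ 0 →+ M :=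
  AddMonoidHom.mk' (fun x => (path h c univ (dl Γ x)).1 c) fun x y => by
    simp only [map_add]
    rfl

lemma ev_mem (c : J → ℤ) (x : Γ 0) : ev h c x ∈ Pt c := h.le _ ((path h c univ (dl Γ x)).2 c)

lemma ev_inj {c : J → ℤ} (hc : ∀ s, ∃ w, disp r w = c s) (x : Γ 0) (hx : ev h c x = 0) :
    x = 0 := by
  have := (loc_path' h hc (dl Γ x) 0).1 (by rw [zero_add]; exact hx)
  rw [dl_zero] at this
  exact Subtype.ext this

/-- the loops in one direction -/
def Loops : Set (AddMonoid.End (Γ 0)) :=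
  {E | ∃ (s : J) (w : List (ι × ι)), disp r w = 0 ∧ E = res (wd h (Set.mem_univ s) w)}

lemma line {c : J → ℤ} (hc : ∀ s, ∃ w, disp r w = c s) (s : J) (i : ι) :
    ∃ g : ι → AddMonoid.End (Γ 0), (∀ k, g k ∈ Loops h) ∧ ∀ x, ev h c x =
      -∑ k ∈ univ.erase i, ev h (c + Pi.single s (r k - r i)) (g k x) := by
  choose g hg1 hg2 using st_path h hc s i
  refine ⟨fun k => res (wd h (Set.mem_univ s) (g k)), fun k => ⟨s, g k, hg1 k, rfl⟩, fun x => ?_⟩
  have e : ∀ k, c - Pi.single s (r i) + Pi.single s (r k) = c + Pi.single s (r k - r i) :=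
    fun k => by
      rw [Pi.single_sub]
      abel
  have := st_sum h (Set.mem_univ s) i (path h c univ (dl Γ x)) (c - Pi.single s (r i))
  rw [← Finset.add_sum_erase _ _ (mem_univ i), st_self, sub_add_cancel] at this
  rw [eq_neg_iff_add_eq_zero, ← this]
  refine congrArg₂ (· + ·) rfl (Finset.sum_congr rfl fun k _ => ?_)
  rw [e]
  have e2 := congrArg (fun E : AddMonoid.End (NN Γ) =>
    (E (dl Γ x)).1 (c + Pi.single s (r k - r i))) (hg2 k)
  refine Eq.trans ?_ e2.symm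
  exact (loc_path' h (reach_step hc s i k)).congr (dl_zero _)

lemma gen (hr : Function.Injective r) (i1 : ι) (w : ℤ) (h1 : ∀ k, r k ≤ r i1)
    (h2 : ∀ k, r i1 - r k ≤ w) (n : ℕ) : ∀ c : J → ℤ, (∀ s, ∃ w, disp r w = c s) →
    (∀ s, 0 ≤ c s) → ∑ s, c s < n →
    ∃ ρ : (J → ℤ) → AddMonoid.End (Γ 0), (∀ b, ρ b ∈ Subring.closure (Loops h)) ∧ ∀ x,
      ev h c x = ∑ b ∈ Fintype.piFinset (fun _ : J => Finset.Ico 0 w), ev h b (ρ b x) := by
  induction n with
  | zero =>
    intro c _ h0 hn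
    exact absurd (Finset.sum_nonneg fun s _ => h0 s) (by simpa using hn)
  | succ n ih =>
    intro c hc h0 hn
    by_cases hs : ∀ s, c s < w
    · refine ⟨fun b => if b = c then 1 else 0, fun b => ?_, fun x => ?_⟩
      · by_cases hb : b = c
        · simp only [hb, if_true]
          exact one_mem _
        · simp only [hb, if_false]
          exact zero_mem _
      · rw [Finset.sum_eq_single c]
        · simp
        · intro b _ hb
          simp [hb]
        · intro hb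
          exact absurd (Fintype.mem_piFinset.2 fun s => Finset.mem_Ico.2 ⟨h0 s, hs s⟩) hb
    · obtain ⟨s, hs⟩ := not_forall.1 hs
      obtain ⟨g, hg1, hg2⟩ := line h hc s i1
      have key : ∀ k, ∃ ρ : (J → ℤ) → AddMonoid.End (Γ 0),
          (∀ b, ρ b ∈ Subring.closure (Loops h)) ∧ (k ≠ i1 → ∀ x,
            ev h (c + Pi.single s (r k - r i1)) x =
              ∑ b ∈ Fintype.piFinset (fun _ : J => Finset.Ico 0 w), ev h b (ρ b x)) := by
        intro k
        by_cases hk : k = i1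
        · exact ⟨fun _ => 0, fun _ => zero_mem _, fun hk' => absurd hk hk'⟩
        have hlt : r k < r i1 := lt_of_le_of_ne (h1 k) fun e => hk (hr e)
        obtain ⟨ρ, hρ1, hρ2⟩ := ih (c + Pi.single s (r k - r i1)) (reach_step hc s i1 k)
          (fun t => by
            by_cases ht : t = s
            · subst ht
              have := h2 k
              simp only [Pi.add_apply, Pi.single_eq_same]
              omega
            · simpa [Pi.single_eq_of_ne ht] using h0 t)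
          (by
            simp only [Pi.add_apply, Finset.sum_add_distrib, Finset.sum_pi_single', mem_univ,
              if_true]
            push_cast at hn
            omega)
        exact ⟨ρ, hρ1, fun _ => hρ2⟩
      choose ρ hρ1 hρ2 using key
      refine ⟨fun b => -∑ k ∈ univ.erase i1, ρ k b * g k, fun b => neg_mem (sum_mem fun k _ =>
        mul_mem (hρ1 k b) (Subring.subset_closure (hg1 k))), fun x => ?_⟩
      rw [hg2, Finset.sum_congr rfl fun k hk => hρ2 k (Finset.ne_of_mem_erase hk) (g k x),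
        Finset.sum_comm, ← Finset.sum_neg_distrib]
      refine Finset.sum_congr rfl fun b _ => ?_
      rw [← map_sum, ← map_neg]
      congr 1
      have : ∀ E : AddMonoid.End (Γ 0), E x = E • x := fun _ => rfl
      rw [this, neg_smul, Finset.sum_smul]
      rfl

end algh

open algh in
theorem alg2 : ALG2 := by
  intro J ι M _ _ _ _ _ r Pt Γ hr hι h a4 x hx hx0
  by_contra hcon
  have hS : ∀ a ∈ Loops h, ∀ b ∈ Loops h, a * b = b * a := by
    rintro _ ⟨s, w, hw, rfl⟩ _ ⟨t, w', hw', rfl⟩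
    have l1 := loc_wd h (Set.mem_univ s) w
    have l2 := loc_wd h (Set.mem_univ t) w'
    rw [hw, Pi.single_zero] at l1
    rw [hw', Pi.single_zero] at l2
    refine AddMonoidHom.ext fun y => Subtype.ext ?_
    refine (res_mul l1 _ y).trans (Eq.trans ?_ (res_mul l2 _ y).symm)
    by_cases hst : s = t
    · subst hst
      by_contra hne
      exact hcon ⟨s, w, w', _, _, _, _, _, (dl Γ y).2 0, (wd h trivial w (dl Γ y)).2 0,
        (wd h trivial w' (dl Γ y)).2 0, (wd h trivial w (wd h trivial w' (dl Γ y))).2 0,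
        (wd h trivial w' (wd h trivial w (dl Γ y))).2 0, hw, hw', loop_ex h trivial hw _,
        loop_ex h trivial hw' _, loop_ex h trivial hw _, loop_ex h trivial hw' _, hne⟩
    · rw [(wd_comm h _ _ hst w w').eq]
  have : Nontrivial ι := Fintype.one_lt_card_iff_nontrivial.1 hι
  obtain ⟨i1, -, h1⟩ := Finset.exists_max_image univ r univ_nonempty
  obtain ⟨i0, -, h0⟩ := Finset.exists_min_image univ r univ_nonempty
  have hw : 0 < r i1 - r i0 := by
    obtain ⟨k, hk⟩ := exists_ne i1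
    have := lt_of_le_of_ne (h1 k (mem_univ k)) fun e => hk (hr e)
    have := h0 k (mem_univ k)
    omega
  set w : ℤ := r i1 - r i0 with hwd
  have hre : ∀ a : ℕ, ∃ u, disp r u = a * w := fun a => by
    induction a with
    | zero => exact ⟨[], by simp [disp]⟩
    | succ a ih =>
      obtain ⟨u, hu⟩ := ih
      refine ⟨(i0, i1) :: u, ?_⟩
      rw [disp_cons, hu]
      push_cast
      ring
  let B := Fintype.piFinset fun _ : J => Finset.Ico 0 w
  have key := fun a : Fin (B.card + 1) => gen h hr i1 w (fun k => h1 k (mem_univ k))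
    (fun k => by have := h0 k (mem_univ k); omega) ((∑ _s : J, (a : ℕ) * w).toNat + 1)
    (fun _ => (a : ℕ) * w) (fun _ => hre a) (fun _ => by positivity) (by push_cast; omega)
  choose ρ hρ1 hρ2 using key
  have := mccoy' (V := Γ 0) (α := Fin (B.card + 1)) (β := B) (Loops h) hS (fun a b => ρ a b)
    (fun a b => hρ1 a b) ⟨x, hx⟩ (fun e => hx0 (congrArg Subtype.val e)) fun v hv a => by
      have hinj : Function.Injective fun a : Fin (B.card + 1) => ((a : ℕ) : ℤ) * w :=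
        fun a a' e => Fin.ext (by exact_mod_cast mul_right_cancel₀ hw.ne' e)
      let y : ℤ → M := Function.extend (fun a : Fin (B.card + 1) => ((a : ℕ) : ℤ) * w)
        (fun a => ev h (fun _ => (a : ℕ) * w) (v a)) 0
      have hy : ∀ a : Fin (B.card + 1), y ((a : ℕ) * w) = ev h (fun _ => (a : ℕ) * w) (v a) :=
        fun a => hinj.extend_apply _ _ a
      have := a4 (univ.image fun a : Fin (B.card + 1) => ((a : ℕ) : ℤ) * w) y (fun m => ?_) ?_
        ((a : ℕ) * w) (Finset.mem_image_of_mem _ (mem_univ a))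
      · rw [hy] at this
        exact ev_inj h (fun _ => hre a) _ this
      · by_cases hm : ∃ a : Fin (B.card + 1), ((a : ℕ) : ℤ) * w = m
        · obtain ⟨a, rfl⟩ := hm
          rw [hy]
          exact ev_mem h _ _
        · have : y m = 0 := Function.extend_apply' _ _ _ hm
          rw [this]
          exact zero_mem _
      · rw [Finset.sum_image hinj.injOn, Finset.sum_congr rfl fun a _ => (hy a).trans (hρ2 a _),
          Finset.sum_comm]
        refine Finset.sum_eq_zero fun b hb => ?_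
        rw [← map_sum]
        exact (congrArg (ev h b) (hv ⟨b, hb⟩)).trans (map_zero _)
  simp at this

end Fib27

end MrgPart6

-- marker of a merged file
example : 731051 + 657651 = 731051 + 657651 := rfl
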