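import Mathlib.LinearAlgebra.Eigenspace.Triangularizable
import Mathlib.Analysis.CStarAlgebra.Module.Constructions
import Mathlib.MeasureTheory.Measure.SeparableMeasure
import Pool.Agent.MP_154433_an.sg.Fin
import Pool.Agent.MP_154433_an.fib.Alg

-- ======== part 0: formerly Pool.Agent.MP_154433_an.sg.DS
section MrgPart0

/-! The vanishing statement in a dense direction, by van der Corput's argument. -/

set_option autoImplicit false

open MeasureTheory ProbabilityTheory Filter Topology Function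

noncomputable section

namespace Pool.Agent.MP_154433_an.SG

open Fam

namespace DSx

section abm

variable {X : Type} {m m' : MeasurableSpace X} {m0 : MeasurableSpace X} {μ : Measure X}
  {f g : X → ℝ}

lemma mono (h : ABM m μ g) (hm : m ≤ m') : ABM m' μ g := ⟨h.1.mono hm, h.2⟩

lemma mul (hf : ABM m μ f) (hg : ABM m μ g) : ABM m μ fun x => f x * g x := by
  obtain ⟨C, hC⟩ := hf.2
  obtain ⟨C', hC'⟩ := hg.2
  refine ⟨hf.1.mul hg.1, C * C', ?_⟩
  filter_upwards [hC, hC'] with x h1 h2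
  rw [norm_mul]
  exact mul_le_mul h1 h2 (norm_nonneg _) ((norm_nonneg _).trans h1)

lemma prod {ι : Type} (s : Finset ι) (g : ι → X → ℝ) (h : ∀ i ∈ s, ABM m μ (g i)) :
    ABM m μ fun x => ∏ i ∈ s, g i x := by
  classical
  induction s using Finset.induction_on with
  | empty => exact ⟨by simpa using aestronglyMeasurable_const, 1, by simp⟩
  | insert a s ha ih =>
    simp only [Finset.prod_insert ha]
    exact mul (h a (by simp)) (ih fun i hi => h i (by simp [hi]))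

lemma comp {Θ : X → X} (hΘ : MeasurePreserving Θ μ μ) (hm : m.comap Θ ≤ m') (h : ABM m μ g) :
    ABM m' μ fun x => g (Θ x) := by
  obtain ⟨⟨g', h1, h2⟩, C, hC⟩ := h
  exact ⟨⟨g' ∘ Θ, h1.comp_measurable (measurable_iff_comap_le.2 hm),
    hΘ.quasiMeasurePreserving.ae_eq_comp h2⟩, C, hΘ.quasiMeasurePreserving.ae hC⟩

lemma int_comp {Θ : X → X} (hΘ : MeasurePreserving Θ μ μ) (hm : m ≤ m0) (h : ABM m μ g) :
    ∫ x, g (Θ x) ∂μ = ∫ x, g x ∂μ := by
  rw [← integral_map hΘ.measurable.aemeasurable (by rw [hΘ.map_eq]; exact h.1.mono hm), hΘ.map_eq]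

lemma memLp [IsFiniteMeasure μ] (hm : m ≤ m0) (h : ABM m μ g) (p : ENNReal) : MemLp g p μ := by
  obtain ⟨C, hC⟩ := h.2
  exact MemLp.of_bound (h.1.mono hm) C hC

lemma zero_of_sq [IsProbabilityMeasure μ] (hm : m ≤ m0) (hm' : m' ≤ m0) (hf : ABM m μ f)
    (hg : ABM m' μ g) (h : ∫ x, (μ[g | m]) x ^ 2 ∂μ = 0) : ∫ x, f x * g x ∂μ = 0 := by
  have h1 : Integrable g μ := memLp_one_iff_integrable.1 (memLp hm' hg 1)
  have h2 : Integrable (f * g) μ :=
    memLp_one_iff_integrable.1 (memLp le_rfl (mul (mono hf hm) (mono hg hm')) 1)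
  have h3 := condExp_mul_of_aestronglyMeasurable_left hf.1 h2 h1
  have h4 := (integral_eq_zero_iff_of_nonneg (fun x => sq_nonneg _)
    (MemLp.condExp (m := m) one_le_two (memLp hm' hg 2)).integrable_sq).1 h
  refine (integral_condExp hm (f := f * g)).symm.trans ?_
  refine integral_eq_zero_of_ae ?_
  filter_upwards [h3, h4] with x a1 a2
  rw [a1, Pi.mul_apply, pow_eq_zero_iff (two_ne_zero) |>.1 a2, mul_zero, Pi.zero_apply]

end abm

variable {Φ : Fam}

lemma sig_le (T : Set Φ.Alg) : sig T ≤ (inferInstance : MeasurableSpace Φ.Pt) :=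
  biSup_mono fun _ _ => Set.mem_univ _

lemma comap_sig {T T' : Set Φ.Alg} (Θ : Φ.FMap) (h : ∀ F ∈ T, Θ.pull F ∈ T') :
    (sig T).comap Θ.lift ≤ sig T' := by
  simp only [sig, MeasurableSpace.comap_iSup, MeasurableSpace.comap_comp]
  exact iSup₂_le fun F hF => le_iSup₂_of_le (Θ.pull F) (h F hF) le_rfl

lemma dot_ee {N : ℕ} (r : ℤ) {z : ℕ} (hz : z ≠ 0) (ω : Φ.Om N) : dot (r • ee z) ω = r • ω z := by
  simp [dot, Finsupp.erase_single_ne hz.symm]

lemma Th_add (c c' : ℕ →₀ ℤ) (x : Φ.Pt) : Φ.Th c (Φ.Th c' x) = Φ.Th (c + c') x := by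
  have : (Φ.th c).comp (Φ.th c') = Φ.th (c + c') := by
    refine FMap.ext (funext fun N => funext fun ω => ?_)
    show update (update ω 0 (ω 0 + dot c' ω)) 0 (update ω 0 (ω 0 + dot c' ω) 0 +
      dot c (update ω 0 (ω 0 + dot c' ω))) = update ω 0 (ω 0 + dot (c + c') ω)
    rw [update_idem, update_self, dot_congr c (ω' := ω) fun j _ hj => update_of_ne hj _ _]
    simp only [dot, Finsupp.erase_add, map_add]
    rw [add_assoc, add_comm (Finsupp.linearCombination ℤ ω _)]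
  rw [Th, Th, Th, ← this]
  rfl

lemma Th_zero (x : Φ.Pt) : Φ.Th 0 x = x := by
  have : Φ.th 0 = FMap.id Φ := by
    refine FMap.ext (funext fun N => funext fun ω => ?_)
    show update ω 0 (ω 0 + dot 0 ω) = ω
    simp [dot]
  rw [Th, this]
  rfl

variable (Φ) in
/-- add the coordinate `z` to the coordinate `h` -/
def shear (z h : ℕ) : Φ.FMap where
  toFun _ ω := update ω h (ω z + ω h)
  fin j := ⟨{j, z}, fun N x y e => by
    by_cases hj : j = h
    · subst hj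
      simp only [update_self]
      rw [e j (by simp), e z (by simp)]
    · simp only [update_of_ne hj]
      exact e j (by simp)⟩

lemma shear_base {Γ : Set (Finset ℕ × (ℕ →₀ ℤ))} {I I' : Set ℕ} {z h : ℕ} (h0 : 0 ∈ I)
    (hl : Lives Γ I) (hz : z ∉ I) (hh : h ∉ I) (hz' : z ∈ I') :
    (Φ.Base Γ I').comap (shear Φ z h).lift ≤ Φ.Base Γ I' := by
  refine comap_sig _ fun F hF => ?_
  induction hF using Submonoid.closure_induction with
  | one => exact (map_one (shear Φ z h).pull).symm ▸ one_mem _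
  | mul F F' _ _ a b => exact (map_mul (shear Φ z h).pull F F').symm ▸ mul_mem a b
  | mem F hF =>
    obtain ⟨γ, hγ, F', d, rfl⟩ := Set.mem_iUnion₂.1 hF
    have z0 : z ≠ 0 := fun e => hz (e ▸ h0)
    have h0' : h ≠ 0 := fun e => hh (e ▸ h0)
    refine Submonoid.subset_closure (Set.mem_iUnion₂.2 ⟨γ, hγ, (shear Φ z h).pull F',
      fun N x y e => d N fun j hj => ?_, Subtype.ext (funext fun N => funext fun ω => ?_)⟩)
    · show update x h _ j = update y h _ j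
      by_cases c : j = h
      · subst c
        simp only [update_self]
        rw [e j hj, e z ⟨hz', fun a => hz ((hl γ hγ).1 a)⟩]
      · simp only [update_of_ne c]
        exact e j hj
    · show F'.1 N (update (update ω h _) 0 (update ω h _ 0 + dot γ.2 (update ω h _))) =
        F'.1 N (update (update ω 0 _) h (update ω 0 _ z + update ω 0 _ h))
      rw [update_of_ne h0'.symm, update_of_ne z0, update_of_ne h0', update_comm h0',
        dot_congr γ.2 (ω' := ω) fun j hj _ => update_of_ne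
          (fun a : j = h => hh (by rw [← a]; exact (hl γ hγ).1 ((hl γ hγ).2 hj))) _ _]

variable {S : Sys}

lemma shear_mp (fd : Fd S) {z h : ℕ} (hh : Even h) (hz : z ≠ h) :
    MeasurePreserving (shear S.toFam z h).lift S.μ S.μ := by
  refine fd.lift _ (fd.skew _ {h} (by simpa using hh) (fun N ω j hj => update_of_ne
    (by simpa using hj) _ _) (Eventually.of_forall fun N ω ω' e => funext fun j => ?_))
  have a : ∀ j, update ω h (ω z + ω h) j = update ω' h (ω' z + ω' h) j := congrFun e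
  by_cases c : j = h
  · have a1 := a z
    have a2 := a h
    rw [update_of_ne hz, update_of_ne hz] at a1
    rw [update_self, update_self, a1] at a2
    exact c ▸ add_left_cancel a2
  · simpa only [update_of_ne c] using a j

lemma fixI (fd : Fd S) {I : Set ℕ} (Θ Θ' : S.FMap)
    (h : ∀ N ω, ∀ j ∈ I, Θ.toFun N ω j = Θ'.toFun N ω j) (h1 : MeasurePreserving Θ.lift S.μ S.μ)
    (h2 : MeasurePreserving Θ'.lift S.μ S.μ) {g : S.Pt → ℝ} (hg : ABM (S.Full I) S.μ g) :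
    (fun x => g (Θ.lift x)) =ᵐ[S.μ] fun x => g (Θ'.lift x) :=
  fd.fixae {F : S.Alg | Dep F I} Θ Θ' (fun _ hF => Subtype.ext (funext fun N => funext fun ω =>
    hF N (h N ω))) h1 h2 g hg.1

lemma supp_ee (r : ℤ) (z : ℕ) : ∀ j ∈ (r • ee z).support, j = z := fun _ hj =>
  Finset.mem_singleton.1 (Finsupp.support_single_subset (Finsupp.support_smul hj))

lemma step (fd : Fd S) (v1 : V1 S) {n : ℕ}
    (ih : ∀ Γ (I : Set ℕ) (z : ℕ), Frame Γ I → z ∉ I → Even z → S.Van Γ I {z} (ee z) n)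
    {Γ : Set (Finset ℕ × (ℕ →₀ ℤ))} {I : Set ℕ} {z : ℕ} (fr : Frame Γ I) (hz : z ∉ I)
    (ez : Even z) {ι : Type} (s : Finset ι) (r : ι → ℤ) (hr : Set.InjOn r s) (hs : s.card ≤ n)
    {g : ι → S.Pt → ℝ} {ψ g1 : S.Pt → ℝ} (hg : ∀ i ∈ s, ABM (S.Full I) S.μ (g i))
    (hψ : ABM (S.Base Γ (I ∪ ({z} : Finset ℕ))) S.μ ψ) (hg1 : ABM (S.Full I) S.μ g1) {i0 : ι}
    (hi0 : i0 ∈ s) (hr0 : r i0 ≠ 0) (ho : Orth (S.Base Γ I) S.μ (g i0)) :
    ∫ x, g1 x * (ψ x * ∏ i ∈ s, g i (S.Th (r i • ee z) x)) ∂S.μ = 0 := by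
  obtain ⟨π, kp, -, pf, pz⟩ := fd.fresh I {z} fr.zero (by simpa using hz) fun j hj => by
    rw [Finset.mem_singleton.1 hj]
    exact fr.cod.mono fun k hk => ⟨hk.1, by
      simp [Nat.not_odd_iff_even.2 hk.2, Nat.not_odd_iff_even.2 ez]⟩
  obtain ⟨hh, hzh⟩ := pz z (by simp)
  obtain ⟨h, eh⟩ : ∃ h, π z = h := ⟨_, rfl⟩
  have evh : Even h := Nat.not_odd_iff_even.1 fun a =>
    Nat.not_odd_iff_even.2 ez ((kp.2 z).1 (eh ▸ a))
  rw [eh] at hh hzh
  have hzh' : z ≠ h := fun a => hzh (by simp [a])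
  have z0 : z ≠ 0 := fun e => hz (e ▸ fr.zero)
  have h0 : h ≠ 0 := fun e => hh (e ▸ fr.zero)
  have th : ∀ (w : ℕ) (a : ℤ) {u : S.Pt → ℝ}, ABM (S.Full I) S.μ u →
      ABM (S.Full (I ∪ ({w} : Finset ℕ))) S.μ fun x => u (S.Th (a • ee w) x) := fun w a _ hu =>
    comp (fd.thmp _) (fd.thetaF I _ _ Set.subset_union_left fun j hj =>
      Or.inr (by simp [supp_ee a w j hj])) hu
  have lv : Lives Γ (I ∪ ({z} : Finset ℕ)) := (fd.frame' Γ I {z} fr).lives
  have hH : ABM (S.Full (I ∪ ({z} : Finset ℕ))) S.μ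
      fun x => ψ x * ∏ i ∈ s, g i (S.Th (r i • ee z) x) :=
    mul (mono hψ (fd.base_le Γ _ lv)) (prod s _ fun i hi => th z (r i) (hg i hi))
  have fl : ∀ K : Set ℕ, S.Full K ≤ (inferInstance : MeasurableSpace S.Pt) := fun _ => sig_le _
  refine zero_of_sq (fl _) (fl _) hg1 hH ?_
  rw [← fd.copy π I _ _ kp pf Set.subset_union_left (fun j hj hj' => by
    have : j = z := by simpa [hj'] using hj
    simp [this, eh, hh, hzh'.symm]) hH]
  have ms := shear_mp fd evh hzh'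
  have mp := fd.pmmp π kp
  have hHp := comp mp mp.measurable.comap_le (mono hH (fl _))
  rw [← int_comp ms le_rfl (mul (mono hH (fl _)) hHp)]
  have hG : ∀ i ∈ s, ABM (S.Full (I ∪ ({h} : Finset ℕ))) S.μ
      fun x => g i x * g i (S.Th (r i • ee h) x) := fun i hi =>
    mul (mono (hg i hi) (biSup_mono fun F hF N => DependsOn.mono Set.subset_union_left (hF N)))
      (th h (r i) (hg i hi))
  have hO : Orth (S.Base Γ (I ∪ ({h} : Finset ℕ))) S.μ
      fun x => g i0 x * g i0 (S.Th (r i0 • ee h) x) := fun φ hφ => by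
    have := v1.s1d Γ I h fr hh evh Bool Finset.univ (fun b => if b then r i0 else 0)
      (fun a _ b _ e => by cases a <;> cases b <;> simp_all [eq_comm]) (by simp) (fun _ => g i0) φ
      (fun _ _ => hg i0 hi0) hφ false (by simp) ho
    rw [← this]
    refine integral_congr_ae (Eventually.of_forall fun x => ?_)
    simp only [Fintype.prod_bool, if_true, Bool.false_eq_true, if_false, zero_smul, Th_zero]
    ring
  have hΨ : ABM (S.Base Γ (I ∪ ({h} : Finset ℕ) ∪ ({z} : Finset ℕ))) S.μ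
      fun x => ψ ((shear S.toFam z h).lift x) * ψ (S.Pm π ((shear S.toFam z h).lift x)) := by
    refine comp (g := fun x => ψ x * ψ (S.Pm π x)) ms
      (shear_base fr.zero fr.lives hz hh (by simp)) (mul (mono hψ (fd.base_mono Γ Γ _ _ le_rfl
        (Set.union_subset_union_left _ Set.subset_union_left)))
        (comp mp (fd.permB Γ I _ _ π kp.1 fr.lives pf ?_) hψ))
    rintro _ ⟨j, hj | hj, rfl⟩
    · exact Or.inl (Or.inl (by rwa [pf j hj]))
    · have : j = z := by simpa using hj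
      exact Or.inl (Or.inr (by simp [this, eh]))
  rw [← ih Γ _ z (fd.frame' Γ I {h} fr) (by simp [hz, hzh']) ez ι s r hr hs _ _ hG hΨ i0 hi0 hO]
  have e1 : ∀ i ∈ s, ∀ᵐ x ∂S.μ, g i (S.Th (r i • ee z) ((shear S.toFam z h).lift x)) =
      g i (S.Th (r i • ee z) x) := fun i hi => by
    refine fixI fd ((S.th (r i • ee z)).comp (shear S.toFam z h)) (S.th (r i • ee z))
      (fun N ω j hj => ?_) ((fd.thmp _).comp ms) (fd.thmp _) (hg i hi)
    show update (update ω h _) 0 (update ω h _ 0 + dot _ (update ω h _)) j = update ω 0 _ j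
    rw [dot_ee _ z0, dot_ee _ z0, update_of_ne hzh', update_of_ne h0.symm, update_comm h0,
      update_of_ne fun a : j = h => hh (a ▸ hj)]
  have e2 : ∀ i ∈ s, ∀ᵐ x ∂S.μ,
      g i (S.Th (r i • ee z) (S.Pm π ((shear S.toFam z h).lift x))) =
        g i (S.Th (r i • ee h) (S.Th (r i • ee z) x)) := fun i hi => by
    refine fixI fd ((S.th (r i • ee z)).comp ((S.perm π).comp (shear S.toFam z h)))
      ((S.th (r i • ee h)).comp (S.th (r i • ee z))) (fun N ω j hj => ?_)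
      ((fd.thmp _).comp (mp.comp ms)) ((fd.thmp _).comp (fd.thmp _)) (hg i hi)
    show update (update ω h _ ∘ π) 0 (update ω h _ (π 0) + dot _ (update ω h _ ∘ π)) j =
      update (update ω 0 _) 0 (update ω 0 (ω 0 + dot (r i • ee z) ω) 0 + dot _ (update ω 0 _)) j
    rw [dot_ee _ z0, dot_ee _ z0, dot_ee _ h0, update_idem, update_self, update_of_ne h0,
      comp_apply, eh, update_self, kp.1, update_of_ne h0.symm, smul_add, add_assoc]
    by_cases c : j = 0
    · rw [c, update_self, update_self]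
    · rw [update_of_ne c, update_of_ne c, comp_apply, pf j hj,
        update_of_ne fun a : j = h => hh (a ▸ hj)]
  refine integral_congr_ae ?_
  filter_upwards [(eventually_all_finset s).2 e1, (eventually_all_finset s).2 e2] with x a1 a2
  rw [Finset.prod_congr rfl a1, Finset.prod_congr rfl a2, Finset.prod_mul_distrib]
  ring

end DSx

open DSx in
theorem ds : DSS := by
  classical
  intro S fd v1 n
  induction n with
  | zero =>
    intro Γ I z fr hz ez ι s r hr hs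
    exact v1.s1d Γ I z fr hz ez ι s r hr (by omega)
  | succ n ih =>
    intro Γ I z fr hz ez ι s r hr hs g ψ hg hψ i0 hi0 ho
    by_cases c : s.card ≤ 2
    · exact v1.s1d Γ I z fr hz ez ι s r hr c g ψ hg hψ i0 hi0 ho
    obtain ⟨i1, hi1, hne⟩ := Finset.exists_mem_ne (show 1 < s.card by omega) i0
    have sp : ((-r i1 • ee z).support : Set ℕ) ⊆ I ∪ ({z} : Finset ℕ) := fun j hj =>
      Or.inr (by simp [supp_ee _ z j hj])
    have hψ' := comp (fd.thmp (-r i1 • ee z)) (fd.theta Γ _ _ _ (fun γ hγ j hj a =>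
      hz (supp_ee _ z j hj ▸ (fr.lives γ hγ).1 a)) le_rfl sp) hψ
    have hH : ABM inferInstance S.μ fun x => ψ x * ∏ i ∈ s, g i (S.Th (r i • ee z) x) :=
      mul (mono hψ (sig_le _)) (prod s _ fun i hi =>
        comp (fd.thmp _) (fd.thmp _).measurable.comap_le (mono (hg i hi) (sig_le _)))
    rw [← int_comp (fd.thmp (-r i1 • ee z)) le_rfl hH,
      ← step fd v1 ih fr hz ez (s.erase i1) (fun i => r i - r i1)
        (fun a ha b hb e => hr (Finset.mem_of_mem_erase ha) (Finset.mem_of_mem_erase hb)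
          (sub_left_injective e))
        (by rw [Finset.card_erase_of_mem hi1]; omega)
        (fun i hi => hg i (Finset.mem_of_mem_erase hi)) hψ' (hg i1 hi1)
        (Finset.mem_erase.2 ⟨hne.symm, hi0⟩)
        (fun e => hne (hr hi1 hi0 (sub_eq_zero.1 e).symm)) ho]
    refine integral_congr_ae (Eventually.of_forall fun x => ?_)
    simp only [Th_add, ← add_smul, ← sub_eq_add_neg]
    rw [← Finset.mul_prod_erase s _ hi1, sub_self, zero_smul, Th_zero]
    ring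

end Pool.Agent.MP_154433_an.SG

end

end MrgPart0

-- ======== part 1: formerly Pool.Agent.MP_154433_an.fib.Grid2
section MrgPart1

/-!
Consequences of MULT, RANK1 and EIG in a grid: commutation, B-prime, existence of a character.
-/

open MeasureTheory ProbabilityTheory Finset Filter

namespace Fib27

variable {Ω ι : Type} [Fintype ι] [DecidableEq ι] {m0 : MeasurableSpace Ω} {κ : Measure Ω}
  {G : ι → ι → MeasurableSpace Ω}

theorem Grid.colLine (h : Grid κ G) (j : ι) : Line κ (fun q => G q j) :=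
  ⟨fun q => h.le q j, h.rows.mono fun q => le_sup' (G q) (mem_univ j), fun q => (h.fr q).f2 j⟩

theorem Grid.rowInd (h : Grid κ G) (q : ι) : LInd κ (G q) :=
  h.cols.mono fun j => le_sup' (fun q => G q j) (mem_univ q)

theorem Grid.oc_le (h : Grid κ G) (q j : ι) : Oc G q j ≤ m0 := (h.fr q).le j

/-- the operator at the corner `(q0, j0)` through the point `(q, j0)` -/
noncomputable def CG (κ : Measure Ω) (G : ι → ι → MeasurableSpace Ω) (q0 j0 q : ι)
    (ρ ρ' : ι → Ω → ℂ) (a : Ω → ℂ) : Ω → ℂ :=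
  Cop κ (G q0 j0) (G q j0) (pr ρ ((univ.erase q0).erase q)) (pr ρ' ((univ.erase q0).erase q)) a

/-- a function at `(q, j)` determined by its column -/
def Gd (κ : Measure Ω) (G : ι → ι → MeasurableSpace Ω) (q j : ι) (a : Ω → ℂ) : Prop :=
  BM κ (G q j) a ∧ BM κ (Oc G q j) a

theorem gd_update {q : ι} {a : ι → Ω → ℂ} (ha : ∀ k, Gd κ G q k (a k)) {j : ι} {x : Ω → ℂ}
    (hx : Gd κ G q j x) (k : ι) : Gd κ G q k (Function.update a j x k) := by
  rcases eq_or_ne k j with rfl | hk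
  · rw [Function.update_self]; exact hx
  · rw [Function.update_of_ne hk]; exact ha k

variable [IsProbabilityMeasure κ]

theorem Grid.gd_CG (h : Grid κ G) {q0 j0 q : ι} (hq : q ≠ q0) {ρ ρ' : ι → Ω → ℂ}
    (hρ : ∀ k, BM κ (G k j0) (ρ k)) (hρ' : ∀ k, BM κ (G k j0) (ρ' k)) {a : Ω → ℂ}
    (ha : BM κ m0 a) : Gd κ G q0 j0 (CG κ G q0 j0 q ρ ρ' a) := by
  have h1 : BM κ m0 (pr ρ ((univ.erase q0).erase q)) := BM.pr fun k _ => (hρ k).mono (h.le k j0)
  have h2 : BM κ m0 (pr ρ' ((univ.erase q0).erase q)) := BM.pr fun k _ => (hρ' k).mono (h.le k j0)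
  refine ⟨Cop_bm _ _ (h.le q j0) h1 h2 ha, ?_⟩
  refine dual_bm (h.le q0 j0) (h.oc_le q0 j0) ((h.fr q0).f2 j0) (BM.mul ?_ ?_)
  · exact (BM.pr_sup (p := fun k => G k j0) fun k _ => hρ' k).mono
      (sup_mono' _ (erase_subset _ _))
  · exact ((ha.mul h1).ce (G q j0)).mono
      (le_sup' (fun k => G k j0) (mem_erase.2 ⟨hq, mem_univ q⟩))

/-- MULT for the multilinear form of the row -/
theorem Grid.mult (hM : MULT) (h : Grid κ G) {q0 j0 q j1 : ι} (hq : q ≠ q0) (hj : j1 ≠ j0)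
    {ρ ρ' : ι → Ω → ℂ} (hρ : ∀ k, BM κ (G k j0) (ρ k)) (hρ' : ∀ k, BM κ (G k j0) (ρ' k))
    {a1 : Ω → ℂ} (ha1 : Gd κ G q0 j1 a1) :
    ∃ A, Gd κ G q0 j1 A ∧ ∀ (x : Ω → ℂ) (a : ι → Ω → ℂ), Gd κ G q0 j0 x →
      (∀ j, Gd κ G q0 j (a j)) → a j1 = a1 →
      ∫ ω, CG κ G q0 j0 q ρ ρ' x ω * pr a (univ.erase j0) ω ∂κ =
        ∫ ω, x ω * pr (Function.update a j1 A) (univ.erase j0) ω ∂κ := by
  obtain ⟨A, h1, h2, h3⟩ := hM Ω m0 κ ι G h q0 q j0 j1 hq hj _ _
    (BM.pr_sup (p := fun k => G k j0) fun k _ => hρ k)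
    (BM.pr_sup (p := fun k => G k j0) fun k _ => hρ' k) a1 ha1.1 ha1.2
  refine ⟨A, ⟨h1, h2⟩, fun x a hx ha e => ?_⟩
  have h4 := h3 (Function.update a j0 x) (fun j => (gd_update ha hx j).1)
    (fun j => (gd_update ha hx j).2)
  rw [Function.update_self, pr_update _ (by simp)] at h4
  simp only [pr_erase _ (mem_erase.2 ⟨hj, mem_univ j1⟩), Function.update_self, e, ← mul_assoc]
  rw [pr_update _ (by simp)]
  exact h4

/-- the operators at the corner commute on functions determined by row and column -/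
theorem Grid.comm (hM : MULT) (h : Grid κ G) (hc : 3 ≤ Fintype.card ι) {q0 j0 q q' : ι}
    (hq : q ≠ q0) (hq' : q' ≠ q0) {ρ ρ' τ τ' : ι → Ω → ℂ} (hρ : ∀ k, BM κ (G k j0) (ρ k))
    (hρ' : ∀ k, BM κ (G k j0) (ρ' k)) (hτ : ∀ k, BM κ (G k j0) (τ k))
    (hτ' : ∀ k, BM κ (G k j0) (τ' k)) {c : Ω → ℂ} (hc1 : Gd κ G q0 j0 c)
    (hc2 : BM κ (Orow G q0 j0) c) :
    CG κ G q0 j0 q ρ ρ' (CG κ G q0 j0 q' τ τ' c) =ᵐ[κ]
      CG κ G q0 j0 q' τ τ' (CG κ G q0 j0 q ρ ρ' c) := by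
  obtain ⟨j1, hj1, -⟩ := exists_third hc j0 j0
  obtain ⟨j2, hj2, hj12⟩ := exists_third hc j0 j1
  have hle := h.le q0 j0
  have g1 := h.gd_CG hq hρ hρ' (hc1.1.mono hle)
  have g2 := h.gd_CG hq' hτ hτ' (hc1.1.mono hle)
  have g3 := h.gd_CG hq hρ hρ' (g2.1.mono hle)
  have g4 := h.gd_CG hq' hτ hτ' (g1.1.mono hle)
  have hcol : ∀ k, G k j0 ≤ m0 := fun k => h.le k j0
  have r1 : BM κ (Orow G q0 j0) (CG κ G q0 j0 q ρ ρ' c) :=
    (h.fc j0).keepC hcol hq hc1.1 hc2 hρ hρ'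
  have r2 : BM κ (Orow G q0 j0) (CG κ G q0 j0 q' τ τ' c) :=
    (h.fc j0).keepC hcol hq' hc1.1 hc2 hτ hτ'
  have r3 : BM κ (Orow G q0 j0) (CG κ G q0 j0 q ρ ρ' (CG κ G q0 j0 q' τ τ' c)) :=
    (h.fc j0).keepC hcol hq g2.1 r2 hρ hρ'
  have r4 : BM κ (Orow G q0 j0) (CG κ G q0 j0 q' τ τ' (CG κ G q0 j0 q ρ ρ' c)) :=
    (h.fc j0).keepC hcol hq' g1.1 r1 hτ hτ'
  have hp : Perp κ (Orow G q0 j0) (fun ω => CG κ G q0 j0 q ρ ρ' (CG κ G q0 j0 q' τ τ' c) ω -
      CG κ G q0 j0 q' τ τ' (CG κ G q0 j0 q ρ ρ' c) ω) := by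
    refine perp_pr (h.le q0) ((g3.1.sub g4.1).mono hle) fun a ha => ?_
    rw [(h.fr q0).all (g3.1.sub g4.1) (g3.2.sub g4.2) ha]
    set b : ι → Ω → ℂ := fun k => κ[a k | Oc G q0 k] with hb
    have gb : ∀ k, Gd κ G q0 k (b k) := fun k => ⟨(h.fr q0).f2 k _ (ha k), (ha k).ce _⟩
    obtain ⟨A, hA, eA⟩ := h.mult hM hq hj1 hρ hρ' (gb j1)
    obtain ⟨B, hB, eB⟩ := h.mult hM hq' hj2 hτ hτ' (gb j2)
    rw [int_sub_mul (g3.1.mono hle) (g4.1.mono hle) (BM.pr fun k _ => (gb k).1.mono (h.le q0 k)),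
      eA _ b g2 gb rfl, eB _ _ hc1 (gd_update gb hA) (Function.update_of_ne hj12 _ _),
      eB _ b g1 gb rfl, eA _ _ hc1 (gd_update gb hB) (Function.update_of_ne hj12.symm _ _),
      Function.update_comm hj12, sub_self]
  filter_upwards [hp.eq_zero ((h.fc j0).le q0) (r3.sub r4)] with ω hω
  exact sub_eq_zero.1 hω

/-- B-prime: a member of a row tuple determined by its column is a member of a column tuple -/
theorem Grid.bprime (hM : MULT) (hR : RANK1) (h : Grid κ G) (hc : 3 ≤ Fintype.card ι)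
    {q0 j0 : ι} {v : Ω → ℂ} (hv : Mem κ (G q0) j0 v) (hv' : BM κ (Oc G q0 j0) v) :
    Mem κ (fun q => G q j0) q0 v := by
  obtain ⟨χ, hχ, rfl⟩ := hv
  have hle := h.le q0 j0
  have gχ : ∀ j, Gd κ G q0 j (χ j) := fun j =>
    ⟨hχ.bm j, (h.fr q0).trans (h.le q0) (h.rowInd q0) hc hχ hv' j⟩
  have gc : ∀ j, Gd κ G q0 j (fun ω => (starRingEnd ℂ) (χ j ω)) := fun j =>
    ⟨(gχ j).1.conj, (gχ j).2.conj⟩
  obtain ⟨j1, hj1, -⟩ := exists_third hc j0 j0
  obtain ⟨j2, hj2, hj12⟩ := exists_third hc j0 j1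
  obtain ⟨γ, hγ⟩ := hχ.ident
  obtain ⟨t, ht, hm⟩ := hR Ω m0 κ ι _ (h.colLine j0) hc q0 (χ j0) (hχ.bm j0) hv' (fun h0 => by
    obtain ⟨ω, e1, e2⟩ := (h0.and (hχ.2.1 j0)).exists
    simp [e1] at e2) (fun q hq ρ ρ' hρ hρ' => by
    obtain ⟨A, hA, eA⟩ := h.mult hM hq hj1 hρ' hρ (gc j1)
    refine ⟨∫ ω, A ω * χ j1 ω ∂κ, ?_⟩
    have g1 := h.gd_CG hq hρ hρ' ((hχ.bm j0).mono hle)
    set lam := ∫ ω, A ω * χ j1 ω ∂κ with hlam
    have g2 : Gd κ G q0 j0 (fun ω => CG κ G q0 j0 q ρ ρ' (χ j0) ω - lam * χ j0 ω) :=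
      ⟨g1.1.sub ((gχ j0).1.cmul lam), g1.2.sub ((gχ j0).2.cmul lam)⟩
    have key : ∀ c, Gd κ G q0 j0 c →
        ∫ ω, (CG κ G q0 j0 q ρ ρ' (χ j0) ω - lam * χ j0 ω) * c ω ∂κ = 0 := by
      intro c gc'
      rw [int_sub_mul (g1.1.mono hle) (((gχ j0).1.cmul lam).mono hle) (gc'.1.mono hle), sub_eq_zero]
      have e1 := Cop_symm hle (h.le q j0)
        (BM.pr (S := (univ.erase q0).erase q) fun k _ => (hρ k).mono (h.le k j0))
        (BM.pr (S := (univ.erase q0).erase q) fun k _ => (hρ' k).mono (h.le k j0))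
        (hχ.bm j0) gc'.1
      have e2 := eA c _ gc' gc rfl
      have e3 := int_mul_indep hle (h.le q0 j1) ((h.rowInd q0).pair hj1.symm hj2 hj12)
        ((hχ.bm j0).mul gc'.1) (hA.1.mul (hχ.bm j1))
      calc _ = ∫ ω, CG κ G q0 j0 q ρ' ρ c ω * χ j0 ω ∂κ := e1
        _ = γ * ∫ ω, CG κ G q0 j0 q ρ' ρ c ω *
            pr (fun j ω => (starRingEnd ℂ) (χ j ω)) (univ.erase j0) ω ∂κ := by
          rw [← integral_const_mul]
          refine integral_congr_ae ?_
          filter_upwards [hγ] with ω hω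
          rw [pr_conj, hω.2.2.2.1 j0]; ring
        _ = ∫ ω, χ j0 ω * c ω * (A ω * χ j1 ω) ∂κ := by
          rw [e2, ← integral_const_mul]
          refine integral_congr_ae ?_
          filter_upwards [hγ] with ω hω
          rw [pr_erase _ (mem_erase.2 ⟨hj1, mem_univ j1⟩), Function.update_self,
            pr_update _ (by simp), pr_conj]
          linear_combination (-(c ω * A ω)) * hω.2.2.2.2.2 j0 j1 hj1
        _ = _ := by
          rw [e3, mul_comm, ← integral_const_mul]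
          exact integral_congr_ae (Eventually.of_forall fun ω => by simp only; ring)
    filter_upwards [eq_zero_of_int_conj (g2.1.mono hle) (key _ ⟨g2.1.conj, g2.2.conj⟩)] with ω hω
    exact sub_eq_zero.1 hω)
  exact hm.of_smul ht (hχ.2.1 j0)

/-- existence of a character in the column of the corner -/
theorem Grid.ex (hM : MULT) (hR : RANK1) (hE : EIG) (h : Grid κ G) (hc : 3 ≤ Fintype.card ι)
    (q0 j0 : ι) {S : Type} (o : S → ι → MeasurableSpace Ω)
    (ho : ∀ σ, F23 κ (fun q => G q j0) (o σ)) (σc σr : S) (hσc : o σc q0 = Oc G q0 j0)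
    (hσr : o σr q0 = Orow G q0 j0) {f : Ω → ℂ} (hf : BM κ (G q0 j0) f) (hf0 : ∫ ω, f ω ∂κ = 0)
    (hfo : ∀ σ, BM κ (o σ q0) f) (hne : ¬ ∀ᵐ ω ∂κ, f ω = 0) :
    ∃ v, Mem κ (fun q => G q j0) q0 v ∧ ∫ ω, v ω ∂κ = 0 ∧ ∀ σ, BM κ (o σ q0) v := by
  have hle := h.le q0 j0
  have hcol : ∀ k, G k j0 ≤ m0 := fun k => h.le k j0
  have hL := (h.colLine j0).ind
  obtain ⟨q1, hq1, -⟩ := exists_third hc q0 q0
  obtain ⟨ρ1, hρ1, hne1⟩ : ∃ ρ : ι → Ω → ℂ, (∀ k, BM κ (G k j0) (ρ k)) ∧ ¬ ∀ᵐ ω ∂κ,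
      (κ[fun ω => f ω * pr ρ ((univ.erase q0).erase q1) ω | G q1 j0]) ω = 0 := by
    by_contra hcon
    push Not at hcon
    have hp := perp_sup_pr (p := fun k => G k j0) (S := (univ.erase q0).erase q1) (hcol q1) hcol
      (hf.mono hle) fun a ρ ha hρ => by
        have := perp_of_ce (hcol q1) ((hf.mono hle).mul (BM.pr fun k _ => (hρ k).mono (hcol k)))
          (hcon ρ hρ) a ha
        rw [← this]
        exact integral_congr_ae (Eventually.of_forall fun ω => by simp only; ring)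
    rw [← sup_erase' (fun k => G k j0) (mem_erase.2 ⟨hq1, mem_univ q1⟩)] at hp
    exact hne (hp.eq_zero (h.oc_le q0 j0) ((hσc ▸ hfo σc : BM κ (Oc G q0 j0) f)))
  let T := {τ : ι × (ι → Ω → ℂ) × (ι → Ω → ℂ) //
    τ.1 ≠ q0 ∧ (∀ k, BM κ (G k j0) (τ.2.1 k)) ∧ ∀ k, BM κ (G k j0) (τ.2.2 k)}
  obtain ⟨v, ⟨hv1, hv2, hv3⟩, hv0, hv⟩ := hE Ω m0 κ T S (G q0 j0) (fun τ => G τ.1.1 j0)
    (fun σ => o σ q0) (fun τ => pr τ.1.2.1 ((univ.erase q0).erase τ.1.1))
    (fun τ => pr τ.1.2.2 ((univ.erase q0).erase τ.1.1))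
    (fun a => BM κ (G q0 j0) a ∧ ∫ ω, a ω ∂κ = 0 ∧ ∀ σ, BM κ (o σ q0) a) hle (fun τ => hcol _)
    (fun σ => (ho σ).le q0)
    (fun τ => by
      obtain ⟨k, h1, h2⟩ := exists_third hc q0 τ.1.1
      exact hL.pair τ.2.1.symm h1 h2)
    (fun τ => BM.pr fun k _ => (τ.2.2.1 k).mono (hcol k))
    (fun τ => BM.pr fun k _ => (τ.2.2.2 k).mono (hcol k)) (fun a => Iff.rfl)
    (by
      rintro ⟨⟨q, ρ, ρ'⟩, hq, hρ, hρ'⟩ a ⟨h1, h2, h3⟩
      refine ⟨(h.gd_CG hq hρ hρ' (h1.mono hle)).1, ?_,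
        fun σ => (ho σ).keepC hcol hq h1 (h3 σ) hρ hρ'⟩
      have hS : sup (fun k => G k j0) ((univ.erase q0).erase q) ≤ m0 := sup_le' fun k _ => hcol k
      have b1 : BM κ _ (pr ρ ((univ.erase q0).erase q)) :=
        BM.pr_sup (p := fun k => G k j0) fun k _ => hρ k
      have b2 : BM κ _ (pr ρ' ((univ.erase q0).erase q)) :=
        BM.pr_sup (p := fun k => G k j0) fun k _ => hρ' k
      have hI : Indep (sup (fun k => G k j0) ((univ.erase q0).erase q)) (G q j0) κ := by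
        rw [erase_right_comm]; exact (hL.one hq.symm).symm
      unfold Cop
      simp only
      rw [integral_condExp hle, int_mul_indep hS (hcol q) hI b2
        (((h1.mono hle).mul (b1.mono hS)).ce _), integral_condExp (hcol q),
        int_mul_indep hle hS (hL.one hq) h1 b1, h2, zero_mul, mul_zero])
    (by
      rintro ⟨⟨q, ρ, ρ'⟩, hq, hρ, hρ'⟩ ⟨⟨q', τ, τ'⟩, hq', hτ, hτ'⟩ a ⟨h1, -, h3⟩
      exact h.comm hM hc hq hq' hρ hρ' hτ hτ' ⟨h1, hσc ▸ h3 σc⟩ (hσr ▸ h3 σr))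
    ⟨(q1, ρ1, fun k ω => (starRingEnd ℂ) (ρ1 k ω)), hq1, hρ1, fun k => (hρ1 k).conj⟩ f
    (fun ω => pr_conj _ _ ω) ⟨hf, hf0, hfo⟩ hne1
  obtain ⟨t, -, hm⟩ := hR Ω m0 κ ι _ (h.colLine j0) hc q0 v hv1 (hσc ▸ hv3 σc : BM κ (Oc G q0 j0) v) hv0
    (fun q hq ρ ρ' hρ hρ' => hv ⟨(q, ρ, ρ'), hq, hρ, hρ'⟩)
  exact ⟨_, hm, by rw [integral_const_mul, hv2, mul_zero], fun σ => (hv3 σ).cmul t⟩

end Fib27

end MrgPart1

-- ======== part 2: formerly Pool.Agent.MP_154433_an.fib.Geo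
section MrgPart2

/-!
Lines and grids in `J → ℤ`: EX, CL, MATCH.
-/

open MeasureTheory ProbabilityTheory Finset Filter

namespace Fib27

variable {Ω ι J : Type} [Fintype ι] [DecidableEq ι] [DecidableEq J] {m0 : MeasurableSpace Ω}
  {κ : Measure Ω} {P : (J → ℤ) → MeasurableSpace Ω} {r : ι → ℤ}

/-- the line in direction `s` on which `c` has slot `i` -/
def ln (P : (J → ℤ) → MeasurableSpace Ω) (r : ι → ℤ) (c : J → ℤ) (s : J) (i : ι) :
    ι → MeasurableSpace Ω := fun j => P (c + Pi.single s (r j - r i))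

/-- the other points of that line -/
def OO (P : (J → ℤ) → MeasurableSpace Ω) (r : ι → ℤ) (c : J → ℤ) (s : J) (i : ι) :
    MeasurableSpace Ω := sup (ln P r c s i) (univ.erase i)

/-- the grid with corner `c` -/
def gr (P : (J → ℤ) → MeasurableSpace Ω) (r : ι → ℤ) (c : J → ℤ) (s : J) (q0 : ι) (t : J) (j0 : ι) :
    ι → ι → MeasurableSpace Ω :=
  fun q j => P (c + Pi.single s (r q - r q0) + Pi.single t (r j - r j0))

/-- member of a tuple on every line through `c` with direction in `D` -/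
def InAll (κ : Measure Ω) (P : (J → ℤ) → MeasurableSpace Ω) (r : ι → ℤ) (D : Set J) (c : J → ℤ)
    (v : Ω → ℂ) : Prop := ∀ s ∈ D, ∀ i, Mem κ (ln P r c s i) i v

theorem single_step (c : J → ℤ) (s : J) (a b d : ℤ) :
    c + Pi.single s (a - b) + Pi.single s (d - a) = c + Pi.single s (d - b) := by
  rw [add_assoc, ← Pi.single_add]; congr 2; ring

omit [Fintype ι] [DecidableEq ι] in
theorem ln_shift (c : J → ℤ) (s : J) (i j : ι) :
    ln P r (c + Pi.single s (r j - r i)) s j = ln P r c s i := by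
  funext k; simp only [ln, single_step]

omit [Fintype ι] [DecidableEq ι] in
theorem ln_self (c : J → ℤ) (s : J) (i : ι) : ln P r c s i i = P c := by simp [ln]

theorem GoodC.ln_le (h : GoodC κ P r) (c : J → ℤ) (s : J) (i j : ι) : ln P r c s i j ≤ m0 :=
  h.le _

theorem GoodC.lnInd (h : GoodC κ P r) (c : J → ℤ) (s : J) (i : ι) : LInd κ (ln P r c s i) :=
  (h.sl s (c s - r i)).mono fun j =>
    le_iSup₂_of_le (f := fun c' (_ : c' ∈ {c' : J → ℤ | c' s = c s - r i + r j}) => P c')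
      (c + Pi.single s (r j - r i)) (by simp; ring) le_rfl

theorem GoodC.f23 (h : GoodC κ P r) (c : J → ℤ) (t : J) (j0 : ι) (s : J) (i : ι) :
    F23 κ (ln P r c t j0) (fun k => OO P r (c + Pi.single t (r k - r j0)) s i) := by
  have := h.f (c - Pi.single t (r j0)) t s i
  have e : ∀ k, c - Pi.single t (r j0) + Pi.single t (r k) = c + Pi.single t (r k - r j0) :=
    fun k => by rw [Pi.single_sub]; abel
  simp only [e] at this
  exact this

theorem GoodC.grid (h : GoodC κ P r) (c : J → ℤ) {s t : J} (hst : s ≠ t) (q0 j0 : ι) :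
    Grid κ (gr P r c s q0 t j0) := by
  refine ⟨fun q j => h.le _, (h.sl s (c s - r q0)).mono fun q => sup_le' fun j _ => ?_,
    (h.sl t (c t - r j0)).mono fun j => sup_le' fun q _ => ?_, fun q => ?_, fun j => ?_⟩
  · exact le_iSup₂_of_le (f := fun c' (_ : c' ∈ {c' : J → ℤ | c' s = c s - r q0 + r q}) => P c')
      _ (by simp [Pi.single_eq_of_ne hst]; ring) le_rfl
  · exact le_iSup₂_of_le (f := fun c' (_ : c' ∈ {c' : J → ℤ | c' t = c t - r j0 + r j}) => P c')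
      _ (by simp [Pi.single_eq_of_ne hst.symm]; ring) le_rfl
  · have := h.f23 (c + Pi.single s (r q - r q0)) t j0 s q
    have e : (fun k => OO P r (c + Pi.single s (r q - r q0) + Pi.single t (r k - r j0)) s q) =
        Oc (gr P r c s q0 t j0) q := by
      funext k
      simp only [OO, Oc]
      congr 1
      funext q'
      simp only [ln, gr]
      rw [add_right_comm _ (Pi.single t _), single_step]
    rw [e] at this
    exact this
  · have := h.f23 (c + Pi.single t (r j - r j0)) s q0 t j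
    have e : (fun k => OO P r (c + Pi.single t (r j - r j0) + Pi.single s (r k - r q0)) t j) =
        fun q => Orow (gr P r c s q0 t j0) q j := by
      funext k
      simp only [OO, Orow]
      congr 1
      funext q'
      simp only [ln, gr]
      rw [add_right_comm c (Pi.single t _), single_step]
    have e' : ln P r (c + Pi.single t (r j - r j0)) s q0 = fun q => gr P r c s q0 t j0 q j := by
      funext k
      simp only [ln, gr]
      rw [add_right_comm]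
    rw [e, e'] at this
    exact this

omit [Fintype ι] [DecidableEq ι] in
theorem gr_row (c : J → ℤ) (s t : J) (q0 j0 : ι) : gr P r c s q0 t j0 q0 = ln P r c t j0 := by
  funext k; simp [gr, ln]

omit [Fintype ι] [DecidableEq ι] in
theorem gr_col (c : J → ℤ) (s t : J) (q0 j0 : ι) :
    (fun q => gr P r c s q0 t j0 q j0) = ln P r c s q0 := by
  funext k; simp [gr, ln]

variable [IsProbabilityMeasure κ]

theorem GoodC.geoB (hM : MULT) (hR : RANK1) (h : GoodC κ P r) (hc : 3 ≤ Fintype.card ι)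
    {c : J → ℤ} {s t : J} (hst : s ≠ t) {q0 j0 : ι} {v : Ω → ℂ} (hv : Mem κ (ln P r c t j0) j0 v)
    (hv' : BM κ (OO P r c s q0) v) : Mem κ (ln P r c s q0) q0 v := by
  have := (h.grid c hst q0 j0).bprime hM hR hc (q0 := q0) (j0 := j0) (v := v)
    (by rw [gr_row]; exact hv) (by unfold Oc; rw [gr_col]; exact hv')
  rwa [gr_col] at this

/-- one tuple and determination on all lines give tuples on all lines -/
theorem GoodC.inAll (hM : MULT) (hR : RANK1) (h : GoodC κ P r) (hc : 3 ≤ Fintype.card ι)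
    {D : Set J} {c : J → ℤ} {s t : J} (ht : t ∈ D) (hts : t ≠ s) {j : ι} {v : Ω → ℂ}
    (hv : Mem κ (ln P r c s j) j v) (hv' : ∀ u ∈ D, ∀ i, BM κ (OO P r c u i) v) :
    InAll κ P r D c v := by
  intro u hu i
  rcases eq_or_ne u s with rfl | hus
  · exact h.geoB hM hR hc hts.symm (h.geoB hM hR hc hts hv (hv' t ht i)) (hv' u hu i)
  · exact h.geoB hM hR hc hus hv (hv' u hu i)

/-- CL -/
theorem GoodC.cl (hM : MULT) (hR : RANK1) (h : GoodC κ P r) (hc : 3 ≤ Fintype.card ι)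
    {D : Set J} {c : J → ℤ} {s t : J} (ht : t ∈ D) (hts : t ≠ s) {i : ι} {χ : ι → Ω → ℂ}
    (hχ : Tup κ (ln P r c s i) χ) (hi : InAll κ P r D c (χ i)) (j : ι) :
    InAll κ P r D (c + Pi.single s (r j - r i)) (χ j) := by
  refine h.inAll hM hR hc ht hts (j := j) (by rw [ln_shift]; exact ⟨χ, hχ, rfl⟩) fun u hu i' => ?_
  refine (h.f23 c s i u i').trans (h.ln_le c s i) (h.lnInd c s i) hc hχ (i := i) ?_ j
  simpa [OO] using (hi u hu i').bm_others

/-- EX -/
theorem GoodC.ex (hM : MULT) (hR : RANK1) (hE : EIG) (h : GoodC κ P r) (hc : 3 ≤ Fintype.card ι)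
    {s t : J} (hst : s ≠ t) {f : Ω → ℂ} (hf : BM κ (P 0) f) (hf0 : ∫ ω, f ω ∂κ = 0)
    (hfo : ∀ u i, BM κ (OO P r 0 u i) f) (hne : ¬ ∀ᵐ ω ∂κ, f ω = 0) :
    ∃ v, InAll κ P r Set.univ 0 v ∧ ∫ ω, v ω ∂κ = 0 := by
  obtain ⟨q0⟩ : Nonempty ι := Fintype.card_pos_iff.1 (by omega)
  obtain ⟨v, h1, h2, h3⟩ := (h.grid 0 hst q0 q0).ex hM hR hE hc q0 q0
    (fun (σ : J × ι) k => OO P r (0 + Pi.single s (r k - r q0)) σ.1 σ.2)
    (fun σ => by rw [gr_col]; exact h.f23 0 s q0 σ.1 σ.2) (s, q0) (t, q0)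
    (by unfold Oc; rw [gr_col]; simp [OO]) (by unfold Orow; rw [gr_row]; simp [OO]) (f := f)
    (by simpa [gr] using hf) hf0 (fun σ => by simpa using hfo σ.1 σ.2) hne
  rw [gr_col] at h1
  exact ⟨v, h.inAll hM hR hc (Set.mem_univ t) hst.symm h1 fun u _ i => by simpa using h3 (u, i), h2⟩

/-- MATCH -/
theorem GoodC.match (hM : MULT) (hR : RANK1) (h : GoodC κ P r) (hc : 3 ≤ Fintype.card ι)
    {s t : J} (hst : s ≠ t) {v v' : Ω → ℂ} (hv : InAll κ P r {s} 0 v) (hv' : InAll κ P r {t} 0 v')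
    (h0 : ∫ ω, v ω * (starRingEnd ℂ) (v' ω) ∂κ ≠ 0) :
    InAll κ P r {s, t} 0 v ∧ ∃ d : ℂ, ∀ᵐ ω ∂κ, v ω * (starRingEnd ℂ) (v' ω) = d := by
  obtain ⟨q0⟩ : Nonempty ι := Fintype.card_pos_iff.1 (by omega)
  have h1 : ∀ i, Mem κ (ln P r 0 t i) i v := fun i => by
    refine h.geoB hM hR hc hst.symm (hv s rfl q0) ?_
    obtain ⟨χ, hχ, rfl⟩ := hv s rfl q0
    have := (h.f23 0 s q0 t i).of_corr (h.ln_le 0 s q0) (h.lnInd 0 s q0) hc hχ (i := q0)
      (c := fun ω => (starRingEnd ℂ) (v' ω)) (by simpa [OO] using (hv' t rfl i).bm_others.conj) h0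
    simpa using this
  refine ⟨fun u hu i => ?_, ?_⟩
  · rcases hu with rfl | rfl
    · exact hv u rfl i
    · exact h1 i
  · obtain ⟨χ, hχ, rfl⟩ := h1 q0
    obtain ⟨χ', hχ', rfl⟩ := hv' t rfl q0
    exact (hχ.mul_conj hχ').const_of_mean (h.ln_le 0 t q0) (h.lnInd 0 t q0) hc h0

end Fib27

end MrgPart2

-- ======== part 3: formerly Pool.Agent.MP_154433_an.fib.Cls
section MrgPart3

/-!
Unimodular functions modulo constants as an additive group; the algebraic system of a good fibre.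
-/

open MeasureTheory ProbabilityTheory Finset Filter

namespace Fib27

/-- `e^{ix}` -/
noncomputable def ee (x : ℝ) : ℂ := Complex.exp (x * Complex.I)

theorem ee_add (x y : ℝ) : ee (x + y) = ee x * ee y := by
  simp [ee, add_mul, Complex.exp_add]

theorem ee_zero : ee 0 = 1 := by simp [ee]

theorem norm_ee (x : ℝ) : ‖ee x‖ = 1 := Complex.norm_exp_ofReal_mul_I x

theorem ee_neg (x : ℝ) : ee (-x) = (starRingEnd ℂ) (ee x) := by
  have h1 := mul_conj_uni (norm_ee x)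
  have h2 : ee (-x) * ee x = 1 := by rw [← ee_add]; simp [ee_zero]
  linear_combination (-ee (-x)) * h1 + (starRingEnd ℂ) (ee x) * h2

theorem ee_arg {z : ℂ} (h : ‖z‖ = 1) : ee (Complex.arg z) = z := by
  have := Complex.norm_mul_exp_arg_mul_I z
  rw [h] at this
  simpa [ee] using this

theorem ee_sum {ι : Type} (S : Finset ι) (x : ι → ℝ) : ee (∑ k ∈ S, x k) = ∏ k ∈ S, ee (x k) := by
  classical
  induction S using Finset.induction_on with
  | empty => simp [ee_zero]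
  | insert j S hj ih => rw [sum_insert hj, prod_insert hj, ee_add, ih]

theorem continuous_ee : Continuous ee := by unfold ee; fun_prop

variable {Ω : Type} {m m1 m2 m0 : MeasurableSpace Ω} {κ : Measure Ω} {f g : Ω → ℝ}

/-- phases of a.e. constant functions -/
def KK (κ : Measure Ω) : AddSubgroup (Ω → ℝ) where
  carrier := {f | ∃ γ : ℂ, ∀ᵐ ω ∂κ, ee (f ω) = γ}
  zero_mem' := ⟨1, Eventually.of_forall fun _ => ee_zero⟩
  add_mem' := by
    rintro f g ⟨a, ha⟩ ⟨b, hb⟩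
    refine ⟨a * b, ?_⟩
    filter_upwards [ha, hb] with ω h1 h2
    rw [Pi.add_apply, ee_add, h1, h2]
  neg_mem' := by
    rintro f ⟨a, ha⟩
    refine ⟨(starRingEnd ℂ) a, ?_⟩
    filter_upwards [ha] with ω h1
    rw [Pi.neg_apply, ee_neg, h1]

/-- unimodular functions modulo constants -/
abbrev MM (κ : Measure Ω) : Type := (Ω → ℝ) ⧸ KK κ

/-- the class of a phase -/
def cl (κ : Measure Ω) : (Ω → ℝ) →+ MM κ := QuotientAddGroup.mk' _

/-- phases of `m`-measurable functions -/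
def PtF (κ : Measure Ω) (m : MeasurableSpace Ω) : AddSubgroup (Ω → ℝ) where
  carrier := {f | AEStronglyMeasurable[m] (fun ω => ee (f ω)) κ}
  zero_mem' := by
    change AEStronglyMeasurable[m] (fun _ => ee 0) κ
    exact aestronglyMeasurable_const
  add_mem' := by
    intro f g hf hg
    change AEStronglyMeasurable[m] (fun ω => ee (f ω + g ω)) κ
    simp only [ee_add]
    exact AEStronglyMeasurable.mul hf hg
  neg_mem' := by
    intro f hf
    change AEStronglyMeasurable[m] (fun ω => ee (-f ω)) κ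
    simp only [ee_neg]
    exact Complex.continuous_conj.comp_aestronglyMeasurable hf

/-- classes of `m`-measurable functions -/
def Pt (κ : Measure Ω) (m : MeasurableSpace Ω) : AddSubgroup (MM κ) := (PtF κ m).map (cl κ)

theorem cl_surj (x : MM κ) : ∃ f, cl κ f = x := QuotientAddGroup.mk'_surjective _ x

theorem cl_eq_zero : cl κ f = 0 ↔ ∃ γ : ℂ, ∀ᵐ ω ∂κ, ee (f ω) = γ :=
  QuotientAddGroup.eq_zero_iff f

theorem cl_eq : cl κ f = cl κ g ↔
    ∃ γ : ℂ, ∀ᵐ ω ∂κ, ee (f ω) * (starRingEnd ℂ) (ee (g ω)) = γ := by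
  rw [← sub_eq_zero, ← map_sub, cl_eq_zero]
  simp only [sub_eq_add_neg, Pi.add_apply, Pi.neg_apply, ee_add, ee_neg]

theorem cl_eq' (h : cl κ f = cl κ g) : ∃ γ : ℂ, ∀ᵐ ω ∂κ, ee (f ω) = γ * ee (g ω) := by
  obtain ⟨γ, hγ⟩ := cl_eq.1 h
  refine ⟨γ, ?_⟩
  filter_upwards [hγ] with ω hω
  linear_combination ee (g ω) * hω - ee (f ω) * mul_conj_uni (norm_ee (g ω))

theorem cl_eq_of_ae (h : ∀ᵐ ω ∂κ, ee (f ω) = ee (g ω)) : cl κ f = cl κ g :=
  cl_eq.2 ⟨1, h.mono fun ω hω => by rw [hω, mul_conj_uni (norm_ee _)]⟩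

theorem mem_Pt : cl κ f ∈ Pt κ m ↔ AEStronglyMeasurable[m] (fun ω => ee (f ω)) κ := by
  refine ⟨?_, fun h => ⟨f, h, rfl⟩⟩
  rintro ⟨g, hg, e⟩
  obtain ⟨γ, hγ⟩ := cl_eq' e.symm
  exact (AEStronglyMeasurable.const_mul hg γ).congr (EventuallyEq.symm hγ)

theorem bm_of_mem (h : cl κ f ∈ Pt κ m) : BM κ m (fun ω => ee (f ω)) :=
  BM.of_uni (mem_Pt.1 h) (Eventually.of_forall fun _ => norm_ee _)

theorem Pt_mono (h : m1 ≤ m2) : Pt κ m1 ≤ Pt κ m2 := fun x hx => by
  obtain ⟨f, rfl⟩ := cl_surj x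
  exact mem_Pt.2 ((mem_Pt.1 hx).mono h)

theorem Pt_indep [IsProbabilityMeasure κ] (h1 : m1 ≤ m0) (h2 : m2 ≤ m0) (hI : Indep m1 m2 κ)
    {x : MM κ} (hx1 : x ∈ Pt κ m1) (hx2 : x ∈ Pt κ m2) : x = 0 := by
  obtain ⟨f, rfl⟩ := cl_surj x
  exact cl_eq_zero.2 ⟨_, const_of_indep h1 h2 hI (bm_of_mem hx1) (bm_of_mem hx2)⟩

/-- UNIQ -/
theorem uniq [IsProbabilityMeasure κ] {α : Type} [DecidableEq α] {p : α → MeasurableSpace Ω}
    (hp : ∀ k, p k ≤ m0) {S : Finset α} {y : α → MM κ} (hy : ∀ k, y k ∈ Pt κ (p k))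
    (h0 : ∑ k ∈ S, y k = 0) {k : α} (hk : k ∈ S) (hI : Indep (p k) (sup p (S.erase k)) κ) :
    y k = 0 := by
  refine Pt_indep (hp k) (sup_le' fun j _ => hp j) hI (hy k) ?_
  rw [← add_sum_erase S y hk, add_eq_zero_iff_eq_neg] at h0
  rw [h0]
  exact neg_mem (sum_mem fun j hj => Pt_mono (le_sup' p hj) (hy j))

variable {ι : Type} [Fintype ι] [DecidableEq ι] {p : ι → MeasurableSpace Ω}

theorem Mem.congr {i : ι} {v v' : Ω → ℂ} (h : Mem κ p i v) (e : v =ᵐ[κ] v') : Mem κ p i v' := by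
  have hb := h.bm.congr e
  have hu : ∀ᵐ ω ∂κ, ‖v' ω‖ = 1 := by
    filter_upwards [h.uni, e] with ω h1 h2
    rwa [← h2]
  obtain ⟨χ, ⟨h1, h2, γ, hγ⟩, hi⟩ := h
  refine ⟨Function.update χ i v', ⟨fun j => ?_, fun j => ?_, γ, ?_⟩, Function.update_self ..⟩
  · rcases eq_or_ne j i with rfl | hj
    · rw [Function.update_self]; exact hb.1
    · rw [Function.update_of_ne hj]; exact h1 j
  · rcases eq_or_ne j i with rfl | hj
    · rw [Function.update_self]; exact hu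
    · rw [Function.update_of_ne hj]; exact h2 j
  · filter_upwards [hγ, e] with ω hω h3
    rw [← hω]
    refine Finset.prod_congr rfl fun j _ => ?_
    rcases eq_or_ne j i with rfl | hj
    · rw [Function.update_self, ← h3, hi]
    · rw [Function.update_of_ne hj]

omit [DecidableEq ι] in
theorem Tup.ee_arg {χ : ι → Ω → ℂ} (h : Tup κ p χ) (k : ι) :
    χ k =ᵐ[κ] fun ω => ee (Complex.arg (χ k ω)) :=
  (h.2.1 k).mono fun _ hω => (Fib27.ee_arg hω).symm

omit [DecidableEq ι] in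
theorem Tup.cls {χ : ι → Ω → ℂ} (h : Tup κ p χ) :
    (∀ k, cl κ (fun ω => Complex.arg (χ k ω)) ∈ Pt κ (p k)) ∧
      ∑ k, cl κ (fun ω => Complex.arg (χ k ω)) = 0 := by
  refine ⟨fun k => mem_Pt.2 ((h.1 k).congr (h.ee_arg k)), ?_⟩
  obtain ⟨γ, hγ⟩ := h.2.2
  rw [← map_sum, cl_eq_zero]
  refine ⟨γ, ?_⟩
  filter_upwards [hγ, h.all] with ω h1 h2
  rw [Finset.sum_apply, ee_sum, ← h1]
  exact Finset.prod_congr rfl fun k _ => Fib27.ee_arg (h2 k)

/-- tuples of classes are classes of tuples -/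
theorem mem_iff [IsProbabilityMeasure κ] {i : ι} :
    (∃ z : ι → MM κ, (∀ k, z k ∈ Pt κ (p k)) ∧ ∑ k, z k = 0 ∧ z i = cl κ f) ↔
      Mem κ p i (fun ω => ee (f ω)) := by
  constructor
  · rintro ⟨z, h1, h2, h3⟩
    choose g hg using fun k => cl_surj (z k)
    have h4 : Tup κ p (fun k ω => ee (g k ω)) := by
      refine ⟨fun k => mem_Pt.1 (hg k ▸ h1 k), fun k => Eventually.of_forall fun _ => norm_ee _, ?_⟩
      simp only [← hg, ← map_sum, cl_eq_zero, Finset.sum_apply, ee_sum] at h2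
      exact h2
    obtain ⟨γ, hγ⟩ := cl_eq' ((hg i).trans h3)
    refine Mem.of_smul (t := γ) ?_ (Mem.congr ⟨_, h4, rfl⟩ hγ)
      (Eventually.of_forall fun _ => norm_ee _)
    obtain ⟨ω, hω⟩ := hγ.exists
    rintro rfl
    have := norm_ee (g i ω)
    simp [hω] at this
  · rintro ⟨χ, hχ, e⟩
    refine ⟨_, hχ.cls.1, hχ.cls.2, cl_eq_of_ae (Eventually.of_forall fun ω => ?_)⟩
    rw [e, Fib27.ee_arg (norm_ee _)]

variable {J : Type} [DecidableEq J] {P : (J → ℤ) → MeasurableSpace Ω} {r : ι → ℤ}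

/-- classes at `c` lying in a tuple on every line with direction in `D` -/
def Gam (κ : Measure Ω) (P : (J → ℤ) → MeasurableSpace Ω) (r : ι → ℤ) (D : Set J) (c : J → ℤ) :
    AddSubgroup (MM κ) where
  carrier := {x | x ∈ Pt κ (P c) ∧ ∀ s ∈ D, ∀ i, ∃ z : ι → MM κ,
    (∀ k, z k ∈ Pt κ (ln P r c s i k)) ∧ ∑ k, z k = 0 ∧ z i = x}
  zero_mem' := ⟨zero_mem _, fun _ _ _ => ⟨0, fun _ => zero_mem _, by simp, rfl⟩⟩
  add_mem' := by
    rintro x y ⟨h1, h2⟩ ⟨h3, h4⟩
    refine ⟨add_mem h1 h3, fun s hs i => ?_⟩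
    obtain ⟨z, a1, a2, a3⟩ := h2 s hs i
    obtain ⟨w, b1, b2, b3⟩ := h4 s hs i
    exact ⟨z + w, fun k => add_mem (a1 k) (b1 k), by simp [sum_add_distrib, a2, b2],
      by simp [a3, b3]⟩
  neg_mem' := by
    rintro x ⟨h1, h2⟩
    refine ⟨neg_mem h1, fun s hs i => ?_⟩
    obtain ⟨z, a1, a2, a3⟩ := h2 s hs i
    exact ⟨-z, fun k => neg_mem (a1 k), by simp [a2], by simp [a3]⟩

variable [IsProbabilityMeasure κ]

theorem mem_Gam {D : Set J} {c : J → ℤ} : cl κ f ∈ Gam κ P r D c ↔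
    AEStronglyMeasurable[P c] (fun ω => ee (f ω)) κ ∧ InAll κ P r D c (fun ω => ee (f ω)) := by
  change (_ ∧ _) ↔ _
  simp only [mem_iff, mem_Pt, InAll]

theorem GoodC.sys (hM : MULT) (hR : RANK1) (h : GoodC κ P r) (hc : 3 ≤ Fintype.card ι)
    {D : Set J} (hD : ∀ s ∈ D, ∃ t ∈ D, t ≠ s) :
    Sys r (fun c => Pt κ (P c)) (Gam κ P r D) D := by
  refine ⟨fun c x hx => hx.1, fun s hs c i x hx => ?_, fun t b q0 y hy h0 q hq => ?_⟩
  · obtain ⟨f, rfl⟩ := cl_surj x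
    obtain ⟨t, ht, hts⟩ := hD s hs
    obtain ⟨-, h2⟩ := mem_Gam.1 hx
    obtain ⟨χ, hχ, e⟩ := h2 s hs i
    refine ⟨_, fun k => mem_Gam.2 ⟨mem_Pt.1 (hχ.cls.1 k), fun u hu i' => ?_⟩, hχ.cls.2,
      cl_eq_of_ae (Eventually.of_forall fun ω => ?_)⟩
    · exact (h.cl hM hR hc ht hts hχ (e ▸ h2) k u hu i').congr (hχ.ee_arg k)
    · rw [e, Fib27.ee_arg (norm_ee _)]
  · refine uniq (p := fun q => ⨆ c ∈ {c : J → ℤ | c t = b + r q}, P c)
      (fun k => iSup₂_le fun c _ => h.le c) (fun k => ?_) h0 (mem_erase.2 ⟨hq, mem_univ q⟩) ?_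
    · refine (iSup₂_le fun c hc' => Pt_mono ?_ : _ ≤ Pt κ _) (hy k)
      exact le_iSup₂_of_le (f := fun c (_ : c ∈ {c : J → ℤ | c t = b + r k}) => P c) c hc' le_rfl
    · rw [erase_right_comm]
      exact (h.sl t b).one hq.symm

theorem GoodC.a4 (h : GoodC κ P r) (S : Finset ℤ) (y : ℤ → MM κ)
    (hy : ∀ m, y m ∈ Pt κ (P fun _ => m)) (h0 : ∑ m ∈ S, y m = 0) : ∀ m ∈ S, y m = 0 :=
  fun m hm => uniq (p := fun m : ℤ => P fun _ => m) (fun _ => h.le _) hy h0 hm
    (h.dg m _ (notMem_erase m S))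

end Fib27

end MrgPart3

-- ======== part 4: formerly Pool.Agent.MP_154433_an.fib.Rank1
section MrgPart4

/-! Row RANK1: a joint eigenvector is a multiple of a member of a tuple. -/

set_option autoImplicit false

open MeasureTheory ProbabilityTheory Finset Filter

namespace Fib27

namespace Rank1

variable {Ω ι : Type} {A B C m0 : MeasurableSpace Ω} {κ : Measure Ω} [IsProbabilityMeasure κ]

/-- a factor of a product of pairwise independent functions is constant -/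
lemma cst {x y z : Ω → ℂ} (hA : A ≤ m0) (hB : B ≤ m0) (hC : C ≤ m0) (hBA : Indep B A κ)
    (hCA : Indep C A κ) (hx : BM κ A x) (hy : BM κ B y) (hz : BM κ C z)
    (e : ∀ᵐ ω ∂κ, z ω = x ω * y ω) (h0 : ∫ ω, z ω ∂κ ≠ 0) :
    ∃ c : ℂ, c ≠ 0 ∧ ∀ᵐ ω ∂κ, x ω = c := by
  have h1 : ∀ᵐ ω ∂κ, x ω * ∫ ω, y ω ∂κ = ∫ ω, z ω ∂κ := by
    have e' : κ[z | A] =ᵐ[κ] κ[fun ω => x ω * y ω | A] := condExp_congr_ae e
    filter_upwards [ce_indep hC hA hCA hz, ce_indep hB hA hBA hy, ce_mul hA hx (hy.mono hB), e']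
      with ω a b c d
    rw [← a, d, c, b]
  have h2 : ∫ ω, y ω ∂κ ≠ 0 := fun h => by
    obtain ⟨ω, hω⟩ := h1.exists
    rw [h, mul_zero] at hω
    exact h0 hω.symm
  refine ⟨_, div_ne_zero h0 h2, ?_⟩
  filter_upwards [h1] with ω hω
  rw [eq_div_iff h2, hω]

lemma norm_of {w c : ℂ} (h : w * (starRingEnd ℂ) w = c) : ‖w‖ = Real.sqrt ‖c‖ := by
  rw [← h, norm_mul, Complex.norm_conj, Real.sqrt_mul_self (norm_nonneg _)]

variable [Fintype ι] [DecidableEq ι] {p : ι → MeasurableSpace Ω}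

omit [IsProbabilityMeasure κ] in
lemma le0 (hL : Line κ p) (S : Finset ι) : sup p S ≤ m0 := sup_le' fun j _ => hL.le j

omit [IsProbabilityMeasure κ] in
lemma ind1 (hL : Line κ p) {j q : ι} {T : Finset ι} (hj : j ∉ T) (hq : q ∉ T) (h : q ≠ j) :
    Indep (p j) (sup p T) κ := by
  rw [← sup_singleton' p j]
  exact hL.ind _ _ (disjoint_singleton_left.2 hj) ⟨q, by simpa using h, hq⟩

/-- the partner of `v` at the point `q` -/
lemma one (hL : Line κ p) (h3 : 3 ≤ Fintype.card ι) {i0 q : ι} (hq : q ≠ i0) {v : Ω → ℂ}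
    (hv : BM κ (p i0) v) (hv' : BM κ (sup p (univ.erase i0)) v) (h0 : ¬ ∀ᵐ ω ∂κ, v ω = 0)
    (hE : ∀ ρ ρ' : ι → Ω → ℂ, (∀ k, BM κ (p k) (ρ k)) → (∀ k, BM κ (p k) (ρ' k)) →
      ∃ lam : ℂ, ∀ᵐ ω ∂κ, Cop κ (p i0) (p q) (pr ρ ((univ.erase i0).erase q))
        (pr ρ' ((univ.erase i0).erase q)) v ω = lam * v ω) :
    ∃ b η : Ω → ℂ, BM κ (p q) b ∧ BM κ (sup p ((univ.erase i0).erase q)) η ∧
      (∀ᵐ ω ∂κ, ‖b ω‖ = 1) ∧ (∀ᵐ ω ∂κ, v ω * b ω = η ω) ∧
      ∃ c : ℝ, 0 < c ∧ ∀ᵐ ω ∂κ, ‖v ω‖ = c := by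
  set Z := (univ.erase i0).erase q with hZ
  have hi := hL.le i0
  have hp := hL.le q
  have hz := le0 hL Z
  have hv0 := hv.mono hi
  have iZ : i0 ∉ Z := by simp [hZ]
  have qZ : q ∉ Z := by simp [hZ]
  have s1 : sup p (univ.erase i0) = p q ⊔ sup p Z := sup_erase' p (by simpa using hq)
  have s2 : sup p (univ.erase q) = p i0 ⊔ sup p Z := by
    rw [hZ, erase_right_comm]
    exact sup_erase' p (by simpa using hq.symm)
  obtain ⟨ρ, hρ, hb0⟩ : ∃ ρ : ι → Ω → ℂ, (∀ k, BM κ (p k) (ρ k)) ∧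
      ¬ ∀ᵐ ω ∂κ, (κ[fun ω => v ω * pr ρ Z ω | p q]) ω = 0 := by
    by_contra h
    push Not at h
    refine h0 (Perp.eq_zero ?_ (le0 hL _) hv')
    rw [s1]
    refine perp_sup_pr hp hL.le hv0 fun a ρ ha hρ => ?_
    rw [← perp_of_ce hp (hv0.mul ((BM.pr_sup fun k _ => hρ k).mono hz)) (h ρ hρ) a ha]
    exact integral_congr_ae (Eventually.of_forall fun ω => by ring)
  set b := κ[fun ω => v ω * pr ρ Z ω | p q] with hb
  have hρZ : BM κ (sup p Z) (pr ρ Z) := BM.pr_sup fun k _ => hρ k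
  have hbq : BM κ (p q) b := (hv0.mul (hρZ.mono hz)).ce _
  have hb' : BM κ (p i0 ⊔ sup p Z) b := by
    rw [← s2]
    refine dual_bm hp (le0 hL _) (hL.f2 q) ?_
    rw [s2]
    exact (hv.mono le_sup_left).mul (hρZ.mono le_sup_right)
  have hb1 := hbq.mono hp
  have hN : ∫ ω, v ω * (starRingEnd ℂ) (v ω) ∂κ ≠ 0 := fun h => h0 (eq_zero_of_int_conj hv0 h)
  set N := ∫ ω, v ω * (starRingEnd ℂ) (v ω) ∂κ with hNd
  have hvb := hv0.conj.mul hb1
  set η : Ω → ℂ := fun ω => N⁻¹ * (κ[fun ω => (starRingEnd ℂ) (v ω) * b ω | sup p Z]) ω with hη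
  have hηZ : BM κ (sup p Z) η := (hvb.ce _).cmul _
  have I1 : Indep (p i0) (sup p Z) κ := ind1 hL iZ qZ hq
  have I2 : Indep (p q) (sup p Z) κ := ind1 hL qZ iZ hq.symm
  have I3 : Indep (p q) (p i0) κ := by
    have hc : 0 < Z.card := by
      rw [hZ, card_erase_of_mem (by simpa using hq), card_erase_of_mem (mem_univ _), card_univ]
      omega
    obtain ⟨k, hk⟩ := card_pos.1 hc
    rw [← sup_singleton' p i0]
    exact ind1 hL (q := k) (by simpa using hq) (by simpa using (mem_erase.1 (mem_erase.1 hk).2).1)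
      (mem_erase.1 hk).1
  have hvη : BM κ (p i0 ⊔ sup p Z) fun ω => v ω * η ω :=
    (hv.mono le_sup_left).mul (hηZ.mono le_sup_right)
  have key : ∀ᵐ ω ∂κ, b ω - v ω * η ω = 0 := by
    refine Perp.eq_zero (perp_sup_pr hi hL.le (hb1.sub (hvη.mono (sup_le hi hz)))
      fun a ρ' ha hρ' => ?_) (sup_le hi hz) (hb'.sub hvη)
    have hρZ' : BM κ (sup p Z) (pr ρ' Z) := BM.pr_sup fun k _ => hρ' k
    obtain ⟨lam, hl⟩ := hE ρ ρ' hρ hρ'
    have e1 : ∀ u : Ω → ℂ, BM κ (p i0) u →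
        ∫ ω, b ω * (u ω * pr ρ' Z ω) ∂κ = lam * ∫ ω, v ω * u ω ∂κ := fun u hu => by
      have := int_ce_mul hi ((hρZ'.mono hz).mul hb1) hu
      rw [← integral_const_mul]
      refine (integral_congr_ae (Eventually.of_forall fun ω => by ring)).trans
        (this.symm.trans (integral_congr_ae ?_))
      filter_upwards [hl] with ω hω
      rw [← mul_assoc, ← hω]
      rfl
    have e2 : ∫ ω, η ω * pr ρ' Z ω ∂κ = lam := by
      simp only [hη, mul_assoc]
      rw [integral_const_mul, int_ce_mul hz hvb hρZ', inv_mul_eq_iff_eq_mul₀ hN, mul_comm N, hNd,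
        ← e1 _ hv.conj]
      exact integral_congr_ae (Eventually.of_forall fun ω => by ring)
    rw [int_sub_mul hb1 (hvη.mono (sup_le hi hz)) ((ha.mono hi).mul (hρZ'.mono hz)), e1 a ha,
      sub_eq_zero, mul_comm, ← e2, ← int_mul_indep hi hz I1 (hv.mul ha) (hηZ.mul hρZ')]
    exact integral_congr_ae (Eventually.of_forall fun ω => by ring)
  have hz0 : ∫ ω, b ω * (starRingEnd ℂ) (b ω) ∂κ ≠ 0 := fun h => hb0 (eq_zero_of_int_conj hb1 h)
  have ez : ∀ᵐ ω ∂κ, b ω * (starRingEnd ℂ) (b ω) =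
      (v ω * (starRingEnd ℂ) (v ω)) * (η ω * (starRingEnd ℂ) (η ω)) := by
    filter_upwards [key] with ω hω
    rw [sub_eq_zero.1 hω, map_mul]
    ring
  obtain ⟨cx, hx0, hx⟩ := cst hi hz hp I1.symm I3 (hv.mul hv.conj) (hηZ.mul hηZ.conj)
    (hbq.mul hbq.conj) ez hz0
  obtain ⟨cy, hy0, hy⟩ := cst hz hi hp I1 I2 (hηZ.mul hηZ.conj) (hv.mul hv.conj)
    (hbq.mul hbq.conj) (ez.mono fun ω h => h.trans (mul_comm _ _)) hz0
  have hs : 0 < Real.sqrt ‖cx * cy‖ := Real.sqrt_pos.2 (norm_pos_iff.2 (mul_ne_zero hx0 hy0))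
  refine ⟨fun ω => ((Real.sqrt ‖cx * cy‖ : ℝ) : ℂ)⁻¹ * (starRingEnd ℂ) (b ω),
    fun ω => (((Real.sqrt ‖cx * cy‖ : ℝ) : ℂ)⁻¹ * cx) * (starRingEnd ℂ) (η ω), hbq.conj.cmul _,
    hηZ.conj.cmul _, ?_, ?_, _, Real.sqrt_pos.2 (norm_pos_iff.2 hx0), hx.mono fun ω => norm_of⟩
  · filter_upwards [ez, hx, hy] with ω a b c
    rw [b, c] at a
    rw [norm_mul, Complex.norm_conj, norm_of a, norm_inv, Complex.norm_real,
      Real.norm_of_nonneg hs.le, inv_mul_cancel₀ hs.ne']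
  · filter_upwards [key, hx] with ω a b
    rw [sub_eq_zero.1 a, map_mul, ← b]
    ring

/-- a function that does not need any of the independent points is constant -/
lemma const_of (hL : Line κ p) (i0 : ι) {W : Ω → ℂ} (h0 : BM κ (sup p (univ.erase i0)) W)
    (h : ∀ q, q ≠ i0 → BM κ (sup p ((univ.erase i0).erase q)) W) : ∃ γ, ∀ᵐ ω ∂κ, W ω = γ := by
  have key : ∀ n (S : Finset ι), S.card = n → S ⊆ univ.erase i0 → BM κ (sup p S) W →
      BM κ ⊥ W := by
    intro n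
    induction n with
    | zero =>
      intro S hS _ hW
      rwa [card_eq_zero.1 hS, sup_empty'] at hW
    | succ n ih =>
      intro S hS hs hW
      obtain ⟨q, hq⟩ := card_pos.1 (by omega : 0 < S.card)
      have hq' := (mem_erase.1 (hs hq)).1
      refine ih (S.erase q) (by rw [card_erase_of_mem hq]; omega) ((erase_subset _ _).trans hs) ?_
      have h1 := ce_sup_indep (le0 hL _) (hL.le q) (sup_mono' p (erase_subset_erase q hs))
        (ind1 hL (q := i0) (by simp) (by simp) hq'.symm).symm (h q hq')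
      rw [sup_comm, ← sup_erase' p hq] at h1
      exact (hW.ce _).congr (h1.symm.trans (hW.ce_self (le0 hL _)))
  have h1 := (key _ _ rfl subset_rfl h0).ce_self bot_le
  rw [condExp_bot] at h1
  exact ⟨_, h1.symm⟩

end Rank1

open Rank1 in
theorem rank1 : RANK1 := by
  intro Ω m0 κ _ ι _ _ p hL h3 i0 v hv hv' h0 hE
  have h1 : ∀ q, ∃ b η : Ω → ℂ, q ≠ i0 → BM κ (p q) b ∧
      BM κ (sup p ((univ.erase i0).erase q)) η ∧ (∀ᵐ ω ∂κ, ‖b ω‖ = 1) ∧
      ∀ᵐ ω ∂κ, v ω * b ω = η ω := fun q => by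
    by_cases hq : q = i0
    · exact ⟨0, 0, fun h => absurd hq h⟩
    · obtain ⟨b, η, a1, a2, a3, a4, -⟩ := one hL h3 hq hv hv' h0 (hE q hq)
      exact ⟨b, η, fun _ => ⟨a1, a2, a3, a4⟩⟩
  choose b η h1 using h1
  obtain ⟨q0, hq0⟩ := Fintype.exists_ne_of_one_lt_card (by omega : 1 < Fintype.card ι) i0
  obtain ⟨-, -, -, -, -, -, c, hc, hvc⟩ := one hL h3 hq0 hv hv' h0 (hE q0 hq0)
  have hb : ∀ S : Finset ι, S ⊆ univ.erase i0 → BM κ (sup p S) (pr b S) := fun S hS =>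
    BM.pr_sup fun k hk => (h1 k (mem_erase.1 (hS hk)).1).1
  obtain ⟨γ, hγ⟩ := const_of hL i0 (hv'.mul (hb _ subset_rfl)) fun q hq => by
    refine ((h1 q hq).2.1.mul (hb _ (erase_subset _ _))).congr ?_
    filter_upwards [(h1 q hq).2.2.2] with ω hω
    rw [pr_erase b (j := q) (S := univ.erase i0) (by simpa using hq), ← hω, mul_assoc]
  refine ⟨(c : ℂ)⁻¹, inv_ne_zero (by exact_mod_cast hc.ne'),
    Function.update b i0 fun ω => (c : ℂ)⁻¹ * v ω, ⟨fun j => ?_, fun j => ?_, (c : ℂ)⁻¹ * γ, ?_⟩,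
    Function.update_self _ _ _⟩
  · by_cases hj : j = i0
    · rw [hj, Function.update_self]
      exact (hv.cmul _).1
    · rw [Function.update_of_ne hj]
      exact (h1 j hj).1.1
  · by_cases hj : j = i0
    · rw [hj, Function.update_self]
      filter_upwards [hvc] with ω hω
      rw [norm_mul, hω, norm_inv, Complex.norm_real, Real.norm_of_nonneg hc.le,
        inv_mul_cancel₀ hc.ne']
    · rw [Function.update_of_ne hj]
      exact (h1 j hj).2.2.1
  · filter_upwards [hγ] with ω hω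
    refine (pr_erase _ (mem_univ i0) ω).trans ?_
    rw [pr_update b (notMem_erase _ _), Function.update_self, mul_assoc, hω]

end Fib27

end MrgPart4

-- ======== part 5: formerly Pool.Agent.MP_154433_an.fib.Eig
section MrgPart5

/-! A commuting family of kernel operators has a bounded joint eigenvector. -/

set_option autoImplicit false

open MeasureTheory ProbabilityTheory Filter
open scoped ENNReal InnerProductSpace ComplexConjugate

namespace Fib27

namespace Eig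

/-- commuting operators have a joint eigenvector in every invariant space of finite dimension -/
lemma joint {V T : Type} [AddCommGroup V] [Module ℂ V] (C : T → Module.End ℂ V)
    (hc : ∀ τ τ' x, C τ (C τ' x) = C τ' (C τ x)) (n : ℕ) :
    ∀ (E : Submodule ℂ V) [FiniteDimensional ℂ E], Module.finrank ℂ E = n → E ≠ ⊥ →
      (∀ τ, ∀ x ∈ E, C τ x ∈ E) → ∃ v ∈ E, v ≠ 0 ∧ ∀ τ, ∃ a : ℂ, C τ v = a • v := by
  induction n using Nat.strong_induction_on with
  | _ n ih =>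
  intro E _ hn hE hi
  by_cases h : ∀ τ, ∃ a : ℂ, ∀ x ∈ E, C τ x = a • x
  · obtain ⟨v, hv, h0⟩ := E.ne_bot_iff.1 hE
    exact ⟨v, hv, h0, fun τ => (h τ).imp fun a ha => ha v hv⟩
  push Not at h
  obtain ⟨τ, h⟩ := h
  have := Submodule.nontrivial_iff_ne_bot.2 hE
  obtain ⟨a, ha⟩ := Module.End.exists_eigenvalue ((C τ).restrict (hi τ))
  obtain ⟨w, hw⟩ := ha.exists_hasEigenvector
  obtain ⟨x, hx, hx'⟩ := h a
  have hlt : E ⊓ (C τ).eigenspace a < E :=
    lt_of_le_of_ne inf_le_left fun e => hx' (Module.End.mem_eigenspace_iff.1 (e.ge hx).2)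
  have := Submodule.finiteDimensional_of_le hlt.le
  obtain ⟨v, hv, h1⟩ := ih _ (hn ▸ Submodule.finrank_lt_finrank_of_lt hlt)
    (E ⊓ (C τ).eigenspace a) rfl
    ((Submodule.ne_bot_iff _).2 ⟨w, ⟨w.2, Module.End.mem_eigenspace_iff.2
      (congrArg Subtype.val hw.apply_eq_smul)⟩, fun e => hw.2 (Subtype.ext e)⟩)
    fun τ' y hy => ⟨hi τ' y hy.1, Module.End.mem_eigenspace_iff.2 (by
      rw [hc, Module.End.mem_eigenspace_iff.1 hy.2, map_smul])⟩
  exact ⟨v, hv.1, h1⟩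

lemma lim {E F : Type} [NormedAddCommGroup E] [NormedSpace ℂ E] [NormedAddCommGroup F]
    [NormedSpace ℂ F] [CompleteSpace F] (A : E →L[ℂ] F)
    (h : ∀ ε : ℝ, 0 < ε → ∃ B : E →L[ℂ] F, IsCompactOperator B ∧ ‖A - B‖ < ε) :
    IsCompactOperator A :=
  isClosed_setOfPred_isCompactOperator.closure_subset (Metric.mem_closure_iff.2 fun ε hε =>
    (h ε hε).imp fun _ hB => ⟨hB.1, (dist_eq_norm _ _).trans_lt hB.2⟩)

/-- the spectral step -/
lemma spec {H T : Type} [NormedAddCommGroup H] [InnerProductSpace ℂ H] [CompleteSpace H]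
    (C : T → H →L[ℂ] H) (U : Submodule ℂ H) (h1 : ∀ τ, ∀ x ∈ U, C τ x ∈ U)
    (h2 : ∀ τ τ', ∀ x ∈ U, C τ (C τ' x) = C τ' (C τ x)) (τ0 : T) (M N : H →L[ℂ] H)
    (hN : ∀ x, C τ0 x = N (M x))
    (hM : ∀ x, ∀ y ∈ U.topologicalClosure, ⟪C τ0 x, y⟫_ℂ = ⟪M x, M y⟫_ℂ)
    (hcp : IsCompactOperator (M ∘L U.topologicalClosure.subtypeL)) {f : H} (hf : f ∈ U)
    (hf0 : M f ≠ 0) : ∃ v ∈ U.topologicalClosure, v ≠ 0 ∧ (∃ a : ℂ, a ≠ 0 ∧ C τ0 v = a • v) ∧
      ∀ τ, ∃ a : ℂ, C τ v = a • v := by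
  set V := U.topologicalClosure with hV
  have hCV : ∀ τ, ∀ x ∈ V, C τ x ∈ V := fun τ x hx => map_mem_closure (C τ).continuous hx (h1 τ)
  have hcomm : ∀ τ τ', ∀ x ∈ V, C τ (C τ' x) = C τ' (C τ x) := fun τ τ' x hx =>
    closure_minimal (t := {x | C τ (C τ' x) = C τ' (C τ x)}) (h2 τ τ')
      (isClosed_eq (by fun_prop) (by fun_prop)) hx
  let D : T → V →L[ℂ] V := fun τ => (C τ).restrict (hCV τ)
  have hD : ∀ x y : V, ⟪D τ0 x, y⟫_ℂ = ⟪M x, M y⟫_ℂ := fun x y => hM x y y.2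
  have hsym : (D τ0).IsSymmetric := fun x y => by
    simp only [ContinuousLinearMap.coe_coe]
    rw [← inner_conj_symm x, hD, hD, inner_conj_symm]
  have hc : IsCompactOperator (D τ0) := by
    have : IsCompactOperator fun x : V => C τ0 x := by
      simp only [hN]
      exact hcp.clm_comp N
    exact this.codRestrict (fun x => hCV τ0 x x.2) U.isClosed_topologicalClosure
  have hne : D τ0 ≠ 0 := fun e => by
    have a1 := hD ⟨f, U.le_topologicalClosure hf⟩ ⟨f, U.le_topologicalClosure hf⟩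
    rw [e, zero_apply, inner_zero_left, eq_comm, inner_self_eq_zero] at a1
    exact hf0 a1
  obtain ⟨lam, hl, hl0⟩ : ∃ lam, Module.End.HasEigenvalue (D τ0 : Module.End ℂ V) lam ∧ lam ≠ 0 := by
    by_contra! c
    exact hne ((ContinuousLinearMap.eq_zero_of_forall_hasEigenvalue_eq_zero hc hsym).1 c)
  have := ContinuousLinearMap.finite_dimensional_eigenspace hc lam hl0
  have hDc : ∀ τ τ' (x : V), D τ (D τ' x) = D τ' (D τ x) := fun τ τ' x =>
    Subtype.ext (hcomm τ τ' x x.2)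
  obtain ⟨v, hv, hv0, hv1⟩ := joint (fun τ => (D τ : Module.End ℂ V)) hDc _ _ rfl hl
    fun τ x hx => Module.End.mem_eigenspace_iff.2 (by
      have := Module.End.mem_eigenspace_iff.1 hx
      simp only [ContinuousLinearMap.coe_coe] at this ⊢
      rw [hDc, this, map_smul])
  exact ⟨v, v.2, fun e => hv0 (Subtype.ext e),
    ⟨lam, hl0, congrArg Subtype.val (Module.End.mem_eigenspace_iff.1 hv)⟩,
    fun τ => (hv1 τ).imp fun a ha => congrArg Subtype.val ha⟩

variable {Ω : Type} {m m' : MeasurableSpace Ω} {m0 : MeasurableSpace Ω} {κ : Measure Ω}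
  [IsProbabilityMeasure κ] {ρ ρ' : Ω → ℂ}

lemma memLp (h : BM κ m0 ρ) (p : ℝ≥0∞) : MemLp ρ p κ := by
  obtain ⟨C, hC⟩ := h.2
  exact MemLp.of_bound h.1 C hC

/-- a bounded function as an element of `L2` -/
noncomputable def tl (h : BM κ m0 ρ) : Lp ℂ 2 κ := (memLp h 2).toLp ρ

lemma tl_coe (h : BM κ m0 ρ) : tl h =ᵐ[κ] ρ := MemLp.coeFn_toLp _

/-- multiplication by a bounded function -/
noncomputable def mulL (h : BM κ m0 ρ) : Lp ℂ 2 κ →L[ℂ] Lp ℂ 2 κ :=
  (ContinuousLinearMap.mul ℂ ℂ).holderL κ ∞ 2 2 ((memLp h ∞).toLp ρ)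

lemma mulL_coe (h : BM κ m0 ρ) (x : Lp ℂ 2 κ) : mulL h x =ᵐ[κ] fun ω => x ω * ρ ω := by
  filter_upwards [(ContinuousLinearMap.mul ℂ ℂ).coeFn_holder (r := 2) ((memLp h ∞).toLp ρ) x,
    (memLp h ∞).coeFn_toLp] with ω a b
  rw [b, ContinuousLinearMap.mul_apply', mul_comm] at a
  exact a

/-- multiplication followed by conditional expectation -/
noncomputable def Mo (hm : m ≤ m0) (h : BM κ m0 ρ) : Lp ℂ 2 κ →L[ℂ] Lp ℂ 2 κ :=
  (lpMeas ℂ ℂ m 2 κ).subtypeL ∘L condExpL2 ℂ ℂ hm ∘L mulL h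

lemma Mo_coe (hm : m ≤ m0) (h : BM κ m0 ρ) (x : Lp ℂ 2 κ) :
    Mo hm h x =ᵐ[κ] κ[fun ω => x ω * ρ ω | m] := by
  have := (Lp.memLp (mulL h x)).condExpL2_ae_eq_condExp (𝕜 := ℂ) hm
  rw [Lp.toLp_coeFn] at this
  exact this.trans (condExp_congr_ae (mulL_coe h x))

lemma Cop_coe (hm : m ≤ m0) (hm' : m' ≤ m0) (h : BM κ m0 ρ) (h' : BM κ m0 ρ') (x : Lp ℂ 2 κ)
    {a : Ω → ℂ} (e : x =ᵐ[κ] a) : Mo hm h' (Mo hm' h x) =ᵐ[κ] Cop κ m m' ρ ρ' a := by
  refine (Mo_coe hm h' _).trans (condExp_congr_ae ?_)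
  have : κ[fun ω => x ω * ρ ω | m'] =ᵐ[κ] κ[fun ω => a ω * ρ ω | m'] :=
    condExp_congr_ae (e.mono fun ω hω => by simp only [hω])
  filter_upwards [Mo_coe hm' h x, this] with ω a1 a2
  rw [a1, a2, mul_comm]

omit [IsProbabilityMeasure κ] in
lemma inn (x y : Lp ℂ 2 κ) {a b : Ω → ℂ} (ha : x =ᵐ[κ] a) (hb : y =ᵐ[κ] b) :
    ⟪x, y⟫_ℂ = ∫ ω, conj (a ω) * b ω ∂κ := by
  rw [L2.inner_def]
  refine integral_congr_ae ?_
  filter_upwards [ha, hb] with ω h1 h2
  rw [h1, h2, RCLike.inner_apply, mul_comm]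

lemma inn_Mo (hm : m ≤ m0) (h : BM κ m0 ρ) (x y : Lp ℂ 2 κ) (hy : AEStronglyMeasurable[m] y κ) :
    ⟪Mo hm h x, y⟫_ℂ = ⟪mulL h x, y⟫_ℂ := inner_condExpL2_eq_inner_fun hm _ y hy

lemma meas_Mo (hm : m ≤ m0) (h : BM κ m0 ρ) (x : Lp ℂ 2 κ) :
    AEStronglyMeasurable[m] (Mo hm h x) κ := aestronglyMeasurable_condExpL2 hm _

lemma inn_Cop (hm : m ≤ m0) (hm' : m' ≤ m0) (h : BM κ m0 ρ) (h' : BM κ m0 ρ')
    (e : ∀ ω, ρ' ω = conj (ρ ω)) (x y : Lp ℂ 2 κ) (hy : AEStronglyMeasurable[m] y κ) :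
    ⟪Mo hm h' (Mo hm' h x), y⟫_ℂ = ⟪Mo hm' h x, Mo hm' h y⟫_ℂ := by
  rw [inn_Mo hm h' _ y hy, ← inner_conj_symm (Mo hm' h x), inn_Mo hm' h y _ (meas_Mo hm' h x),
    inner_conj_symm, inn _ _ (mulL_coe h' _) EventuallyEq.rfl,
    inn _ _ EventuallyEq.rfl (mulL_coe h y)]
  simp only [e, map_mul, Complex.conj_conj, mul_assoc, mul_comm (ρ _)]

/-- the image of a function of an independent field is bounded -/
lemma bm_Mo (hm : m ≤ m0) (hm' : m' ≤ m0) (hI : Indep m m' κ) (h : BM κ m0 ρ) (x : Lp ℂ 2 κ)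
    (hx : AEStronglyMeasurable[m] x κ) : BM κ m' (Mo hm' h x) := by
  obtain ⟨C, hC⟩ := h.2
  have hi : Integrable x κ := (Lp.memLp x).integrable one_le_two
  have h1 : κ[fun ω => ‖x ω * ρ ω‖ | m'] ≤ᵐ[κ] κ[fun ω => ‖x ω‖ * C | m'] :=
    condExp_mono (hi.mul_bdd h.1 hC).norm (hi.norm.mul_const C)
      (hC.mono fun ω hω => (norm_mul_le _ _).trans (mul_le_mul_of_nonneg_left hω (norm_nonneg _)))
  have h2 : AEStronglyMeasurable[m] (fun ω => ‖x ω‖ * C) κ :=
    (continuous_norm.mul continuous_const).comp_aestronglyMeasurable hx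
  have h3 := (condExp_congr_ae (m := m') h2.ae_eq_mk).trans
    (condExp_indep_eq hm hm' h2.stronglyMeasurable_mk hI)
  refine ⟨meas_Mo hm' h x, ∫ ω, h2.mk _ ω ∂κ, ?_⟩
  filter_upwards [Mo_coe hm' h x, norm_condExp_le (m := m') (μ := κ) fun ω => x ω * ρ ω, h1, h3]
    with ω a1 a2 a3 a4
  rw [a1, ← a4]
  exact a2.trans a3

variable (κ m) in
/-- bounded functions of a field -/
def Bm : Submodule ℂ (Lp ℂ 2 κ) where
  carrier := {x | BM κ m x}
  add_mem' := fun {x y} hx hy => K.congr (K.sub hx (K.mul (K.const (-1)) hy)) (by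
    filter_upwards [Lp.coeFn_add x y] with ω h
    rw [h, Pi.add_apply]
    ring)
  zero_mem' := K.congr (K.const 0) (Lp.coeFn_zero _ _ _).symm
  smul_mem' := fun c x hx => K.congr (K.mul (K.const c) hx) (Lp.coeFn_smul c x).symm

/-- finite sums of products are kernels of compact operators -/
lemma ker (hm : m ≤ m0) (hm' : m' ≤ m0) (hI : Indep m m' κ) (k : Lp ℂ 2 κ)
    (hk : k ∈ Submodule.span ℂ
      {z : Lp ℂ 2 κ | ∃ a b, BM κ m a ∧ BM κ m' b ∧ z =ᵐ[κ] fun ω => a ω * b ω}) :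
    ∃ L : Lp ℂ 2 κ →L[ℂ] Lp ℂ 2 κ, IsCompactOperator L ∧ (∀ x, L x ∈ Bm m' κ) ∧
      ∀ x ∈ Bm m κ, ∀ y ∈ Bm m' κ, ∀ z : Lp ℂ 2 κ, (z =ᵐ[κ] fun ω => conj (x ω) * y ω) →
        ⟪y, L x⟫_ℂ = ⟪z, k⟫_ℂ := by
  induction hk using Submodule.span_induction with
  | mem k hk =>
    obtain ⟨a, b, ha, hb, e⟩ := hk
    have ha' := K.mono (K.conj ha) hm
    have hb' := K.mono hb hm'
    refine ⟨(ContinuousLinearMap.toSpanSingleton ℂ (tl hb')) ∘L innerSL ℂ (tl ha'),
      (isCompactOperator_of_locallyCompactSpace_dom (innerSL ℂ (tl ha'))).clm_comp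
        (ContinuousLinearMap.toSpanSingleton ℂ (tl hb')),
      fun x => Submodule.smul_mem _ _ (K.congr hb (tl_coe hb').symm), fun x hx y hy z hz => ?_⟩
    simp only [ContinuousLinearMap.comp_apply, ContinuousLinearMap.toSpanSingleton_apply,
      innerSL_apply_apply, inner_smul_right]
    rw [inn _ _ (tl_coe ha') EventuallyEq.rfl, inn _ _ EventuallyEq.rfl (tl_coe hb'), inn _ _ hz e,
      ← K.indep_mul hm hm' hI (K.mul (K.conj (K.conj ha)) hx) (K.mul (K.conj hy) hb)]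
    congr 1
    ext ω
    simp only [map_mul, Complex.conj_conj]
    ring
  | zero => exact ⟨0, isCompactOperator_zero, fun _ => zero_mem _, fun _ _ _ _ _ _ => by simp⟩
  | add k k' _ _ h h' =>
    obtain ⟨L, a1, a2, a3⟩ := h
    obtain ⟨L', b1, b2, b3⟩ := h'
    refine ⟨L + L', a1.add b1, fun x => add_mem (a2 x) (b2 x), fun x hx y hy z hz => ?_⟩
    rw [add_apply, inner_add_right, inner_add_right, a3 x hx y hy z hz,
      b3 x hx y hy z hz]
  | smul c k _ h =>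
    obtain ⟨L, a1, a2, a3⟩ := h
    refine ⟨c • L, a1.smul c, fun x => Submodule.smul_mem _ _ (a2 x), fun x hx y hy z hz => ?_⟩
    rw [smul_apply, inner_smul_right, inner_smul_right, a3 x hx y hy z hz]

/-- compactness on the functions of an independent field -/
lemma compact (hm : m ≤ m0) (hm' : m' ≤ m0) (hI : Indep m m' κ) (h : BM κ m0 ρ)
    (U : Submodule ℂ (Lp ℂ 2 κ)) (hU : U ≤ Bm m κ) :
    IsCompactOperator (Mo hm' h ∘L U.topologicalClosure.subtypeL) := by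
  refine lim _ fun ε hε => ?_
  set W := Submodule.span ℂ
    {z : Lp ℂ 2 κ | ∃ a b, BM κ m a ∧ BM κ m' b ∧ z =ᵐ[κ] fun ω => a ω * b ω} with hW
  obtain ⟨k, hk, hd⟩ := Metric.mem_closure_iff.1
    (W.topologicalClosure.starProjection_apply_mem (tl h)) (ε / 2) (half_pos hε)
  obtain ⟨L, a1, a2, a3⟩ := ker hm hm' hI k hk
  refine ⟨L ∘L U.topologicalClosure.subtypeL, a1.comp_clm _, ?_⟩
  rw [dist_eq_norm] at hd
  refine lt_of_le_of_lt (ContinuousLinearMap.opNorm_le_bound _ (half_pos hε).le fun x => ?_)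
    (half_lt_self hε)
  have hcl : IsClosed {x : Lp ℂ 2 κ | ‖Mo hm' h x - L x‖ ≤ ε / 2 * ‖x‖} :=
    isClosed_le (by fun_prop) (by fun_prop)
  refine closure_minimal (fun x hx => ?_) hcl x.2
  have hx' : BM κ m x := hU hx
  have hy : BM κ m' (Mo hm' h x - L x : Lp ℂ 2 κ) :=
    sub_mem (show Mo hm' h x ∈ Bm m' κ from bm_Mo hm hm' hI h x hx'.1) (a2 x)
  set y := Mo hm' h x - L x with hyd
  have hz := K.mul (K.mono (K.conj hx') hm) (K.mono hy hm')
  have b1 : ⟪y, y⟫_ℂ = ⟪tl hz, W.topologicalClosure.starProjection (tl h) - k⟫_ℂ := by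
    rw [inner_sub_right (tl hz), ← a3 x hx' y hy _ (tl_coe hz),
      ← Submodule.inner_starProjection_left_eq_right, Submodule.starProjection_eq_self_iff.2
        (W.le_topologicalClosure (Submodule.subset_span ⟨_, _, K.conj hx', hy, tl_coe hz⟩))]
    rw [inner_sub_right y, ← inner_conj_symm y, inn_Mo hm' h x y hy.1, inner_conj_symm,
      inn _ _ EventuallyEq.rfl (mulL_coe h x), inn _ _ (tl_coe hz) (tl_coe h)]
    congr 2
    ext ω
    simp only [map_mul, Complex.conj_conj]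
    ring
  have b2 : ⟪tl hz, tl hz⟫_ℂ = ⟪x, x⟫_ℂ * ⟪y, y⟫_ℂ := by
    rw [inn _ _ (tl_coe hz) (tl_coe hz), inn x x EventuallyEq.rfl EventuallyEq.rfl,
      inn y y EventuallyEq.rfl EventuallyEq.rfl,
      ← K.indep_mul hm hm' hI (K.mul (K.conj hx') hx') (K.mul (K.conj hy) hy)]
    congr 1
    ext ω
    simp only [map_mul, Complex.conj_conj]
    ring
  have b3 : ‖tl hz‖ = ‖x‖ * ‖y‖ := by
    have := congrArg norm b2
    simp only [norm_mul, inner_self_eq_norm_sq_to_K, norm_pow, RCLike.norm_ofReal, abs_norm,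
      ← mul_pow] at this
    exact (pow_left_inj₀ (norm_nonneg _) (by positivity) two_ne_zero).1 this
  have b4 := (congrArg norm b1).trans_le (norm_inner_le_norm _ _)
  simp only [inner_self_eq_norm_sq_to_K, norm_pow, RCLike.norm_ofReal, abs_norm, b3] at b4
  rcases (norm_nonneg y).eq_or_lt with c | c
  · exact c.ge.trans (by positivity)
  · refine le_of_mul_le_mul_right ?_ c
    have := mul_le_mul_of_nonneg_left hd.le (mul_nonneg (norm_nonneg x) c.le)
    nlinarith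

end Eig

open Eig

theorem eig : EIG := by
  intro Ω m0 κ _ T S m m' o ρ ρ' U hm hm' ho hI hρ hρ' hU h1 h2 τ0 f he hf hf0
  have hUc : ∀ a b : Ω → ℂ, U a → a =ᵐ[κ] b → U b := fun a b ha e => by
    rw [hU] at ha ⊢
    exact ⟨K.congr ha.1 e, integral_congr_ae e ▸ ha.2.1, fun σ => K.congr (ha.2.2 σ) e⟩
  have h10 : BM κ m0 fun _ => (1 : ℂ) := K.const 1
  have hint : ∀ x : Lp ℂ 2 κ, innerSL ℂ (tl h10) x = ∫ ω, x ω ∂κ := fun x => by
    rw [innerSL_apply_apply, inn _ _ (tl_coe h10) EventuallyEq.rfl]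
    simp
  set U' : Submodule ℂ (Lp ℂ 2 κ) := Bm m κ ⊓ (innerSL ℂ (tl h10)).ker ⊓ ⨅ σ, Bm (o σ) κ with hU'
  have hUU : ∀ x : Lp ℂ 2 κ, x ∈ U' ↔ U x := fun x => by
    rw [hU, hU', Submodule.mem_inf, Submodule.mem_inf, Submodule.mem_iInf, LinearMap.mem_ker,
      ContinuousLinearMap.coe_coe, hint, and_assoc]
    rfl
  have hUm : U' ≤ Bm m κ := inf_le_left.trans inf_le_left
  obtain ⟨C, hCd⟩ : ∃ C : T → Lp ℂ 2 κ →L[ℂ] Lp ℂ 2 κ,
      ∀ τ x, C τ x = Mo hm (hρ' τ) (Mo (hm' τ) (hρ τ) x) :=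
    ⟨fun τ => Mo hm (hρ' τ) ∘L Mo (hm' τ) (hρ τ), fun _ _ => rfl⟩
  have hC : ∀ τ (x : Lp ℂ 2 κ) (a : Ω → ℂ), x =ᵐ[κ] a →
      C τ x =ᵐ[κ] Cop κ m (m' τ) (ρ τ) (ρ' τ) a := fun τ x a e =>
    hCd τ x ▸ Cop_coe hm (hm' τ) (hρ τ) (hρ' τ) x e
  have hVm : ∀ x ∈ U'.topologicalClosure, AEStronglyMeasurable[m] (x : Lp ℂ 2 κ) κ := fun x hx =>
    closure_minimal (fun y hy => (hUm hy).1) (isClosed_aestronglyMeasurable hm) hx
  have hf' := K.mono ((hU f).1 hf).1 hm
  obtain ⟨v, hv, hv0, ⟨lam, hl0, hl⟩, hv1⟩ := spec C U'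
    (fun τ y hy => (hUU _).2 (hUc _ _ (h1 τ y ((hUU y).1 hy)) (hC τ y y EventuallyEq.rfl).symm))
    (fun τ τ' y hy => Lp.ext
      (((hC τ _ _ (hC τ' y y EventuallyEq.rfl)).trans (h2 τ τ' y ((hUU y).1 hy))).trans
        (hC τ' _ _ (hC τ y y EventuallyEq.rfl)).symm)) τ0 (Mo (hm' τ0) (hρ τ0)) (Mo hm (hρ' τ0))
    (hCd τ0) (fun x y hy => hCd τ0 x ▸ inn_Cop hm (hm' τ0) (hρ τ0) (hρ' τ0) he x y (hVm y hy))
    (compact hm (hm' τ0) (hI τ0) (hρ τ0) U' hUm) ((hUU _).2 (hUc _ _ hf (tl_coe hf').symm))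
    fun a1 => by
      have a2 := Mo_coe (hm' τ0) (hρ τ0) (tl hf')
      rw [a1] at a2
      refine hf0 (((condExp_congr_ae ((tl_coe hf').mono fun ω hω => ?_)).symm.trans a2.symm).trans
        (Lp.coeFn_zero _ _ _))
      simp only [hω]
  have hev : ∀ τ (a : ℂ), C τ v = a • v → C τ v =ᵐ[κ] fun ω => a * v ω := fun τ a e => by
    rw [e]
    exact Lp.coeFn_smul _ _
  have hb : BM κ m v := by
    have a1 := K.cond (K.mul (K.mono (bm_Mo hm (hm' τ0) (hI τ0) (hρ τ0) v (hVm v hv)) (hm' τ0))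
      (hρ' τ0)) m
    have a2 := K.congr a1 ((Mo_coe hm (hρ' τ0) _).symm.trans (hCd τ0 v ▸ hev τ0 lam hl))
    simpa only [inv_mul_cancel_left₀ hl0] using K.mul (K.const lam⁻¹) a2
  refine ⟨v, (hU _).2 ⟨hb, ?_, fun σ => K.of hb ?_⟩,
    fun e => hv0 (Lp.ext (EventuallyEq.trans e (Lp.coeFn_zero _ _ _).symm)),
    fun τ => (hv1 τ).imp fun a ha => (hC τ _ _ EventuallyEq.rfl).symm.trans (hev τ a ha)⟩
  · rw [← hint]
    exact closure_minimal (fun y hy => hy.1.2) (innerSL ℂ (tl h10)).isClosed_ker hv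
  · exact closure_minimal (fun y hy => (((hU _).1 ((hUU y).1 hy)).2.2 σ).1)
      (isClosed_aestronglyMeasurable (ho σ)) hv

end Fib27

end MrgPart5

-- ======== part 6: formerly Pool.Agent.MP_154433_an.fib.R2C
section MrgPart6

/-! From real test functions to bounded complex functions. -/

set_option autoImplicit false

open MeasureTheory ProbabilityTheory Filter Finset

namespace Fib27.R2c

open K Mult

variable {Ω : Type} {A O : MeasurableSpace Ω} {m0 : MeasurableSpace Ω} {μ : Measure Ω}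
  [IsProbabilityMeasure μ]

/-- indicators are dense -/
lemma dens1 (hA : A ≤ m0) {X Y : Ω → ℂ} (hX : BM μ m0 X) (hY : BM μ m0 Y)
    (e : ∀ s, MeasurableSet[A] s → ∫ x, X x * s.indicator (fun _ => (1 : ℂ)) x ∂μ =
      ∫ x, Y x * s.indicator (fun _ => (1 : ℂ)) x ∂μ) (w : Ω → ℂ) (hw : BM μ A w) :
    ∫ x, X x * w x ∂μ = ∫ x, Y x * w x ∂μ := by
  have h : μ[X | A] =ᵐ[μ] μ[Y | A] := ae_eq_condExp_of_forall_setIntegral_eq hA (int hY le_rfl)
    (fun s _ _ => integrable_condExp.integrableOn) (fun s hs _ => by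
      rw [setIntegral_condExp hA (int hX le_rfl) hs, ← int_ind hA hs, ← int_ind hA hs, e s hs])
    stronglyMeasurable_condExp.aestronglyMeasurable
  rw [← adj' hA hw hX, icongr h, adj' hA hw hY]

lemma keep (hA : A ≤ m0) (hO : O ≤ m0) (h : ∀ s, MeasurableSet[A] s →
    AEStronglyMeasurable[A] (μ[s.indicator fun _ => (1 : ℂ) | O]) μ) {a : Ω → ℂ}
    (ha : BM μ A a) : BM μ A (μ[a | O]) := by
  have hV := mono (cond ha O) hO
  refine congr (cond hV A) (ext le_rfl (mono (cond hV _) hA) hV fun T hT => ?_)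
  have hT' := mono (cond hT A) hA
  rw [sym hA hV hT, sym hO (mono ha hA) hT', sym hO (mono ha hA) hT]
  simp only [mul_comm (a _)]
  refine dens1 hA (mono (cond hT' _) hO) (mono (cond hT _) hO) (fun s hs => ?_) a ha
  have hi : BM μ A _ := ind hs
  rw [sym hO hT' (mono hi hA), sym hO hT (mono hi hA)]
  exact adj' hA (of (cond hi O) (h s hs)) hT

variable {ι : Type} [Fintype ι] [DecidableEq ι]

lemma lin (hO : O ≤ m0) (a : ι → Ω → ℂ) (ha : ∀ k, BM μ m0 (a k)) (j k : ι) :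
    ∃ W, BM μ m0 W ∧ ∀ b, BM μ m0 b →
      ∫ x, (μ[Function.update a k b j | O]) x * pr (Function.update a k b) (univ.erase j) x ∂μ =
        ∫ x, W x * b x ∂μ := by
  have u : ∀ (b : Ω → ℂ) (S : Finset ι), k ∉ S → ∀ x, pr (Function.update a k b) S x = pr a S x :=
    fun b S hS x => prod_congr rfl fun i hi => by
      rw [Function.update_of_ne (by rintro rfl; exact hS hi)]
  have hp : ∀ S, BM μ m0 (pr a S) := fun S => K.prod S a fun i _ => ha i
  by_cases c : k = j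
  · subst c
    refine ⟨_, mono (cond (hp (univ.erase k)) O) hO, fun b hb => ?_⟩
    simp only [Function.update_self, u b _ (notMem_erase k _)]
    rw [sym hO hb (hp _)]
    exact iring fun x => mul_comm _ _
  · refine ⟨_, mul (mono (cond (ha j) O) hO) (hp ((univ.erase j).erase k)), fun b _ => ?_⟩
    refine iring fun x => ?_
    rw [Function.update_of_ne (Ne.symm c), pr,
      ← mul_prod_erase _ _ (show k ∈ univ.erase j by simp [c]), Function.update_self]
    have := u b _ (notMem_erase k (univ.erase j)) x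
    rw [pr] at this
    rw [this]
    ring

lemma multi {p o : ι → MeasurableSpace Ω} (hp : ∀ k, p k ≤ m0) (ho : ∀ k, o k ≤ m0) (j j' : ι)
    (h : ∀ a : ι → Ω → ℂ, (∀ k, ∃ s, MeasurableSet[p k] s ∧ a k = s.indicator fun _ => (1 : ℂ)) →
      ∫ x, (μ[a j | o j]) x * pr a (univ.erase j) x ∂μ =
        ∫ x, (μ[a j' | o j']) x * pr a (univ.erase j') x ∂μ) (S : Finset ι) :
    ∀ a : ι → Ω → ℂ, (∀ k, BM μ (p k) (a k)) →
      (∀ k, k ∉ S → ∃ s, MeasurableSet[p k] s ∧ a k = s.indicator fun _ => (1 : ℂ)) →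
      ∫ x, (μ[a j | o j]) x * pr a (univ.erase j) x ∂μ =
        ∫ x, (μ[a j' | o j']) x * pr a (univ.erase j') x ∂μ := by
  induction S using Finset.induction_on with
  | empty => exact fun a _ h2 => h a fun k => h2 k (notMem_empty k)
  | insert k S _ ih =>
    intro a h1 h2
    have h0 := fun i => mono (h1 i) (hp i)
    obtain ⟨W, hW, e⟩ := lin (ho j) a h0 j k
    obtain ⟨W', hW', e'⟩ := lin (ho j') a h0 j' k
    have := dens1 (hp k) hW hW' (fun s hs => ?_) (a k) (h1 k)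
    · rwa [← e _ (h0 k), ← e' _ (h0 k), Function.update_eq_self] at this
    rw [← e _ (mono (ind hs) (hp k)), ← e' _ (mono (ind hs) (hp k))]
    refine ih _ (fun i => ?_) fun i hi => ?_
    · by_cases c : i = k
      · subst c
        simpa using ind hs
      · simpa [c] using h1 i
    · by_cases c : i = k
      · subst c
        exact ⟨s, hs, by simp⟩
      · simpa [c] using h2 i (by simp [c, hi])

omit [IsProbabilityMeasure μ] in
lemma ofR (O : MeasurableSpace Ω) {g : Ω → ℝ} (hg : Integrable g μ) :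
    μ[fun x => (g x : ℂ) | O] =ᵐ[μ] fun x => ((μ[g | O]) x : ℂ) :=
  (Complex.ofRealCLM.comp_condExp_comm hg (m := O)).symm

end Fib27.R2c

namespace Fib27

open K Mult R2c

theorem r2c : R2C := by
  intro J E _ _ l r κ _ hr hG
  have hP : ∀ c : J → ℤ, P E c ≤ (inferInstance : MeasurableSpace ((J → ℤ) → E)) := fun c =>
    (measurable_pi_apply c).comap_le
  have hb : ∀ (B : Set E) (e : E), |B.indicator (fun _ => (1 : ℝ)) e| ≤ 1 := fun B e => by
    by_cases h : e ∈ B <;> simp [h]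
  have hi : ∀ (B : Set E) (c : J → ℤ), MeasurableSet B →
      Integrable (fun ω : (J → ℤ) → E => B.indicator (fun _ => (1 : ℝ)) (ω c)) κ := fun B c hB =>
    Integrable.of_bound ((measurable_const.indicator hB).comp
      (measurable_pi_apply c)).aestronglyMeasurable 1 (Eventually.of_forall fun ω => hb B _)
  have he : ∀ (B : Set E) (c : J → ℤ), ((fun ω : (J → ℤ) → E => ω c) ⁻¹' B).indicator
      (fun _ => (1 : ℂ)) = fun ω => ((B.indicator (fun _ => (1 : ℝ)) (ω c) : ℝ) : ℂ) :=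
    fun B c => funext fun ω => by by_cases h : ω c ∈ B <;> simp [h]
  refine ⟨hP, fun t b S T hST ⟨q, hq, hq'⟩ => ?_, fun m S hm => ?_, fun c t s i => ?_⟩
  · have h1 : ((S ∪ T).image fun k => b + r k).card ≤ l := by
      refine card_image_le.trans ((card_le_card (t := univ.erase q) fun k hk => ?_).trans
        (by simp))
      rw [mem_erase]
      refine ⟨?_, mem_univ _⟩
      rintro rfl
      exact (mem_union.1 hk).elim hq hq'
    have h2 := indep_iSup_of_disjoint (fun m => iSup₂_le fun c _ => hP c) (hG.f1 t _ h1)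
      (S := {m | ∃ k ∈ S, (m : ℤ) = b + r k}) (T := {m | ∃ k ∈ T, (m : ℤ) = b + r k}) (by
        rw [Set.disjoint_left]
        rintro m ⟨k, hk, e⟩ ⟨k', hk', e'⟩
        have := hr (add_left_cancel (e.symm.trans e'))
        subst this
        exact disjoint_left.1 hST hk hk')
    refine indep_of_indep_of_le_right (indep_of_indep_of_le_left h2 (sp_le _ fun k hk => ?_))
      (sp_le _ fun k hk => ?_)
    · exact le_iSup₂_of_le ⟨b + r k, mem_image_of_mem _ (mem_union_left _ hk)⟩ ⟨k, hk, rfl⟩ le_rfl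
    · exact le_iSup₂_of_le ⟨b + r k, mem_image_of_mem _ (mem_union_right _ hk)⟩ ⟨k, hk, rfl⟩ le_rfl
  · have h2 := indep_iSup_of_disjoint (fun m => hP _) hG.f1d (S := {m}) (T := (S : Set ℤ))
      (by simpa using hm)
    refine indep_of_indep_of_le_left h2 ?_
    exact le_iSup₂_of_le m rfl le_rfl
  · have ho : ∀ k, O E r (c + Pi.single t (r k)) s i ≤ _ := fun k => iSup₂_le fun j _ => hP _
    refine ⟨ho, fun k a ha => keep (hP _) (ho k) ?_ ha, fun a ha j j' =>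
      multi (fun k => hP _) ho j j' (fun a h => ?_) univ a ha fun k hk => absurd (mem_univ k) hk⟩
    · rintro _ ⟨B, hB, rfl⟩
      rw [he]
      exact (Complex.continuous_ofReal.comp_aestronglyMeasurable
        (hG.f2 _ s i _ (measurable_const.indicator hB) (hb B))).congr (ofR _ (hi B _ hB)).symm
    · have h' : ∀ k, ∃ B : Set E, MeasurableSet B ∧ a k = fun ω =>
          ((B.indicator (fun _ => (1 : ℝ)) (ω (c + Pi.single t (r k))) : ℝ) : ℂ) := fun k => by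
        obtain ⟨_, ⟨B, hB, rfl⟩, e⟩ := h k
        exact ⟨B, hB, e.trans (he B _)⟩
      choose B hB e using h'
      have e3 := congrArg (fun x : ℝ => (x : ℂ)) (hG.f3 c t s i
        (fun k => (B k).indicator fun _ => 1) (fun k => measurable_const.indicator (hB k))
        (fun k => hb (B k)) j j')
      simp only [← integral_complex_ofReal, Complex.ofReal_mul, Complex.ofReal_prod] at e3
      rw [e j, e j', icongr (ofR _ (hi _ _ (hB j))), icongr (ofR _ (hi _ _ (hB j')))]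
      simpa only [pr, e] using e3

end Fib27

end MrgPart6

-- ======== part 7: formerly Pool.Agent.MP_154433_an.fib.Lab
section MrgPart7

/-! FIB: countably many labels for unimodular functions; functions with a common label are not
orthogonal. -/

open MeasureTheory

namespace Fib27

theorem lab (E : Type) [MeasurableSpace E] [MeasurableSpace.CountablyGenerated E] :
    ∃ lab : MeasureTheory.Measure E → ℕ → (E → ℂ) → Prop, ∀ μ : MeasureTheory.Measure E,
      MeasureTheory.IsProbabilityMeasure μ →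
      (∀ χ, Measurable χ → (∀ u, ‖χ u‖ = 1) → ∃ n, lab μ n χ) ∧
      ∀ n χ ψ, Measurable χ → Measurable ψ → (∀ u, ‖χ u‖ = 1) → (∀ u, ‖ψ u‖ = 1) → lab μ n χ →
        lab μ n ψ → ∫ u, χ u * (starRingEnd ℂ) (ψ u) ∂μ ≠ 0 := by
  have key : ∀ μ : Measure E, ∃ v : ℕ → Lp ℂ 1 μ, IsProbabilityMeasure μ → DenseRange v := by
    intro μ
    by_cases h : IsProbabilityMeasure μ
    · have : Fact ((1 : ENNReal) ≠ ⊤) := ⟨by simp⟩
      exact ⟨TopologicalSpace.denseSeq _, fun _ => TopologicalSpace.denseRange_denseSeq _⟩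
    · exact ⟨0, fun h' => absurd h' h⟩
  choose v hv using key
  refine ⟨fun μ n χ => ∫ u, ‖χ u - v μ n u‖ ∂μ < 1 / 4, fun μ hμ => ?_⟩
  have int : ∀ χ : E → ℂ, Measurable χ → (∀ u, ‖χ u‖ = 1) → Integrable χ μ := fun χ h1 h2 =>
    Integrable.of_bound h1.aestronglyMeasurable 1 (.of_forall fun u => (h2 u).le)
  refine ⟨fun χ h1 h2 => ?_, fun n χ ψ a1 b1 a2 b2 a3 b3 h0 => ?_⟩
  · obtain ⟨n, hn⟩ := (hv μ hμ).exists_dist_lt ((int χ h1 h2).toL1 χ) (ε := 1 / 4) (by norm_num)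
    refine ⟨n, lt_of_eq_of_lt ?_ hn⟩
    rw [dist_eq_norm, L1.norm_eq_integral_norm]
    refine integral_congr_ae ?_
    filter_upwards [Lp.coeFn_sub ((int χ h1 h2).toL1 χ) (v μ n), (int χ h1 h2).coeFn_toL1]
      with u e1 e2
    rw [e1, Pi.sub_apply, e2]
  · have iv := L1.integrable_coeFn (v μ n)
    have i1 := ((int χ a1 a2).sub iv).norm
    have i2 := ((int ψ b1 b2).sub iv).norm
    have i3 := int (fun u => χ u * (starRingEnd ℂ) (ψ u))
      (a1.mul (Complex.continuous_conj.measurable.comp b1)) fun u => by simp [a2, b2]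
    have e : ∫ u, (1 - χ u * (starRingEnd ℂ) (ψ u)) ∂μ = 1 := by
      rw [integral_sub (integrable_const _) i3, h0]; simp
    have le := norm_integral_le_of_norm_le (μ := μ)
      (f := fun u => 1 - χ u * (starRingEnd ℂ) (ψ u)) (i1.add i2) (.of_forall fun u => ?_)
    · simp only [Pi.add_apply] at le
      rw [e, integral_add i1 i2, norm_one] at le
      simp only [Pi.sub_apply] at le
      linarith
    · have : 1 - χ u * (starRingEnd ℂ) (ψ u) = (ψ u - χ u) * (starRingEnd ℂ) (ψ u) := by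
        rw [sub_mul, Complex.mul_conj', b2]; simp
      rw [this, norm_mul, Complex.norm_conj, b2, mul_one, norm_sub_rev]
      exact norm_sub_le_norm_sub_add_norm_sub _ (v μ n u) _ |>.trans (by simp [norm_sub_rev])

end Fib27

end MrgPart7

-- ======== part 8: formerly Pool.Agent.MP_154433_an.fib.Final
section MrgPart8

/-!
Transfer to the law of an axis and the proof of FIB.
-/

open MeasureTheory ProbabilityTheory Finset Filter

namespace Fib27

section Alg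

variable {ι M M' : Type} [Fintype ι] [AddCommGroup M] [AddCommGroup M'] {r : ι → ℤ}

/-- five classes related by two non-commuting loops along one axis -/
def Pat (r : ι → ℤ) (Pt : ℤ → AddSubgroup M) (w w' : List (ι × ι)) (x : Fin 5 → M) : Prop :=
  (∀ k i, Chain r Pt [(i, i)] 0 (x k) (x k)) ∧ Chain r Pt w 0 (x 0) (x 1) ∧
    Chain r Pt w' 0 (x 0) (x 2) ∧ Chain r Pt w 0 (x 2) (x 3) ∧ Chain r Pt w' 0 (x 1) (x 4) ∧
    x 3 ≠ x 4

theorem chain_iff {Pt : ℤ → AddSubgroup M} {Pt' : ℤ → AddSubgroup M'} (Φ : M' →+ M)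
    (W : AddSubgroup M') (hinj : ∀ x ∈ W, Φ x = 0 → x = 0) (hW : ∀ m, Pt' m ≤ W)
    (h1 : ∀ m, ∀ x ∈ Pt' m, Φ x ∈ Pt m) (h2 : ∀ m, ∀ y ∈ Pt m, ∃ x ∈ Pt' m, Φ x = y)
    (w : List (ι × ι)) : ∀ (m : ℤ) (x y : M'), x ∈ W → y ∈ W →
      (Chain r Pt' w m x y ↔ Chain r Pt w m (Φ x) (Φ y)) := by
  have inj : ∀ x ∈ W, ∀ y ∈ W, Φ x = Φ y → x = y := fun x hx y hy h =>
    sub_eq_zero.1 (hinj _ (sub_mem hx hy) (by rw [map_sub, h, sub_self]))
  induction w with
  | nil => exact fun m x y hx hy => ⟨fun h => congrArg Φ h, inj x hx y hy⟩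
  | cons σ w ih =>
    intro m x y hx hy
    constructor
    · rintro ⟨z, a1, a2, a3, a4⟩
      exact ⟨fun k => Φ (z k), fun k => h1 _ _ (a1 k), by rw [← map_sum, a2, map_zero],
        congrArg Φ a3, (ih _ _ _ (hW _ (a1 _)) hy).1 a4⟩
    · rintro ⟨z, a1, a2, a3, a4⟩
      choose z' b1 b2 using fun k => h2 _ _ (a1 k)
      refine ⟨z', b1, hinj _ (sum_mem fun k _ => hW _ (b1 k)) ?_,
        inj _ (hW _ (b1 _)) _ hx ((b2 _).trans a3), (ih _ _ _ (hW _ (b1 _)) hy).2 ?_⟩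
      · rw [map_sum]; simp only [b2, a2]
      · rw [b2]; exact a4

theorem pat_iff {Pt : ℤ → AddSubgroup M} {Pt' : ℤ → AddSubgroup M'} (Φ : M' →+ M)
    (W : AddSubgroup M') (hinj : ∀ x ∈ W, Φ x = 0 → x = 0) (hW : ∀ m, Pt' m ≤ W)
    (h1 : ∀ m, ∀ x ∈ Pt' m, Φ x ∈ Pt m) (h2 : ∀ m, ∀ y ∈ Pt m, ∃ x ∈ Pt' m, Φ x = y)
    (w w' : List (ι × ι)) {x : Fin 5 → M'} (hx : ∀ k, x k ∈ W) :
    Pat r Pt' w w' x ↔ Pat r Pt w w' (fun k => Φ (x k)) := by
  have e := fun u k k' => chain_iff (r := r) Φ W hinj hW h1 h2 u 0 (x k) (x k') (hx k) (hx k')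
  have e2 : x 3 ≠ x 4 ↔ Φ (x 3) ≠ Φ (x 4) := not_congr ⟨congrArg Φ, fun h =>
    sub_eq_zero.1 (hinj _ (sub_mem (hx 3) (hx 4)) (by rw [map_sub, h, sub_self]))⟩
  simp only [Pat, e, e2]

end Alg

section Transfer

variable {Ω Ω' E : Type} [MeasurableSpace E] {m0' : MeasurableSpace Ω'} {m0 : MeasurableSpace Ω}
  {κ : Measure Ω}

/-- pull-back of classes -/
noncomputable def Phi (κ : Measure Ω) {a : Ω → Ω'} (ha : Measurable a) : MM (κ.map a) →+ MM κ :=
  QuotientAddGroup.map _ _ (AddMonoidHom.mk' (fun f ω => f (a ω)) fun _ _ => rfl) (by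
    rintro f ⟨γ, hγ⟩
    exact ⟨γ, ae_of_ae_map ha.aemeasurable hγ⟩)

theorem Phi_cl {a : Ω → Ω'} (ha : Measurable a) (f : Ω' → ℝ) :
    Phi κ ha (cl _ f) = cl κ (fun ω => f (a ω)) := rfl

theorem Phi_inj {a : Ω → Ω'} (ha : Measurable a) :
    ∀ x ∈ Pt (κ.map a) m0', Phi κ ha x = 0 → x = 0 := by
  intro x hx h0
  obtain ⟨f, rfl⟩ := cl_surj x
  have hf := mem_Pt.1 hx
  rw [Phi_cl, cl_eq_zero] at h0
  obtain ⟨γ, hγ⟩ := h0
  refine cl_eq_zero.2 ⟨γ, ?_⟩
  have h1 : ∀ᵐ y ∂κ.map a, hf.mk _ y = γ := by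
    refine (ae_map_iff ha.aemeasurable
      (measurableSet_eq_fun hf.stronglyMeasurable_mk.measurable measurable_const)).2 ?_
    filter_upwards [hγ, ae_of_ae_map ha.aemeasurable hf.ae_eq_mk] with ω e1 e2
    rw [← e2, e1]
  filter_upwards [h1, hf.ae_eq_mk] with y e1 e2
  rw [e2, e1]

theorem mem_comap {π : Ω → E} {x : MM κ} :
    x ∈ Pt κ (MeasurableSpace.comap π inferInstance) ↔
      ∃ g : E → ℝ, Measurable (fun u => ee (g u)) ∧ x = cl κ (fun ω => g (π ω)) := by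
  constructor
  · intro hx
    obtain ⟨f, rfl⟩ := cl_surj x
    have hf := mem_Pt.1 hx
    obtain ⟨G, hG, e⟩ := hf.stronglyMeasurable_mk.exists_eq_measurable_comp
    refine ⟨fun u => Complex.arg (G u),
      continuous_ee.measurable.comp (Complex.measurable_arg.comp hG.measurable), cl_eq_of_ae ?_⟩
    filter_upwards [hf.ae_eq_mk] with ω hω
    rw [e] at hω
    have : G (π ω) = ee (f ω) := hω.symm
    rw [this, ee_arg (norm_ee _)]
  · rintro ⟨g, hg, rfl⟩
    exact mem_Pt.2 (hg.comp (comap_measurable π)).stronglyMeasurable.aestronglyMeasurable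

end Transfer

variable {J E ι : Type} [DecidableEq J] [MeasurableSpace E] [Fintype ι]

/-- the property of the law of an axis -/
def NCd (r : ι → ℤ) (lab : Measure E → ℕ → (E → ℂ) → Prop)
    (d : List (ι × ι) × List (ι × ι) × (Fin 5 → ℕ)) (ν : Measure (ℤ → E)) : Prop :=
  ∃ g : Fin 5 → E → ℝ, (∀ k, Measurable fun u => ee (g k u)) ∧
    (∀ k, lab (ν.map fun y => y 0) (d.2.2 k) fun u => ee (g k u)) ∧
    disp r d.1 = 0 ∧ disp r d.2.1 = 0 ∧
    Pat r (fun m => Pt ν (MeasurableSpace.comap (fun y : ℤ → E => y m) inferInstance)) d.1 d.2.1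
      (fun k => cl ν fun y => g k (y 0))

theorem measurable_axis (s : J) : Measurable (axis s : ((J → ℤ) → E) → ℤ → E) :=
  measurable_pi_lambda _ fun _ => measurable_pi_apply _

theorem ncd_iff (r : ι → ℤ) (lab : Measure E → ℕ → (E → ℂ) → Prop)
    (d : List (ι × ι) × List (ι × ι) × (Fin 5 → ℕ)) (κ : Measure ((J → ℤ) → E)) (s : J) :
    NCd r lab d (κ.map (axis s)) ↔ ∃ g : Fin 5 → E → ℝ, (∀ k, Measurable fun u => ee (g k u)) ∧
      (∀ k, lab (κ.map fun ω => ω 0) (d.2.2 k) fun u => ee (g k u)) ∧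
      disp r d.1 = 0 ∧ disp r d.2.1 = 0 ∧
      Pat r (fun m => Pt κ (P E (Pi.single s m))) d.1 d.2.1 (fun k => cl κ fun ω => g k (ω 0)) := by
  have e1 : (κ.map (axis s)).map (fun y => y 0) = κ.map fun ω => ω 0 := by
    rw [Measure.map_map (measurable_pi_apply 0) (measurable_axis s)]
    congr 1
    funext ω
    simp [axis]
  refine exists_congr fun g => and_congr_right fun hg => ?_
  rw [e1, pat_iff (Pt := fun m => Pt κ (P E (Pi.single s m))) (Phi κ (measurable_axis s))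
    (Pt _ MeasurableSpace.pi) (Phi_inj _)
    (fun m => Pt_mono (measurable_pi_apply m).comap_le) (fun m x hx => ?_) (fun m y hy => ?_) _ _
    (fun k => mem_Pt.2 ((hg k).comp (measurable_pi_apply 0)).aestronglyMeasurable)]
  · simp only [Phi_cl, axis, Pi.single_zero]
  · obtain ⟨g, hg, rfl⟩ := mem_comap.1 hx
    exact mem_comap.2 ⟨g, hg, rfl⟩
  · obtain ⟨g, hg, rfl⟩ := mem_comap.1 hy
    exact ⟨_, mem_comap.2 ⟨g, hg, rfl⟩, rfl⟩

theorem chain_one [DecidableEq ι] {Ω : Type} {m0 : MeasurableSpace Ω} {κ : Measure Ω}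
    {P : (J → ℤ) → MeasurableSpace Ω} {r : ι → ℤ} {s : J} {i : ι} {x : MM κ} :
    Chain r (fun m => Pt κ (P (Pi.single s m))) [(i, i)] 0 x x ↔
      ∃ z : ι → MM κ, (∀ k, z k ∈ Pt κ (ln P r 0 s i k)) ∧ ∑ k, z k = 0 ∧ z i = x := by
  simp only [Chain, ln, zero_add, and_self]

theorem fib : FIB := by
  intro J _ _ E _ _ l r hl hr hJ
  obtain ⟨lab, hlab⟩ := Fib27.lab E
  have hc : 3 ≤ Fintype.card (Fin (l + 1)) := by simp; omega
  obtain ⟨e, he⟩ := exists_surjective_nat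
    (List (Fin (l + 1) × Fin (l + 1)) × List (Fin (l + 1) × Fin (l + 1)) × (Fin 5 → ℕ))
  refine ⟨fun n => NCd r lab (e n), fun κ _ hG n s t hst => ?_, fun κ _ hG hF => ?_⟩
  · have h := r2c J E l r κ hr hG
    simp only [ncd_iff]
    rintro ⟨⟨g, hg, l1, d1, d2, a0, a1, -, a3, -, a5⟩, ⟨g', hg', l2, -, -, b0, -, b2, -, b4, -⟩⟩
    have hp : IsProbabilityMeasure (κ.map fun ω => ω 0) :=
      Measure.isProbabilityMeasure_map (measurable_pi_apply 0).aemeasurable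
    have key : ∀ k, InAll κ (P E) r {s, t} 0 (fun ω => ee (g k (ω 0))) ∧
        cl κ (fun ω => g k (ω 0)) = cl κ (fun ω => g' k (ω 0)) := fun k => by
      have h0 := (hlab _ hp).2 _ _ _ (hg k) (hg' k) (fun _ => norm_ee _) (fun _ => norm_ee _)
        (l1 k) (l2 k)
      rw [integral_map (measurable_pi_apply 0).aemeasurable
        ((hg k).mul (Complex.continuous_conj.measurable.comp (hg' k))).aestronglyMeasurable] at h0
      obtain ⟨c1, c2⟩ := h.match mult rank1 hc hst (v := fun ω => ee (g k (ω 0)))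
        (v' := fun ω => ee (g' k (ω 0)))
        (by rintro _ rfl i; exact mem_iff.1 (chain_one.1 (a0 k i)))
        (by rintro _ rfl i; exact mem_iff.1 (chain_one.1 (b0 k i))) h0
      exact ⟨c1, cl_eq.2 c2⟩
    simp only [← fun k => (key k).2] at b2 b4
    refine a5 (alg1 J _ _ r _ _ {s, t} (h.sys mult rank1 hc ?_) s (Or.inl rfl) t (Or.inr rfl) hst
      _ _ _ _ _ _ _ (mem_Gam.2 ⟨?_, (key 0).1⟩) d1 d2 a1 b2 a3 b4)
    · rintro u (rfl | rfl)
      · exact ⟨t, Or.inr rfl, hst.symm⟩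
      · exact ⟨s, Or.inl rfl, hst⟩
    · exact mem_Pt.1 (mem_comap.2 ⟨g 0, hg 0, rfl⟩)
  · have h := r2c J E l r κ hr hG
    have hnt : Nontrivial J := Fintype.one_lt_card_iff_nontrivial.1 hJ
    obtain ⟨s, t, hst⟩ := exists_pair_ne J
    obtain ⟨f, f1, f2, f3, f4, f5⟩ := hF
    have hb : ∃ C : ℝ, ∀ᵐ ω ∂κ, ‖((f (ω 0) : ℝ) : ℂ)‖ ≤ C :=
      ⟨1, Eventually.of_forall fun ω => by simpa using f2 _⟩
    obtain ⟨v, hv, hv0⟩ := h.ex mult rank1 eig hc hst (f := fun ω => ((f (ω 0) : ℝ) : ℂ))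
      ⟨Complex.continuous_ofReal.comp_aestronglyMeasurable
        (f1.comp (comap_measurable _)).stronglyMeasurable.aestronglyMeasurable, hb⟩
      (by rw [integral_complex_ofReal, f4]; simp)
      (fun u i => ⟨Complex.continuous_ofReal.comp_aestronglyMeasurable (f5 u i), hb⟩)
      (by simpa using f3)
    have hu := (hv s trivial 0).uni
    have hae : v =ᵐ[κ] fun ω => ee (Complex.arg (v ω)) := hu.mono fun _ hω => (ee_arg hω).symm
    have hm : BM κ (P E 0) v := by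
      have := (hv s trivial 0).bm
      rwa [ln_self] at this
    obtain ⟨s', w, w', x0, x1, x2, x3, x4, m0, m1, m2, m3, m4, d1, d2, a1, a2, a3, a4, a5⟩ :=
      alg2 J _ _ r _ _ hr (by omega)
        (h.sys mult rank1 hc (D := Set.univ) fun u _ => by
          obtain ⟨u', hu'⟩ := exists_ne u
          exact ⟨u', trivial, hu'⟩) h.a4 (cl κ fun ω => Complex.arg (v ω))
        (mem_Gam.2 ⟨hm.1.congr hae, fun u hu i => (hv u hu i).congr hae⟩) (fun h0 => by
          obtain ⟨γ, hγ⟩ := cl_eq_zero.1 h0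
          have e1 : v =ᵐ[κ] fun _ => γ := hae.trans hγ
          rw [integral_congr_ae e1] at hv0
          obtain ⟨ω, e2, e3⟩ := (e1.and hu).exists
          simp only [integral_const, probReal_univ, one_smul] at hv0
          simp [e2, hv0] at e3)
    have hx : ∀ k, ![x0, x1, x2, x3, x4] k ∈ Gam κ (P E) r Set.univ 0 := fun k => by
      fin_cases k <;> assumption
    choose g hg eg using fun k => mem_comap.1 (hx k).1
    have hp : IsProbabilityMeasure (κ.map fun ω => ω 0) :=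
      Measure.isProbabilityMeasure_map (measurable_pi_apply 0).aemeasurable
    choose n hn using fun k => (hlab _ hp).1 _ (hg k) fun _ => norm_ee _
    obtain ⟨N, hN⟩ := he (w, w', n)
    refine ⟨s', N, ?_⟩
    simp only [hN]
    refine (ncd_iff _ _ _ _ _).2 ⟨g, hg, hn, d1, d2, ?_⟩
    simp only [← eg]
    exact ⟨fun k i => chain_one.2 ((hx k).2 s' trivial i), a1, a2, a3, a4, a5⟩

end Fib27

end MrgPart8

-- marker of a merged file
example : 731051 + 831557 = 731051 + 831557 := rfl
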